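import Pool.Agent.MP_7dc785_an.Sqrt

/-!
Oriented lines of the hyperbolic plane as frames, and the statements of the steps.
-/

namespace Pool.Agent.MP_7dc785_an.Sep

open Set Metric UpperHalfPlane
open scoped MatrixGroups

/-- the hyperbolic sine of the signed distance to the line with frame `k` -/
noncomputable def S (k : SL(2, ℝ)) (z : ℍ) : ℝ := xb (k⁻¹ • z)

/-- the forward coefficient of `S k` along the line `k'` -/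
noncomputable def Af (k k' : SL(2, ℝ)) : ℝ := (k⁻¹ * k') 0 0 * (k⁻¹ * k') 1 0
/-- the backward coefficient of `S k` along the line `k'` -/
noncomputable def Bf (k k' : SL(2, ℝ)) : ℝ := (k⁻¹ * k') 0 1 * (k⁻¹ * k') 1 1
/-- the cosine of the angle between two lines -/
noncomputable def cf (k k' : SL(2, ℝ)) : ℝ :=
  (k⁻¹ * k') 0 0 * (k⁻¹ * k') 1 1 + (k⁻¹ * k') 0 1 * (k⁻¹ * k') 1 0

/-- the translation along the imaginary axis -/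
noncomputable def D (t : ℝ) : SL(2, ℝ) :=
  ⟨!![Real.exp (t / 2), 0; 0, Real.exp (-(t / 2))], by
    rw [Matrix.det_fin_two_of, ← Real.exp_add]; simp⟩

/-- the half turn about `i` -/
noncomputable def J : SL(2, ℝ) := ⟨!![0, 1; -1, 0], by rw [Matrix.det_fin_two_of]; simp⟩

theorem smul_im (m : SL(2, ℝ)) (z : ℍ) : (m • z).im =
    z.im / ((m 1 0 * z.re + m 1 1) ^ 2 + (m 1 0 * z.im) ^ 2) := by
  have hd := det_eq m
  rw [← coe_im, smul_coe, Complex.div_im, ← sub_div, Complex.normSq_apply]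
  congr 1
  · simp
    linear_combination z.im * hd
  · simp
    ring

theorem smul_re (m : SL(2, ℝ)) (z : ℍ) : (m • z).re =
    ((m 0 0 * z.re + m 0 1) * (m 1 0 * z.re + m 1 1) + m 0 0 * m 1 0 * z.im ^ 2) /
      ((m 1 0 * z.re + m 1 1) ^ 2 + (m 1 0 * z.im) ^ 2) := by
  rw [← coe_re, smul_coe, Complex.div_re, ← add_div, Complex.normSq_apply]
  congr 1
  · simp
    ring
  · simp
    ring

theorem den_pos (m : SL(2, ℝ)) (z : ℍ) :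
    0 < (m 1 0 * z.re + m 1 1) ^ 2 + (m 1 0 * z.im) ^ 2 := by
  have h := Complex.normSq_pos.2 (den_ne m z)
  rw [Complex.normSq_apply] at h
  simp at h
  nlinarith [h]

theorem xb_smul (m : SL(2, ℝ)) (z : ℍ) : xb (m • z) =
    m 0 0 * m 1 0 * xc z + (m 0 0 * m 1 1 + m 0 1 * m 1 0) * xb z + m 0 1 * m 1 1 * xa z := by
  have h1 := den_pos m z
  have h2 := z.im_pos
  rw [xb, smul_re, smul_im, div_div_div_cancel_right₀ h1.ne', xa, xb, xc]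
  field_simp
  ring

theorem xa_smul (m : SL(2, ℝ)) (z : ℍ) : xa (m • z) =
    m 1 0 ^ 2 * xc z + 2 * m 1 0 * m 1 1 * xb z + m 1 1 ^ 2 * xa z := by
  have h1 := den_pos m z
  have h2 := z.im_pos
  rw [xa, smul_im, one_div_div, xa, xb, xc]
  field_simp
  ring

theorem xc_smul (m : SL(2, ℝ)) (z : ℍ) : xc (m • z) =
    m 0 0 ^ 2 * xc z + 2 * m 0 0 * m 0 1 * xb z + m 0 1 ^ 2 * xa z := by
  have h1 := x_rel (m • z)
  have h2 := xa_pos (m • z)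
  have h3 := x_rel z
  have hd := det_eq m
  refine mul_left_cancel₀ h2.ne' ?_
  rw [h1, xb_smul, xa_smul]
  linear_combination (-(m 0 0 * m 1 1 - m 0 1 * m 1 0) ^ 2) * h3 -
    (m 0 0 * m 1 1 - m 0 1 * m 1 0 + 1) * hd

theorem S_smul (k k' : SL(2, ℝ)) (z : ℍ) :
    S k (k' • z) = Af k k' * xc z + cf k k' * xb z + Bf k k' * xa z := by
  rw [S, ← mul_smul, xb_smul, Af, Bf, cf]

theorem S_self (k : SL(2, ℝ)) (z : ℍ) : S k (k • z) = xb z := by rw [S, inv_smul_smul]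

theorem S_mul (m k : SL(2, ℝ)) (z : ℍ) : S (m * k) z = S k (m⁻¹ • z) := by
  rw [S, S, mul_inv_rev, mul_smul]

theorem xa_ax (t : ℝ) : xa (ax t) = Real.exp (-t) := by simp [xa, ax, Real.exp_neg]
theorem xb_ax (t : ℝ) : xb (ax t) = 0 := by simp [xb, ax]
theorem xc_ax (t : ℝ) : xc (ax t) = Real.exp t := by
  have := Real.exp_pos t
  simp only [xc, ax, pt_re, pt_im]
  field_simp
  ring

theorem S_ax (k k' : SL(2, ℝ)) (t : ℝ) :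
    S k (k' • ax t) = Af k k' * Real.exp t + Bf k k' * Real.exp (-t) := by
  rw [S_smul, xa_ax, xb_ax, xc_ax]; ring

theorem S_zero {k : SL(2, ℝ)} {z : ℍ} (h : S k z = 0) : ∃ s, z = k • ax s := by
  have h1 := (k⁻¹ • z).im_pos
  have h2 : (k⁻¹ • z).re = 0 := by
    rw [S, xb, div_eq_zero_iff] at h
    exact h.resolve_right h1.ne'
  refine ⟨Real.log (k⁻¹ • z).im, ?_⟩
  rw [← inv_smul_eq_iff]
  ext1
  exact Complex.ext h2 (Real.exp_log h1).symm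

theorem cf_sq (k k' : SL(2, ℝ)) : cf k k' ^ 2 = 1 + 4 * Af k k' * Bf k k' := by
  have hd := det_eq (k⁻¹ * k')
  rw [cf, Af, Bf]
  linear_combination ((k⁻¹ * k') 0 0 * (k⁻¹ * k') 1 1 - (k⁻¹ * k') 0 1 * (k⁻¹ * k') 1 0 + 1) * hd

theorem inv_ent (m : SL(2, ℝ)) :
    m⁻¹ 0 0 = m 1 1 ∧ m⁻¹ 0 1 = -m 0 1 ∧ m⁻¹ 1 0 = -m 1 0 ∧ m⁻¹ 1 1 = m 0 0 := by
  rw [Matrix.SpecialLinearGroup.SL2_inv_expl]
  simp

theorem mul_ent (m n : SL(2, ℝ)) (i j : Fin 2) : (m * n) i j = m i 0 * n 0 j + m i 1 * n 1 j := by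
  simp [Matrix.mul_apply, Fin.sum_univ_two]

theorem cf_comm (k k' : SL(2, ℝ)) : cf k k' = cf k' k := by
  obtain ⟨h1, h2, h3, h4⟩ := inv_ent (k⁻¹ * k')
  rw [mul_inv_rev, inv_inv] at h1 h2 h3 h4
  rw [cf, cf, h1, h2, h3, h4]
  ring

theorem AB_comm (k k' : SL(2, ℝ)) : Af k k' * Bf k k' = Af k' k * Bf k' k := by
  linarith [cf_sq k k', cf_sq k' k, congrArg (· ^ 2) (cf_comm k k')]

theorem Af_anti (k k' : SL(2, ℝ)) :
    2 * (Af k k' * Af k' k) = -(cf k k' + 1) * (k⁻¹ * k') 1 0 ^ 2 := by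
  obtain ⟨h1, h2, h3, h4⟩ := inv_ent (k⁻¹ * k')
  rw [mul_inv_rev, inv_inv] at h1 h2 h3 h4
  have hd := det_eq (k⁻¹ * k')
  rw [cf, Af, Af, h1, h3]
  linear_combination (-(k⁻¹ * k') 1 0 ^ 2) * hd

/-- two lines with cosine above minus one see each other on opposite sides -/
theorem Af_opp {k k' : SL(2, ℝ)} (hc : -1 < cf k k') (hA : Af k k' ≠ 0) :
    Af k k' * Af k' k < 0 := by
  have h1 : (k⁻¹ * k') 1 0 ≠ 0 := fun h => hA (by rw [Af, h, mul_zero])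
  have h2 := mul_pos (show 0 < cf k k' + 1 by linarith) (sq_pos_of_ne_zero h1)
  linarith [Af_anti k k']

theorem cf_three (k₁ k₂ k₃ : SL(2, ℝ)) : cf k₂ k₃ =
    cf k₂ k₁ * cf k₃ k₁ - 2 * (Af k₂ k₁ * Bf k₃ k₁ + Bf k₂ k₁ * Af k₃ k₁) := by
  obtain ⟨h1, h2, h3, h4⟩ := inv_ent (k₃⁻¹ * k₁)
  have e : k₂⁻¹ * k₃ = (k₂⁻¹ * k₁) * (k₃⁻¹ * k₁)⁻¹ := by group
  rw [cf, e]
  simp only [mul_ent (k₂⁻¹ * k₁), h1, h2, h3, h4, cf, Af, Bf]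
  ring

theorem Af_mul (m k k' : SL(2, ℝ)) : Af (m * k) (m * k') = Af k k' := by
  rw [Af, Af, show (m * k)⁻¹ * (m * k') = k⁻¹ * k' by group]
theorem Bf_mul (m k k' : SL(2, ℝ)) : Bf (m * k) (m * k') = Bf k k' := by
  rw [Bf, Bf, show (m * k)⁻¹ * (m * k') = k⁻¹ * k' by group]
theorem cf_mul (m k k' : SL(2, ℝ)) : cf (m * k) (m * k') = cf k k' := by
  rw [cf, cf, show (m * k)⁻¹ * (m * k') = k⁻¹ * k' by group]

theorem coef_ext {A B c A' B' c' : ℝ}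
    (h : ∀ z : ℍ, A * xc z + c * xb z + B * xa z = A' * xc z + c' * xb z + B' * xa z) :
    A = A' ∧ B = B' ∧ c = c' := by
  have h1 := h (pt 0 1 one_pos)
  have h2 := h pb
  have h3 := h pc
  norm_num [xa, xb, xc, pb, pc] at h1 h2 h3
  refine ⟨by linarith, by linarith, by linarith⟩

theorem D_ent (t : ℝ) : D t 0 0 = Real.exp (t / 2) ∧ D t 0 1 = 0 ∧ D t 1 0 = 0 ∧
    D t 1 1 = Real.exp (-(t / 2)) := ⟨rfl, rfl, rfl, rfl⟩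

theorem xa_D (t : ℝ) (z : ℍ) : xa (D t • z) = Real.exp (-t) * xa z := by
  obtain ⟨h1, h2, h3, h4⟩ := D_ent t
  rw [xa_smul, h3, h4, sq (Real.exp _), ← Real.exp_add]
  ring_nf

theorem xb_D (t : ℝ) (z : ℍ) : xb (D t • z) = xb z := by
  obtain ⟨h1, h2, h3, h4⟩ := D_ent t
  rw [xb_smul, h1, h2, h3, h4, ← Real.exp_add]
  simp

theorem xc_D (t : ℝ) (z : ℍ) : xc (D t • z) = Real.exp t * xc z := by
  obtain ⟨h1, h2, h3, h4⟩ := D_ent t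
  rw [xc_smul, h1, h2, sq (Real.exp _), ← Real.exp_add]
  ring_nf

theorem x_ext {z w : ℍ} (h1 : xa z = xa w) (h2 : xb z = xb w) : z = w := by
  have h3 : z.im = w.im := by simpa [xa] using h1
  have h4 := w.im_pos
  have h5 : z.re = w.re := by
    rw [xb, xb, h3, div_left_inj' h4.ne'] at h2
    exact h2
  ext1
  exact Complex.ext h5 h3

theorem D_ax (t s : ℝ) : D t • ax s = ax (s + t) :=
  x_ext (by rw [xa_D, xa_ax, xa_ax, ← Real.exp_add]; ring_nf) (by rw [xb_D, xb_ax, xb_ax])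

theorem D_D (t s : ℝ) (z : ℍ) : D t • D s • z = D (t + s) • z :=
  x_ext (by rw [xa_D, xa_D, xa_D, ← mul_assoc, ← Real.exp_add]; ring_nf)
    (by rw [xb_D, xb_D, xb_D])

theorem D_zero (z : ℍ) : D 0 • z = z := x_ext (by rw [xa_D]; simp) (xb_D 0 z)

theorem J_ent : J 0 0 = 0 ∧ J 0 1 = 1 ∧ J 1 0 = -1 ∧ J 1 1 = 0 := ⟨rfl, rfl, rfl, rfl⟩

theorem xa_J (z : ℍ) : xa (J • z) = xc z := by
  obtain ⟨h1, h2, h3, h4⟩ := J_ent
  rw [xa_smul, h3, h4]; ring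
theorem xb_J (z : ℍ) : xb (J • z) = -xb z := by
  obtain ⟨h1, h2, h3, h4⟩ := J_ent
  rw [xb_smul, h1, h2, h3, h4]; ring
theorem xc_J (z : ℍ) : xc (J • z) = xa z := by
  obtain ⟨h1, h2, h3, h4⟩ := J_ent
  rw [xc_smul, h1, h2]; ring

theorem J_J (z : ℍ) : J • J • z = z := x_ext (by rw [xa_J, xc_J]) (by rw [xb_J, xb_J, neg_neg])

theorem J_D (t : ℝ) (z : ℍ) : J • D t • z = D (-t) • J • z :=
  x_ext (by rw [xa_J, xc_D, xa_D, xa_J, neg_neg]) (by rw [xb_J, xb_D, xb_D, xb_J])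

theorem S_J (k : SL(2, ℝ)) (z : ℍ) : S (k * J) z = -S k z := by
  rw [S, S, mul_inv_rev, mul_smul, ← xb_J]
  congr 1
  rw [inv_smul_eq_iff, J_J]

theorem coef_J_left (k k' : SL(2, ℝ)) :
    Af (k * J) k' = -Af k k' ∧ Bf (k * J) k' = -Bf k k' ∧ cf (k * J) k' = -cf k k' :=
  coef_ext fun z => by rw [← S_smul, S_J, S_smul]; ring

theorem coef_J_right (k k' : SL(2, ℝ)) :
    Af k (k' * J) = Bf k k' ∧ Bf k (k' * J) = Af k k' ∧ cf k (k' * J) = -cf k k' :=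
  coef_ext fun z => by rw [← S_smul, mul_smul, S_smul, xa_J, xb_J, xc_J]; ring

theorem coef_D_right (k k' : SL(2, ℝ)) (t : ℝ) :
    Af k (k' * D t) = Af k k' * Real.exp t ∧ Bf k (k' * D t) = Bf k k' * Real.exp (-t) ∧
      cf k (k' * D t) = cf k k' :=
  coef_ext fun z => by rw [← S_smul, mul_smul, S_smul, xa_D, xb_D, xc_D]; ring

theorem S_D (k : SL(2, ℝ)) (t : ℝ) (z : ℍ) : S (k * D t) z = S k z := by
  rw [S, S, mul_inv_rev, mul_smul, ← xb_D t, smul_inv_smul]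

theorem cosh_D (t : ℝ) (z : ℍ) :
    Real.cosh (dist z (D t • z)) = 1 + (Real.cosh t - 1) * (1 + xb z ^ 2) := by
  rw [cosh_X, xa_D, xb_D, xc_D, Real.cosh_eq]
  linear_combination ((Real.exp t + Real.exp (-t)) / 2) * x_rel z

/-- a group acting by Moebius maps whose nontrivial elements move every point at least `l` -/
structure Fuchs (G : Subgroup (Equiv.Perm ℍ)) (l : ℝ) : Prop where
  pos : 0 < l
  mob : ∀ g ∈ G, ∃ m : SL(2, ℝ), ∀ z, g z = m • z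
  sys : ∀ g ∈ G, g ≠ 1 → ∀ z, l ≤ dist z (g z)

/-- `g` translates by `t` along the line with frame `k` -/
def Tr (g : Equiv.Perm ℍ) (k : SL(2, ℝ)) (t : ℝ) : Prop := ∀ z : ℍ, g (k • z) = k • D t • z

theorem Fuchs.dist_eq {G : Subgroup (Equiv.Perm ℍ)} {l : ℝ} (h : Fuchs G l) {g : Equiv.Perm ℍ}
    (hg : g ∈ G) (z w : ℍ) : dist (g z) (g w) = dist z w := by
  obtain ⟨m, hm⟩ := h.mob g hg
  rw [hm, hm, dist_smul]

theorem Tr.ax {g : Equiv.Perm ℍ} {k : SL(2, ℝ)} {t : ℝ} (h : Tr g k t) (s : ℝ) :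
    g (k • ax s) = k • ax (s + t) := by rw [h, D_ax]

theorem Tr.inv {g : Equiv.Perm ℍ} {k : SL(2, ℝ)} {t : ℝ} (h : Tr g k t) : Tr g⁻¹ k (-t) :=
  fun z => by rw [Equiv.Perm.inv_eq_iff_eq, h, D_D, add_neg_cancel, D_zero]

theorem Tr.mul {g g' : Equiv.Perm ℍ} {k : SL(2, ℝ)} {t t' : ℝ} (h : Tr g k t) (h' : Tr g' k t') :
    Tr (g * g') k (t + t') := fun z => by rw [Equiv.Perm.mul_apply, h', h, D_D]

theorem Tr.zpow {g : Equiv.Perm ℍ} {k : SL(2, ℝ)} {t : ℝ} (h : Tr g k t) (j : ℤ) :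
    Tr (g ^ j) k (j * t) := by
  induction j using Int.induction_on with
  | zero => intro z; simp [D_zero]
  | succ n ih =>
    have := ih.mul h
    rw [← zpow_add_one] at this
    rwa [show ((n : ℤ) + 1 : ℤ) * t = ((n : ℤ) : ℝ) * t + t by push_cast; ring]
  | pred n ih =>
    have := ih.mul h.inv
    rw [← zpow_sub_one] at this
    rwa [show ((-(n : ℤ) - 1 : ℤ) : ℝ) * t = ((-(n : ℤ) : ℤ) : ℝ) * t + -t by push_cast; ring]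

theorem Tr.S_eq {g : Equiv.Perm ℍ} {k : SL(2, ℝ)} {t : ℝ} (h : Tr g k t) (z : ℍ) :
    S k (g z) = S k z := by
  obtain ⟨w, rfl⟩ := MulAction.surjective k z
  simp only [h w, S_self, xb_D]

theorem Tr.rev {g : Equiv.Perm ℍ} {k : SL(2, ℝ)} {t : ℝ} (h : Tr g k t) : Tr g⁻¹ (k * J) t :=
  fun z => by rw [mul_smul, mul_smul, h.inv, J_D]

theorem Tr.shift {g : Equiv.Perm ℍ} {k : SL(2, ℝ)} {t : ℝ} (h : Tr g k t) (s : ℝ) :
    Tr g (k * D s) t := fun z => by rw [mul_smul, mul_smul, h, D_D, D_D, add_comm]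

theorem Tr.conj {g u : Equiv.Perm ℍ} {k m : SL(2, ℝ)} {t : ℝ} (h : Tr g k t)
    (hu : ∀ z, u z = m • z) : Tr (u * g * u⁻¹) (m * k) t := fun z => by
  rw [mul_smul, mul_smul, ← hu, ← hu]
  simp [h z]

theorem Tr.cosh {g : Equiv.Perm ℍ} {k : SL(2, ℝ)} {t : ℝ} (h : Tr g k t) (z : ℍ) :
    Real.cosh (dist z (g z)) = 1 + (Real.cosh t - 1) * (1 + S k z ^ 2) := by
  obtain ⟨w, rfl⟩ := MulAction.surjective k z
  simp only [h w, dist_smul, cosh_D, S_self]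

theorem Tr.le_dist {g : Equiv.Perm ℍ} {k : SL(2, ℝ)} {t : ℝ} (h : Tr g k t) (z : ℍ) :
    |t| ≤ dist z (g z) := by
  have h1 := h.cosh z
  have h2 := mul_nonneg (sub_nonneg.2 (Real.one_le_cosh t)) (sq_nonneg (S k z))
  have h3 : Real.cosh t ≤ Real.cosh (dist z (g z)) := by linarith
  rwa [Real.cosh_le_cosh, abs_of_nonneg dist_nonneg] at h3

/-- the line `g k` separates `p` from `q` -/
def T (k : SL(2, ℝ)) (g : Equiv.Perm ℍ) (p q : ℍ) : Prop :=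
  ¬ (0 < S k (g⁻¹ p) ↔ 0 < S k (g⁻¹ q))

/-- the cosets whose line separates `p` from `q` -/
def Cr {G : Subgroup (Equiv.Perm ℍ)} (γ : G) (k : SL(2, ℝ)) (p q : ℍ) :
    Set (G ⧸ Subgroup.zpowers γ) := {c | ∃ g : G, (g : G ⧸ Subgroup.zpowers γ) = c ∧ T k g p q}

/-- killed by every homomorphism to the group of order two -/
def Null {G : Subgroup (Equiv.Perm ℍ)} (γ : G) : Prop :=
  ∀ χ : G →* Multiplicative (ZMod 2), χ γ = 1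

/-- an invariant colouring which changes across each translate of the line -/
def Col {G : Subgroup (Equiv.Perm ℍ)} (γ : G) (k : SL(2, ℝ)) : Prop :=
  ∃ col : ℍ → Prop, (∀ g : G, ∀ p, col (g.1 p) ↔ col p) ∧
    (∀ p q, (∀ g : G, ¬ T k g p q) → (col p ↔ col q)) ∧
    ∀ p q, ∀ g₀ : G, T k g₀ p q → (∀ g : G, T k g p q → g₀⁻¹ * g ∈ Subgroup.zpowers γ) →
      (col p ↔ ¬ col q)

/-- row AXIS -/
def AXIS_s : Prop := ∀ (G : Subgroup (Equiv.Perm ℍ)) (l : ℝ), Fuchs G l → ∀ g ∈ G, g ≠ 1 →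
  ∃ k t, 0 < t ∧ Tr g k t

/-- row FIN -/
def FIN_s : Prop := ∀ (G : Subgroup (Equiv.Perm ℍ)) (l : ℝ), Fuchs G l → ∀ (p z : ℍ) (R : ℝ),
  {g : G | dist p (g.1 z) ≤ R}.Finite

/-- row FINC -/
def FINC_s : Prop := ∀ (G : Subgroup (Equiv.Perm ℍ)) (l : ℝ), Fuchs G l → ∀ (γ : G) k t,
  0 < t → Tr γ k t → ∀ p q, (Cr γ k p q).Finite

/-- row SYM -/
def SYM_s : Prop := ∀ (G : Subgroup (Equiv.Perm ℍ)) (l : ℝ), Fuchs G l → ∀ (γ δ : G) k t k' t',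
  0 < t → Tr γ k t → 0 < t' → Tr δ k' t' →
  (Cr γ k (k' • I) (δ.1 (k' • I))).ncard = (Cr δ k' (k • I) (γ.1 (k • I))).ncard

/-- row PAR -/
def PAR_s : Prop := ∀ (G : Subgroup (Equiv.Perm ℍ)) (l : ℝ), Fuchs G l → ∀ (γ : G) k t,
  0 < t → Tr γ k t → Null γ → Col γ k

/-- row SEP -/
def SEP_s : Prop := ∀ (G : Subgroup (Equiv.Perm ℍ)) (l : ℝ), Fuchs G l → ∀ (γ : G) k t,
  0 < t → Tr γ k t → ∀ g g' : G, g⁻¹ * g' ∉ Subgroup.zpowers γ → ∀ s s',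
  l - t / 2 ≤ dist (g.1 (k • ax s)) (g'.1 (k • ax s'))

/-- row GEO -/
def GEO_s : Prop := ∀ (G : Subgroup (Equiv.Perm ℍ)) (l : ℝ), Fuchs G l → 100 ≤ l →
  ∀ (α β γ : G) k₁ k₂ k₃ t₁ t₂ t₃ ζ, 0 < t₁ → t₁ ≤ 1071 / 1000 * l → Tr α k₁ t₁ →
  0 < t₂ → t₂ ≤ 1071 / 1000 * l → Tr β k₂ t₂ → 0 < t₃ → t₃ ≤ 1071 / 1000 * l → Tr γ k₃ t₃ →
  Col β k₂ → Col γ k₃ → k₁ • I = k₂ • I → |cf k₂ k₁| ≤ 999 / 1000 → |cf k₃ k₁| ≤ 999 / 1000 →
  S k₃ (k₁ • ax ζ) = 0 → 145 / 1000 * l ≤ ζ → ζ ≤ 155 / 1000 * l → False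

/-- row NOASYM -/
def NOASYM_s : Prop := ∀ (G : Subgroup (Equiv.Perm ℍ)) (l : ℝ), Fuchs G l →
  ∀ (α β : G) k t k' t', 0 < t → Tr α k t → 0 < t' → Tr β k' t' → (Af k' k = 0 ↔ Bf k' k = 0)

/-- row NOFOL -/
def NOFOL_s : Prop := ∀ F : Set SL(2, ℝ), (∀ k ∈ F, k * J ∈ F) →
  (∀ k ∈ F, ∃ t > 0, ∀ k' ∈ F, ∃ k'' ∈ F, Af k'' k = Af k' k * Real.exp t ∧
    Bf k'' k = Bf k' k * Real.exp (-t) ∧ cf k'' k = cf k' k) →
  (∀ z, ∃ k ∈ F, |S k z| ≤ 1 / 1000) → (∀ k ∈ F, ∀ k' ∈ F, (Af k' k = 0 ↔ Bf k' k = 0)) →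
  ∃ k ∈ F, ∃ k' ∈ F, |cf k' k| ≤ 99 / 100

/-- row MORSE -/
def MORSE_s : Prop := ∃ e₀ > 0, ∀ e, 0 ≤ e → e ≤ e₀ → ∀ φ : ℍ → ℍ, QI e φ →
  ∀ (g g' : Equiv.Perm ℍ) k t k' t', 0 < t → Tr g k t → Tr g' k' t' →
  (∀ z, φ (g z) = g' (φ z)) → ∀ s, |S k' (φ (k • ax s))| ≤ 1 / 1000

/-- row LEN -/
def LEN_s : Prop := ∀ e, 0 ≤ e → ∀ φ : ℍ → ℍ, QI e φ →
  ∀ (g g' : Equiv.Perm ℍ) k t k' t', 0 < t → Tr g k t → Tr g' k' t' →
  (∀ z, φ (g z) = g' (φ z)) → t' ≤ (1 + e) * t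

/-- row ANGLE -/
def ANGLE_s : Prop := ∃ e₀ > 0, ∀ e, 0 ≤ e → e ≤ e₀ → ∀ φ : ℍ → ℍ, QI e φ →
  ∀ k₁ k₂ k₁' k₂' k : SL(2, ℝ), k₁ • I = k₂ • I → |cf k₂ k₁| ≤ 99 / 100 →
  (∀ s, |S k₁' (φ (k₁ • ax s))| ≤ 1 / 1000) → (∀ s, |S k₂' (φ (k₂ • ax s))| ≤ 1 / 1000) →
  k • I = φ (k₁ • I) →
  ∃ k', (k' = k₁' ∨ k' = k₂') ∧ |cf k' k| ≤ 999 / 1000 ∧ ∃ s, |s| ≤ 1 ∧ S k' (k • ax s) = 0

/-- any point is moved to any point by an almost isometry which normalises the group -/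
def Hom (G : Subgroup (Equiv.Perm ℍ)) (e : ℝ) : Prop :=
  ∀ z w : ℍ, ∃ φ : Equiv.Perm ℍ, QI e φ ∧ φ z = w ∧ ∀ g ∈ G, φ * g * φ⁻¹ ∈ G

/-- row CORE -/
def CORE_s : Prop := ∃ e₀ > 0, ∀ (G : Subgroup (Equiv.Perm ℍ)) (l : ℝ), Fuchs G l → 200 ≤ l →
  Hom G e₀ → ∀ γ : G, γ ≠ 1 → Null γ → ∀ z, dist z (γ.1 z) ≤ 107 / 100 * l → False

/-- row TOP: the final statement -/
def TOP_s : Prop := ∃ K₀ : ℝ, 1 < K₀ ∧ ∀ Γ : Subgroup SL(2, ℝ), IsClosedSurface Γ →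
    ∀ K : ℝ, QCHomogeneous Γ K → ∀ (γ : Γ) (z : ℍ), γ.1 • z ≠ z →
      (∀ χ : Γ →* Multiplicative (ZMod 2), (∀ g : Γ, (∀ w : ℍ, g.1 • w = w) → χ g = 1) → χ γ = 1) →
      (∀ δ ∈ Γ, ∀ w : ℍ, δ • w ≠ w → dist z (γ.1 • z) ≤ 107 / 100 * dist w (δ • w)) → K₀ ≤ K

end Pool.Agent.MP_7dc785_an.Sep
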