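import Pool.Agent.MP_7dc785_an.Sep.Rows

/-!
Maps which preserve the homology class modulo two of a short curve: statements of the steps.
-/

namespace Pool.Agent.MP_7dc785_an.Sep

open Set Metric UpperHalfPlane
open scoped MatrixGroups

/-- the same class modulo two -/
def Same {G : Subgroup (Equiv.Perm ℍ)} (γ δ : G) : Prop :=
  ∀ χ : G →* Multiplicative (ZMod 2), χ γ = χ δ

/-- a twisted colouring which changes across each translate of the line -/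
def Col2 {G : Subgroup (Equiv.Perm ℍ)} (χ : G →* Multiplicative (ZMod 2)) (γ : G) (k : SL(2, ℝ)) :
    Prop :=
  ∃ col : ℍ → ZMod 2, (∀ g : G, ∀ p, col (g.1 p) = col p + (χ g).toAdd) ∧
    (∀ p q, (∀ g : G, ¬ T k g p q) → col p = col q) ∧
    ∀ p q, ∀ g₀ : G, T k g₀ p q → (∀ g : G, T k g p q → g₀⁻¹ * g ∈ Subgroup.zpowers γ) →
      col q = col p + 1

/-- row CF: the angle of a crossing is almost preserved -/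
def CF_s : Prop := ∃ e₀ > 0, ∀ e, 0 ≤ e → e ≤ e₀ → ∀ φ : ℍ → ℍ, QI e φ →
  ∀ k₁ k₂ j₁ j₂ : SL(2, ℝ), k₁ • I = k₂ • I →
  (∀ s, |S j₁ (φ (k₁ • ax s))| ≤ 1 / 10 ^ 16) → (∀ s, |S j₂ (φ (k₂ • ax s))| ≤ 1 / 10 ^ 16) →
  |(|cf j₂ j₁| - |cf k₂ k₁|)| ≤ 1 / 10 ^ 7

/-- row TAN: three lines through almost the same point, two of them almost tangent -/
def TAN_s : Prop := ∀ (a b c : SL(2, ℝ)) (p : ℍ), |S a p| ≤ 1 / 10 ^ 16 → |S b p| ≤ 1 / 10 ^ 16 →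
  |S c p| ≤ 1 / 10 ^ 16 → 1 - 1 / 10 ^ 14 < |cf a b| → |(|cf a c| - |cf b c|)| ≤ 2 / 10 ^ 7

/-- row QUAD: there is no hyperbolic parallelogram with four almost equal angles -/
def QUAD_s : Prop := ∀ k₁ k₂ : SL(2, ℝ), k₁ • I = k₂ • I → 0 ≤ cf k₂ k₁ → cf k₂ k₁ ≤ 99 / 100 →
  ∃ α : ℝ, ∀ n₁ n₂ : SL(2, ℝ), |S n₂ (k₁ • ax α)| ≤ 1 / 10 ^ 16 → |S n₁ (k₂ • ax α)| ≤ 1 / 10 ^ 16 →
  |(|cf n₂ k₁| - cf k₂ k₁)| ≤ 3 / 10 ^ 7 → |(|cf n₁ k₂| - cf k₂ k₁)| ≤ 3 / 10 ^ 7 →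
  1 - 1 / 10 ^ 14 < |cf n₂ k₂| → 1 - 1 / 10 ^ 14 < |cf n₁ k₁| →
  |cf n₂ n₁| ≤ 9999 / 10000 ∧ cf k₂ k₁ + 1 / 10 ^ 5 ≤ |cf n₂ n₁|

end Pool.Agent.MP_7dc785_an.Sep
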