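import Pool.Agent.MP_7dc785_an.Sep.Four

/-!
Signed crossing numbers and homology classes modulo an arbitrary integer.
-/

namespace Pool.Agent.MP_7dc785_an.Sep

open Set Metric UpperHalfPlane
open scoped MatrixGroups

theorem z_card {X : Type} {P Q U : Set X} (hU : U.Finite) (h1 : Q \ P ⊆ U) (h2 : P \ Q ⊆ U) :
    ((Q \ P).ncard : ℤ) - (P \ Q).ncard = (Q ∩ U).ncard - (P ∩ U).ncard := by
  have e1 := Set.ncard_inter_add_ncard_sdiff_eq_ncard (Q ∩ U) P (hU.inter_of_right Q)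
  have e2 := Set.ncard_inter_add_ncard_sdiff_eq_ncard (P ∩ U) Q (hU.inter_of_right P)
  have e3 : (Q ∩ U) \ P = Q \ P :=
    Subset.antisymm (fun x h => ⟨h.1.1, h.2⟩) fun x h => ⟨⟨h.1, h1 h⟩, h.2⟩
  have e4 : (P ∩ U) \ Q = P \ Q :=
    Subset.antisymm (fun x h => ⟨h.1.1, h.2⟩) fun x h => ⟨⟨h.1, h2 h⟩, h.2⟩
  have e5 : P ∩ U ∩ Q = Q ∩ U ∩ P :=
    Subset.antisymm (fun x h => ⟨⟨h.2, h.1.2⟩, h.1.1⟩) fun x h => ⟨⟨h.2, h.1.2⟩, h.1.1⟩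
  rw [e3] at e1
  rw [e4, e5] at e2
  omega

/-- the cosets whose line has `p` on its positive side -/
def Pos {G : Subgroup (Equiv.Perm ℍ)} (γ : G) (k : SL(2, ℝ)) (p : ℍ) :
    Set (G ⧸ Subgroup.zpowers γ) :=
  {c | ∃ g : G, (g : G ⧸ Subgroup.zpowers γ) = c ∧ 0 < S k ((g.1)⁻¹ p)}

/-- the signed number of lines between `p` and `q` -/
noncomputable def Nz {G : Subgroup (Equiv.Perm ℍ)} (γ : G) (k : SL(2, ℝ)) (p q : ℍ) : ℤ :=
  ((Pos γ k q \ Pos γ k p).ncard : ℤ) - (Pos γ k p \ Pos γ k q).ncard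

theorem pos_mem {G : Subgroup (Equiv.Perm ℍ)} {γ : G} {k : SL(2, ℝ)} {t : ℝ} (h : Tr γ k t)
    (g : G) (p : ℍ) : (g : G ⧸ Subgroup.zpowers γ) ∈ Pos γ k p ↔ 0 < S k ((g.1)⁻¹ p) := by
  refine ⟨?_, fun hT => ⟨g, rfl, hT⟩⟩
  rintro ⟨g', e, hT⟩
  rwa [par_T h e]

theorem pos_sub {G : Subgroup (Equiv.Perm ℍ)} {γ : G} {k : SL(2, ℝ)} {t : ℝ} (h : Tr γ k t)
    (p q : ℍ) : Pos γ k q \ Pos γ k p ⊆ Cr γ k p q ∧ Pos γ k p \ Pos γ k q ⊆ Cr γ k p q := by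
  constructor <;> intro c hc <;> obtain ⟨g, rfl⟩ := QuotientGroup.mk_surjective c <;>
    rw [mem_sdiff, pos_mem h, pos_mem h] at hc
  · exact ⟨g, rfl, fun e => hc.2 (e.2 hc.1)⟩
  · exact ⟨g, rfl, fun e => hc.2 (e.1 hc.1)⟩

theorem nz_add {G : Subgroup (Equiv.Perm ℍ)} {l : ℝ} (hl : Fuchs G l) {γ : G}
    {k : SL(2, ℝ)} {t : ℝ} (ht : 0 < t) (h : Tr γ k t) (p q r : ℍ) :
    Nz γ k p r = Nz γ k p q + Nz γ k q r := by
  have hC := finc_row fin_row G l hl γ k t ht h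
  have hU := ((hC p q).union (hC q r)).union (hC p r)
  rw [Nz, Nz, Nz,
    z_card hU ((pos_sub h p r).1.trans subset_union_right) ((pos_sub h p r).2.trans subset_union_right),
    z_card hU ((pos_sub h p q).1.trans (subset_union_left.trans subset_union_left))
      ((pos_sub h p q).2.trans (subset_union_left.trans subset_union_left)),
    z_card hU ((pos_sub h q r).1.trans (subset_union_right.trans subset_union_left))
      ((pos_sub h q r).2.trans (subset_union_right.trans subset_union_left))]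
  ring

theorem nz_inv {G : Subgroup (Equiv.Perm ℍ)} {γ : G} {k : SL(2, ℝ)} {t : ℝ} (h : Tr γ k t)
    (u : G) (p q : ℍ) : Nz γ k (u.1 p) (u.1 q) = Nz γ k p q := by
  have e : ∀ (c : G ⧸ Subgroup.zpowers γ) p, u • c ∈ Pos γ k (u.1 p) ↔ c ∈ Pos γ k p := fun c p => by
    obtain ⟨g, rfl⟩ := QuotientGroup.mk_surjective c
    show ((u * g : G) : G ⧸ Subgroup.zpowers γ) ∈ _ ↔ _
    rw [pos_mem h, pos_mem h]
    simp
  have a : ∀ p q, (Pos γ k (u.1 q) \ Pos γ k (u.1 p)).ncard = (Pos γ k q \ Pos γ k p).ncard :=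
    fun p q => by
    symm
    refine Set.ncard_congr (fun c _ => u • c) (fun c hc => ?_)
      (fun c c' _ _ e => smul_left_cancel u e) fun c hc => ⟨u⁻¹ • c, ?_, smul_inv_smul u c⟩
    · rwa [mem_sdiff, e, e]
    · rwa [mem_sdiff, ← e _ q, ← e _ p, smul_inv_smul]
  rw [Nz, Nz, a, a]

theorem nz_zero {G : Subgroup (Equiv.Perm ℍ)} {γ : G} {k : SL(2, ℝ)} {t : ℝ} (h : Tr γ k t)
    {p q : ℍ} (hT : ∀ g : G, ¬ T k g p q) : Nz γ k p q = 0 := by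
  have e : Cr γ k p q = ∅ := eq_empty_of_forall_notMem fun c ⟨g, _, h2⟩ => hT g h2
  obtain ⟨a, b⟩ := pos_sub h p q
  rw [e, subset_empty_iff] at a b
  rw [Nz, a, b]
  simp

theorem nz_one {G : Subgroup (Equiv.Perm ℍ)} {γ : G} {k : SL(2, ℝ)} {t : ℝ} (h : Tr γ k t)
    {p q : ℍ} {g₀ : G} (h₀ : T k g₀ p q)
    (hT : ∀ g : G, T k g p q → g₀⁻¹ * g ∈ Subgroup.zpowers γ) :
    Nz γ k p q = if 0 < S k ((g₀.1)⁻¹ q) then 1 else -1 := by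
  have e : Cr γ k p q ⊆ {(g₀ : G ⧸ Subgroup.zpowers γ)} := by
    rintro _ ⟨g, rfl, h2⟩
    exact (QuotientGroup.eq.2 (hT g h2)).symm
  obtain ⟨a, b⟩ := pos_sub h p q
  have K : ∀ p q : ℍ, Pos γ k q \ Pos γ k p ⊆ {(g₀ : G ⧸ Subgroup.zpowers γ)} →
      Pos γ k p \ Pos γ k q ⊆ {(g₀ : G ⧸ Subgroup.zpowers γ)} → 0 < S k ((g₀.1)⁻¹ q) →
      ¬ 0 < S k ((g₀.1)⁻¹ p) →
      (Pos γ k q \ Pos γ k p).ncard = 1 ∧ (Pos γ k p \ Pos γ k q).ncard = 0 := by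
    intro p q a b c d
    constructor
    · rw [Subset.antisymm a (singleton_subset_iff.2 ⟨(pos_mem h _ _).2 c, mt (pos_mem h _ _).1 d⟩),
        ncard_singleton]
    · rw [show Pos γ k p \ Pos γ k q = ∅ from eq_empty_of_forall_notMem fun x hx => by
        have := b hx
        rw [mem_singleton_iff] at this
        rw [this] at hx
        exact d ((pos_mem h _ _).1 hx.1), ncard_empty]
  split_ifs with c
  · obtain ⟨k1, k2⟩ := K p q (a.trans e) (b.trans e) c fun d => h₀ (iff_of_true d c)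
    rw [Nz, k1, k2]
    rfl
  · obtain ⟨k1, k2⟩ := K q p (b.trans e) (a.trans e)
      (not_not.1 fun d => h₀ (iff_of_false d c)) c
    rw [Nz, k1, k2]
    rfl

theorem sgn_end {A B s s' : ℝ} (hs : s ≤ s') (h : sym_J A B s s') :
    (0 < A * Real.exp s' + B * Real.exp (-s') ↔ 0 < A) ∧
      (0 < A * Real.exp s + B * Real.exp (-s) ↔ ¬ 0 < A) := by
  have a := sym_neg h
  by_cases hA : 0 < A
  · have b : ¬ 0 < A * Real.exp s + B * Real.exp (-s) := fun b =>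
      h (iff_of_true b (sym_mono hA hs b))
    exact ⟨iff_of_true (not_not.1 fun c => h (iff_of_false b c)) hA, iff_of_false b (not_not.2 hA)⟩
  · have hB : 0 < B := by nlinarith [not_lt.1 hA]
    have b : ¬ 0 < A * Real.exp s' + B * Real.exp (-s') := fun b => by
      have c := sym_mono (A := B) (B := A) hB (neg_le_neg hs) (by rw [neg_neg]; linarith)
      rw [neg_neg] at c
      exact h (iff_of_true (by linarith) b)
    exact ⟨iff_of_false b hA, iff_of_true (not_not.1 fun c => h (iff_of_false c b)) hA⟩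

theorem symz_half {G : Subgroup (Equiv.Perm ℍ)} {l : ℝ} (hl : Fuchs G l) {γ δ : G}
    {k k' : SL(2, ℝ)} {t t' : ℝ} (ht : 0 < t) (h : Tr γ k t) (h' : Tr δ k' t')
    {V : Set (G ⧸ Subgroup.zpowers γ)} (hV : V ⊆ Cr γ k (k' • I) (δ.1 (k' • I))) :
    V.ncard = {g : G | (g : G ⧸ Subgroup.zpowers γ) ∈ V ∧
      T k' (g⁻¹ : G) (k • I) (γ.1 (k • I))}.ncard := by
  have e2 : ∀ (g : G) m, (∀ z, g.1 z = m • z) → ∀ j : ℤ,
      T k' ((g * γ ^ j : G)⁻¹ : G) (k • I) (γ.1 (k • I)) ↔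
        sym_J (Af k' (m * k)) (Bf k' (m * k)) (j * t) (j * t + t) := fun g m hm j => by
    have : ∀ s, ((((g * γ ^ j : G)⁻¹ : G).1)⁻¹) (k • ax s) = (m * k) • ax (s + j * t) := fun s => by
      rw [mul_smul, ← hm, ← (h.zpow j).ax]
      simp
    rw [T, ← ax_zero, h.ax, this, this, S_ax, S_ax, sym_J, zero_add, zero_add, add_comm t]
  symm
  refine Set.ncard_congr (fun g _ => (g : G ⧸ Subgroup.zpowers γ)) (fun g hg => hg.1)
    (fun g g' hg hg' e => ?_) ?_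
  · obtain ⟨j, hj⟩ := QuotientGroup.eq.1 e
    obtain ⟨m, hm⟩ := hl.mob g g.2
    have a1 : g' = g * γ ^ j := by simp [show γ ^ j = g⁻¹ * g' from hj]
    have a2 := (e2 g m hm j).1 (a1 ▸ hg'.2)
    have a3 := (e2 g m hm 0).1 (by simpa using hg.2)
    rw [a1, sym_uniq ht a2 a3, zpow_zero, mul_one]
  · intro c hc
    obtain ⟨g, rfl, hT⟩ := hV hc
    obtain ⟨m, hm⟩ := hl.mob g g.2
    have hm' : ∀ z, (g.1)⁻¹ z = m⁻¹ • z := fun z => by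
      rw [Equiv.Perm.inv_eq_iff_eq, hm, smul_inv_smul]
    have a1 : Af (m * k) k' * Bf (m * k) k' < 0 := by
      have := hT
      rw [T, hm', hm', ← S_mul, ← S_mul, ← ax_zero, h'.ax, S_ax, S_ax] at this
      exact sym_neg this
    obtain ⟨j, hj⟩ := sym_ex (AB_comm _ _ ▸ a1) ht
    have a2 : ((g * γ ^ j : G) : G ⧸ Subgroup.zpowers γ) = g := QuotientGroup.eq.2 ⟨-j, by simp⟩
    exact ⟨g * γ ^ j, ⟨a2 ▸ hc, (e2 g m hm j).2 hj⟩, a2⟩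

theorem symz_key {G : Subgroup (Equiv.Perm ℍ)} {l : ℝ} (hl : Fuchs G l) {γ δ : G}
    {k k' : SL(2, ℝ)} {t t' : ℝ} (ht : 0 < t) (h : Tr γ k t) (ht' : 0 < t') (h' : Tr δ k' t')
    (g : G) (a : T k g (k' • I) (δ.1 (k' • I))) (b : T k' (g⁻¹ : G) (k • I) (γ.1 (k • I))) :
    0 < S k ((g.1)⁻¹ (δ.1 (k' • I))) ↔ 0 < S k' (((g⁻¹ : G).1)⁻¹ (k • I)) := by
  obtain ⟨m, hm⟩ := hl.mob g g.2
  have hm' : ∀ z, (g.1)⁻¹ z = m⁻¹ • z := fun z => by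
    rw [Equiv.Perm.inv_eq_iff_eq, hm, smul_inv_smul]
  have e : ∀ s, ((g⁻¹ : G).1)⁻¹ (k • ax s) = (m * k) • ax s := fun s => by
    rw [mul_smul, ← hm]
    simp
  rw [T, hm', hm', ← S_mul, ← S_mul, ← ax_zero, h'.ax, S_ax, S_ax] at a
  rw [T, ← ax_zero, h.ax, e, e, S_ax, S_ax] at b
  rw [hm', ← S_mul, ← ax_zero, h'.ax, e, S_ax, S_ax, (sgn_end (by linarith) a).1,
    (sgn_end (by linarith) b).2]
  have c := sym_neg a
  have d := Af_opp (k := m * k) (k' := k') (by nlinarith [cf_sq (m * k) k'])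
    (fun d => by simp [d] at c)
  constructor
  · intro x y
    nlinarith [mul_pos x y]
  · intro x
    by_contra y
    nlinarith [mul_nonneg (neg_nonneg.2 (not_lt.1 x)) (neg_nonneg.2 (not_lt.1 y))]

theorem symz {G : Subgroup (Equiv.Perm ℍ)} {l : ℝ} (hl : Fuchs G l) {γ δ : G}
    {k k' : SL(2, ℝ)} {t t' : ℝ} (ht : 0 < t) (h : Tr γ k t) (ht' : 0 < t') (h' : Tr δ k' t') :
    Nz γ k (k' • I) (δ.1 (k' • I)) = -Nz δ k' (k • I) (γ.1 (k • I)) := by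
  have L : ∀ {γ δ : G} {k k' : SL(2, ℝ)} {t t' : ℝ}, 0 < t → Tr γ k t → 0 < t' → Tr δ k' t' →
      (Pos γ k (δ.1 (k' • I)) \ Pos γ k (k' • I)).ncard =
        (Pos δ k' (k • I) \ Pos δ k' (γ.1 (k • I))).ncard := by
    intro γ δ k k' t t' ht h ht' h'
    rw [symz_half hl ht h h' (pos_sub h _ _).1, symz_half hl ht' h' h (pos_sub h' _ _).2]
    have K : ∀ g : G, ((g : G ⧸ Subgroup.zpowers γ) ∈ Pos γ k (δ.1 (k' • I)) \ Pos γ k (k' • I) ∧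
        T k' (g⁻¹ : G) (k • I) (γ.1 (k • I))) ↔
        (((g⁻¹ : G) : G ⧸ Subgroup.zpowers δ) ∈ Pos δ k' (k • I) \ Pos δ k' (γ.1 (k • I)) ∧
        T k (g⁻¹⁻¹ : G) (k' • I) (δ.1 (k' • I))) := fun g => by
      rw [inv_inv, mem_sdiff, mem_sdiff, pos_mem h, pos_mem h, pos_mem h', pos_mem h']
      constructor
      · rintro ⟨⟨a, b⟩, c⟩
        have d : T k g (k' • I) (δ.1 (k' • I)) := fun e => b (e.2 a)
        have e := (symz_key hl ht h ht' h' g d c).1 a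
        exact ⟨⟨e, fun f => c (iff_of_true e f)⟩, d⟩
      · rintro ⟨⟨a, b⟩, c⟩
        have d : T k' (g⁻¹ : G) (k • I) (γ.1 (k • I)) := fun e => b (e.1 a)
        have e := (symz_key hl ht h ht' h' g c d).2 a
        exact ⟨⟨e, fun f => c (iff_of_true f e)⟩, d⟩
    exact Set.ncard_congr (fun g _ => g⁻¹) (fun g hg => (K g).1 hg)
      (fun g g' _ _ e => inv_injective e)
      fun g hg => ⟨g⁻¹, (K g⁻¹).2 (by rw [inv_inv]; exact hg), inv_inv g⟩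
  rw [Nz, Nz, L ht h ht' h', L ht' h' ht h]
  ring

/-- the classes modulo `r` have the same annihilator -/
def SameR (r : ℕ) {G : Subgroup (Equiv.Perm ℍ)} (γ δ : G) : Prop :=
  ∀ χ : G →* Multiplicative (ZMod r), χ γ = 1 ↔ χ δ = 1

/-- a twisted colouring which changes by a sign across each translate of the line -/
def ColR {r : ℕ} {G : Subgroup (Equiv.Perm ℍ)} (χ : G →* Multiplicative (ZMod r)) (γ : G)
    (k : SL(2, ℝ)) : Prop :=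
  ∃ col : ℍ → ZMod r, (∀ g : G, ∀ p, col (g.1 p) = col p + (χ g).toAdd) ∧
    (∀ p q, (∀ g : G, ¬ T k g p q) → col p = col q) ∧
    ∀ p q, ∀ g₀ : G, T k g₀ p q → (∀ g : G, T k g p q → g₀⁻¹ * g ∈ Subgroup.zpowers γ) →
      col q = col p + if 0 < S k ((g₀.1)⁻¹ q) then 1 else -1

/-- the signed number of separating lines as a homomorphism -/
noncomputable def nzHom (r : ℕ) {G : Subgroup (Equiv.Perm ℍ)} {l : ℝ} (hl : Fuchs G l) {δ : G}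
    {k : SL(2, ℝ)} {t : ℝ} (ht : 0 < t) (h : Tr δ k t) : G →* Multiplicative (ZMod r) where
  toFun g := Multiplicative.ofAdd (Nz δ k I (g.1 I) : ZMod r)
  map_one' := by simp [Nz]
  map_mul' a b := by
    rw [← ofAdd_add, ← nz_inv h a I (b.1 I), ← Int.cast_add, ← nz_add hl ht h]
    rfl

theorem nz_base {G : Subgroup (Equiv.Perm ℍ)} {l : ℝ} (hl : Fuchs G l) {δ : G}
    {k : SL(2, ℝ)} {t : ℝ} (ht : 0 < t) (h : Tr δ k t) (g : G) (p q : ℍ) :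
    Nz δ k p (g.1 p) = Nz δ k q (g.1 q) := by
  have a3 := nz_add hl ht h p q p
  rw [show Nz δ k p p = 0 by simp [Nz]] at a3
  rw [nz_add hl ht h p q, nz_add hl ht h q (g.1 q), nz_inv h]
  linarith

theorem parR (r : ℕ) {G : Subgroup (Equiv.Perm ℍ)} {l : ℝ} (hl : Fuchs G l) {γ₀ : G}
    {k₀ : SL(2, ℝ)} {t₀ : ℝ} (ht₀ : 0 < t₀) (h₀ : Tr γ₀ k₀ t₀) (b₀ : t₀ < 2 * l) :
    ∃ N : G → Prop, ∀ (γ : G) k t, 0 < t → Tr γ k t → SameR r γ γ₀ →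
      N γ ∧ ∃ χ : G →* Multiplicative (ZMod r), (∀ g, χ g = 1 ↔ N g) ∧ ColR χ γ k := by
  have z₀ : nzHom r hl ht₀ h₀ γ₀ = 1 := by
    show Multiplicative.ofAdd (Nz γ₀ k₀ I (γ₀.1 I) : ZMod r) = 1
    rw [nz_base hl ht₀ h₀ γ₀ I (k₀ • ax 0), h₀.ax, nz_zero h₀ fun g hT => ?_]
    · simp
    obtain ⟨s, -, u, e⟩ := geo_zero hl (by linarith) hT
    by_cases hg : 1⁻¹ * g ∈ Subgroup.zpowers γ₀
    · refine hT ?_
      rw [par_T h₀ (QuotientGroup.eq.2 hg), par_T h₀ (QuotientGroup.eq.2 hg)]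
      simp [S_self, xb_ax]
    · have := sep_row G l hl γ₀ k₀ t₀ ht₀ h₀ 1 g hg s u
      rw [← e] at this
      simp only [OneMemClass.coe_one, Equiv.Perm.coe_one, id, dist_self] at this
      linarith
  have sw : ∀ {γ g : G} {k k' t t'} (ht : 0 < t) (h : Tr γ k t) (ht' : 0 < t') (h' : Tr g k' t'),
      nzHom r hl ht h g = (nzHom r hl ht' h' γ)⁻¹ := by
    intro γ g k k' t t' ht h ht' h'
    show Multiplicative.ofAdd (Nz γ k I (g.1 I) : ZMod r) =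
      (Multiplicative.ofAdd (Nz g k' I (γ.1 I) : ZMod r))⁻¹
    rw [nz_base hl ht h g I (k' • I), symz hl ht h ht' h', nz_base hl ht' h' γ (k • I) I,
      Int.cast_neg, ofAdd_neg]
  refine ⟨fun g => nzHom r hl ht₀ h₀ g = 1, fun γ k t ht h hs => ⟨?_, nzHom r hl ht h, fun g => ?_,
    fun p => (Nz γ k I p : ZMod r), fun g p => ?_, fun p q hT => ?_, fun p q g₀ h₀ hT => ?_⟩⟩
  · exact (hs _).2 z₀
  · by_cases hg : g = 1
    · simp [hg]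
    obtain ⟨k', t', ht', h'⟩ := axis_row G l hl g g.2 fun e => hg (Subtype.ext e)
    simp only
    rw [sw ht h ht' h', sw ht₀ h₀ ht' h', inv_eq_one, inv_eq_one]
    exact hs _
  · simp only
    rw [nz_add hl ht h I p, nz_base hl ht h g p I, Int.cast_add]
    rfl
  · simp only
    rw [nz_add hl ht h I p q, nz_zero h hT, add_zero]
  · simp only
    rw [nz_add hl ht h I p q, nz_one h h₀ hT, Int.cast_add]
    split_ifs <;> simp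

theorem geoR_P1 {r : ℕ} [Nontrivial (ZMod r)] {G : Subgroup (Equiv.Perm ℍ)} {l : ℝ} (hl : Fuchs G l) (h100 : 600 ≤ l)
    {χ : G →* Multiplicative (ZMod r)} {α β : G} {k₁ k₂ : SL(2, ℝ)} {t₁ t₂ : ℝ} (ht₁ : 0 < t₁)
    (b₁ : t₁ ≤ 1071 / 1000 * l) (h₁ : Tr α k₁ t₁) (ht₂ : 0 < t₂) (b₂ : t₂ ≤ 1071 / 1000 * l)
    (h₂ : Tr β k₂ t₂) (nα : χ α = 1) (C₂ : ColR χ β k₂) (hx : k₁ • ax 0 = k₂ • ax 0)
    (cc : |cf k₂ k₁| < 1) : ∃ g : G, ∃ y u, k₁ • ax y = g.1 (k₂ • ax u) ∧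
      4645 / 10000 * l ≤ y ∧ y ≤ 6065 / 10000 * l ∧ 4645 / 10000 * l ≤ u ∧ u ≤ 6065 / 10000 * l := by
  obtain ⟨c₂, i₂, _, o₂⟩ := C₂
  have hS := sep_row
  have s₂ : S k₂ (k₁ • ax 0) = 0 := by rw [hx, S_self, xb_ax]
  have s₁ : S k₁ (k₂ • ax 0) = 0 := by rw [← hx, S_self, xb_ax]
  have T1 : ∀ k p q, T k (1 : G) p q ↔ ¬ (0 < S k p ↔ 0 < S k q) := fun k p q => by simp [T]
  have l₁ : l ≤ t₁ := by
    have := hl.sys α α.2 (core_ne ht₁ h₁) (k₁ • ax 0)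
    rwa [h₁.ax, dist_smul, dist_ax, zero_add, zero_sub, abs_neg, abs_of_pos ht₁] at this
  obtain ⟨g, y, u, hy, y1, y2⟩ : ∃ g : G, ∃ y u, k₁ • ax y = g.1 (k₂ • ax u) ∧
      l - t₂ / 2 ≤ y ∧ y ≤ t₁ - (l - t₂ / 2) := by
    by_contra hc
    have a1 := o₂ (k₁ • ax (-1)) (k₁ • ax (-1 + t₁)) 1
      ((T1 _ _ _).2 (geo_jump cc s₂ (by norm_num) (by linarith))) fun g hT => by
      by_contra hg
      obtain ⟨y, hy, u, e⟩ := geo_zero hl (by linarith) hT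
      have a2 := hS G l hl β k₂ t₂ ht₂ h₂ 1 g hg 0 u
      rw [← e, ← hx] at a2
      simp only [OneMemClass.coe_one, Equiv.Perm.coe_one, id, dist_smul, dist_ax] at a2
      have a3 : l - t₂ / 2 ≤ y := by
        rcases le_abs.1 a2 with h | h <;> linarith [hy.1]
      have a4 : α⁻¹ * g ∉ Subgroup.zpowers β := by
        rintro ⟨j, hj⟩
        have a5 : g = α * β ^ j := by simp [show β ^ j = α⁻¹ * g from hj]
        have a6 : k₁ • ax (y + -t₁) = k₂ • ax (u + j * t₂) := by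
          rw [← h₁.inv.ax, e, a5, ← (h₂.zpow j).ax]
          simp
        have a7 := geo_uniq cc s₂ (a := y + -t₁) (by rw [a6, S_self, xb_ax])
        linarith [hy.2]
      have a5 := hS G l hl β k₂ t₂ ht₂ h₂ α g a4 0 u
      rw [← e, ← hx, h₁.ax, dist_smul, dist_ax, abs_of_nonneg (by linarith [hy.2])] at a5
      exact hc ⟨g, y, u, e, a3, by linarith⟩
    rw [← h₁.ax, i₂, nα] at a1
    split_ifs at a1 <;> simp at a1
  have a1 := Int.floor_le (u / t₂)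
  have a2 := Int.lt_floor_add_one (u / t₂)
  rw [le_div_iff₀ ht₂] at a1
  rw [div_lt_iff₀ ht₂] at a2
  generalize ⌊u / t₂⌋ = j at a1 a2
  have hy' : k₁ • ax y = (g * β ^ j : G).1 (k₂ • ax (u - j * t₂)) := by
    rw [hy, show u = u - j * t₂ + j * t₂ by ring, ← (h₂.zpow j).ax]
    simp
  have W : ∀ (g : G) u, k₁ • ax y = g.1 (k₂ • ax u) → l - t₁ / 2 ≤ |u| := fun g u e => by
    have hg : 1⁻¹ * g⁻¹ ∉ Subgroup.zpowers α := by
      rintro ⟨i, hi⟩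
      have a5 : g⁻¹ = α ^ i := by simpa using (show α ^ i = 1⁻¹ * g⁻¹ from hi).symm
      have a6 : k₁ • ax (y + i * t₁) = k₂ • ax u := by
        rw [← (h₁.zpow i).ax, e, show α.1 ^ i = (α ^ i : G).1 from rfl, ← a5]
        simp
      have a7 := geo_uniq cc s₂ (a := y + i * t₁) (by rw [a6, S_self, xb_ax])
      rcases le_or_gt 0 i with h | h
      · have : (0 : ℝ) ≤ i := by exact_mod_cast h
        nlinarith
      · have : (i : ℝ) + 1 ≤ 0 := by exact_mod_cast h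
        nlinarith
    have a2 := hS G l hl α k₁ t₁ ht₁ h₁ 1 g⁻¹ hg 0 y
    rw [e, hx] at a2
    simpa [dist_smul, dist_ax] using a2
  have w1 := W _ _ hy'
  have w2 := W (g * β ^ j * β) (u - j * t₂ + -t₂) (by rw [hy', ← h₂.inv.ax]; simp)
  rw [abs_of_nonneg (by linarith)] at w1
  rw [abs_of_nonpos (by linarith)] at w2
  exact ⟨_, y, _, hy', by linarith, by linarith, by linarith, by linarith⟩

theorem geoR {r : ℕ} [Nontrivial (ZMod r)] {G : Subgroup (Equiv.Perm ℍ)} {l : ℝ} (hl : Fuchs G l) (h100 : 600 ≤ l)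
    {χ : G →* Multiplicative (ZMod r)} {β γ g : G} {k₁ k₂ k₃ : SL(2, ℝ)} {t₂ t₃ ζ y u : ℝ}
    (ht₂ : 0 < t₂) (b₂ : t₂ ≤ 1071 / 1000 * l) (h₂ : Tr β k₂ t₂) (ht₃ : 0 < t₃)
    (b₃ : t₃ ≤ 1071 / 1000 * l) (h₃ : Tr γ k₃ t₃) (nβ : χ β = 1) (C₃ : ColR χ γ k₃)
    (hx : k₁ • ax 0 = k₂ • ax 0) (cc₂ : |cf k₂ k₁| ≤ 1 - 1 / 10 ^ 14)
    (cc₃ : |cf k₃ k₁| ≤ 999 / 1000) (hζ : S k₃ (k₁ • ax ζ) = 0) (lo : 145 / 1000 * l ≤ ζ)
    (hi : ζ ≤ 155 / 1000 * l) (hy : k₁ • ax y = g.1 (k₂ • ax u)) (y1 : 4645 / 10000 * l ≤ y)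
    (y2 : y ≤ 6065 / 10000 * l) :
    (χ g).toAdd = if 0 < Af k₃ k₁ then 1 else -1 := by
  obtain ⟨c₃, i₃, z₃, o₃⟩ := C₃
  have hS := sep_row
  have s₂ : S k₂ (k₁ • ax 0) = 0 := by rw [hx, S_self, xb_ax]
  have nc := geo2_ne (far_key s₂ hζ cc₂ (by linarith) (by rw [zero_sub, abs_neg, le_abs]; left; linarith))
  obtain ⟨w, hw⟩ := S_zero hζ
  have T1 : ∀ k p q, T k (1 : G) p q ↔ ¬ (0 < S k p ↔ 0 < S k q) := fun k p q => by simp [T]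
  have p1 : ¬ (0 < S k₃ (k₁ • ax 0) ↔ 0 < S k₃ (k₁ • ax y)) :=
    geo_jump (by linarith) hζ (by linarith) (by linarith)
  have p0 : 0 < S k₃ (((1 : G).1)⁻¹ (k₁ • ax y)) ↔ 0 < Af k₃ k₁ := by
    rw [S_ax, S_ax] at p1
    rw [← (sgn_end (by linarith) p1).1, ← S_ax]
    simp
  have p2 := o₃ (k₁ • ax 0) (k₁ • ax y) 1 ((T1 _ _ _).2 p1) fun g' hT => by
    by_contra hg
    obtain ⟨s, hs, v, e⟩ := geo_zero hl (by linarith) hT
    have a2 := hS G l hl γ k₃ t₃ ht₃ h₃ 1 g' hg w v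
    rw [← e, ← hw] at a2
    simp only [OneMemClass.coe_one, Equiv.Perm.coe_one, id, dist_smul, dist_ax] at a2
    rcases le_abs.1 a2 with h | h <;> linarith [hs.1, hs.2]
  have p3 : ∀ (g' : G) s v, k₂ • ax s = g'.1 (k₃ • ax v) → l - t₃ / 2 - ζ ≤ |s| := fun g' s v e => by
    have hg : 1⁻¹ * g' ∉ Subgroup.zpowers γ := by
      rintro ⟨j, hj⟩
      have a5 : g' = γ ^ j := by simpa using (show γ ^ j = 1⁻¹ * g' from hj).symm
      refine nc s ?_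
      rw [e, a5, show (γ ^ j : G).1 = γ.1 ^ j from rfl, (h₃.zpow j).S_eq, S_self, xb_ax]
    have a2 := hS G l hl γ k₃ t₃ ht₃ h₃ 1 g' hg w v
    rw [← e, ← hw] at a2
    simp only [OneMemClass.coe_one, Equiv.Perm.coe_one, id] at a2
    have a3 := dist_triangle (k₁ • ax ζ) (k₁ • ax 0) (k₂ • ax s)
    rw [dist_smul, dist_ax, sub_zero, abs_of_nonneg (by linarith), hx, dist_smul, dist_ax, zero_sub,
      abs_neg] at a3
    linarith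
  have p4 : ∀ g' : G, T k₃ g' (k₂ • ax 0) (k₂ • ax t₂) → ∃ s v, k₂ • ax s = g'.1 (k₃ • ax v) ∧
      l - t₃ / 2 - ζ ≤ s ∧ s ≤ t₂ - (l - t₃ / 2 - ζ) := fun g' hT => by
    obtain ⟨s, hs, v, e⟩ := geo_zero hl ht₂.le hT
    have a1 := p3 g' s v e
    have a2 := p3 (β⁻¹ * g') (s + -t₂) v (by rw [← h₂.inv.ax, e]; simp)
    rw [abs_of_nonneg hs.1] at a1
    rw [abs_of_nonpos (by linarith [hs.2])] at a2
    exact ⟨s, v, e, a1, by linarith⟩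
  have p5 : ∀ g' : G, ¬ T k₃ g' (k₂ • ax 0) (k₂ • ax t₂) := fun g' hT => by
    have a1 := o₃ _ _ g' hT fun g'' hT' => by
      by_contra hg
      obtain ⟨s, v, e, a1, a2⟩ := p4 g' hT
      obtain ⟨s', v', e', a3, a4⟩ := p4 g'' hT'
      have a5 := hS G l hl γ k₃ t₃ ht₃ h₃ g' g'' hg v v'
      rw [← e, ← e', dist_smul, dist_ax] at a5
      rcases le_abs.1 a5 with h | h <;> linarith
    rw [show k₂ • ax t₂ = β.1 (k₂ • ax 0) by rw [h₂.ax, zero_add], i₃, nβ] at a1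
    split_ifs at a1 <;> simp at a1
  have p6 : ∀ s, c₃ (k₂ • ax 0) = c₃ (k₂ • ax s) := fun s => by
    have a1 := Int.floor_le (s / t₂)
    have a2 := Int.lt_floor_add_one (s / t₂)
    rw [le_div_iff₀ ht₂] at a1
    rw [div_lt_iff₀ ht₂] at a2
    generalize ⌊s / t₂⌋ = j at a1 a2
    rw [show s = s - j * t₂ + j * t₂ by ring, ← (h₂.zpow j).ax,
      show β.1 ^ j = (β ^ j : G).1 from rfl, i₃, map_zpow, nβ, one_zpow, toAdd_one, add_zero]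
    refine z₃ _ _ fun g' hT => p5 g' fun h => hT ?_
    obtain ⟨m, hm⟩ := hl.mob g' g'.2
    have hm' : ∀ z, (g'.1)⁻¹ z = m⁻¹ • z := fun z => by
      rw [Equiv.Perm.inv_eq_iff_eq, hm, smul_inv_smul]
    rw [hm', hm', ← S_mul, ← S_mul, S_ax, S_ax] at h ⊢
    exact geo_mono (by linarith) (by linarith) h
  simp only [p0] at p2
  rw [hy, i₃, hx, ← p6 u] at p2
  exact add_left_cancel p2

/-- the frames of the short elements whose class has the annihilator of the class of `γ` -/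
def FamR (r : ℕ) {G : Subgroup (Equiv.Perm ℍ)} (γ : G) (L : ℝ) : Set SL(2, ℝ) :=
  {k | ∃ δ : G, SameR r δ γ ∧ ∃ t, 0 < t ∧ t ≤ L ∧ Tr δ k t}

theorem farR {r : ℕ} [Nontrivial (ZMod r)] {G : Subgroup (Equiv.Perm ℍ)} {l : ℝ} (hl : Fuchs G l)
    (h4 : 20000 ≤ l) {γ : G} {N : G → Prop}
    (hχ : ∀ (δ : G) k t, 0 < t → Tr δ k t → SameR r δ γ →
      N δ ∧ ∃ χ : G →* Multiplicative (ZMod r), (∀ g, χ g = 1 ↔ N g) ∧ ColR χ δ k)
    (hA : ∀ k, ∃ k' ∈ FamR r γ (1071 / 1000 * l), |cf k' k| ≤ 999 / 1000 ∧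
      ∃ s, |s| ≤ 1 ∧ S k' (k • ax s) = 0)
    {a b c : SL(2, ℝ)} (ha : a ∈ FamR r γ (1071 / 1000 * l)) (hb : b ∈ FamR r γ (1071 / 1000 * l))
    (hc : c ∈ FamR r γ (1071 / 1000 * l)) (ab : |cf b a| ≤ 1 - 1 / 10 ^ 14)
    (ac : |cf c a| ≤ 1 - 1 / 10 ^ 14) (bc : |cf c b| ≤ 1 - 1 / 10 ^ 14) : False := by
  have h600 : 600 ≤ l := by linarith
  have X : ∀ a : SL(2, ℝ), ∀ s₀ : ℝ, ∃ χ : G →* Multiplicative (ZMod r), ∃ ε : ZMod r, ε ≠ 0 ∧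
      (∀ g, χ g = 1 ↔ N g) ∧ ∀ b ∈ FamR r γ (1071 / 1000 * l), |cf b a| ≤ 1 - 1 / 10 ^ 14 →
      ∀ s s', a • ax s = b • ax s' → |s - s₀| ≤ 48 → ∀ (g : G) y u,
        a • ax (y + s) = g.1 (b • ax (u + s')) → 4645 / 10000 * l ≤ y → y ≤ 6065 / 10000 * l →
        (χ g).toAdd = ε := by
    intro a s₀
    obtain ⟨k₃, ⟨δ, nδ, t₃, ht₃, b₃, h₃⟩, d1, v, d2, d3⟩ := hA (a * D (s₀ + 15 / 100 * l))
    rw [(coef_D_right _ _ _).2.2] at d1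
    rw [mul_smul, D_ax] at d3
    obtain ⟨d4, d5⟩ := abs_le.1 d2
    obtain ⟨-, χ, x1, x2⟩ := hχ δ k₃ t₃ ht₃ h₃ nδ
    refine ⟨χ, if 0 < Af k₃ a then 1 else -1, by split_ifs <;> simp, x1, ?_⟩
    rintro b ⟨β, nβ, t₂, ht₂, b₂, h₂⟩ ab s s' e hs g y u hy y1 y2
    obtain ⟨d6, d7⟩ := abs_le.1 hs
    have hx : (a * D s) • ax 0 = (b * D s') • ax 0 := by rw [ax_zero, D_I, D_I, e]
    have := geoR hl h600 (g := g) (y := y) (u := u) (ζ := v + (s₀ + 15 / 100 * l) - s) ht₂ b₂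
      (h₂.shift s') ht₃ b₃ h₃ ((x1 β).2 (hχ β b t₂ ht₂ h₂ nβ).1) x2 hx (by rwa [cf_DD])
      (by rwa [(coef_D_right _ _ _).2.2]) (by rwa [mul_smul, D_ax, sub_add_cancel]) (by linarith)
      (by linarith) (by rwa [mul_smul, mul_smul, D_ax, D_ax]) y1 y2
    rw [this, (coef_D_right _ _ _).1]
    simp only [mul_pos_iff_of_pos_right (Real.exp_pos s)]
  have P : ∀ a ∈ FamR r γ (1071 / 1000 * l), ∀ b ∈ FamR r γ (1071 / 1000 * l),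
      |cf b a| ≤ 1 - 1 / 10 ^ 14 → ∃ s s', a • ax s = b • ax s' ∧ ∃ g : G, ∃ y u,
        a • ax (y + s) = g.1 (b • ax (u + s')) ∧ 4645 / 10000 * l ≤ y ∧ y ≤ 6065 / 10000 * l ∧
        4645 / 10000 * l ≤ u ∧ u ≤ 6065 / 10000 * l := by
    rintro a ⟨α, nα, t₁, ht₁, b₁, h₁⟩ b ⟨β, nβ, t₂, ht₂, b₂, h₂⟩ ab
    obtain ⟨s, s', e⟩ := cross_ex (k := a) (k' := b) (by linarith)
    have hx : (a * D s) • ax 0 = (b * D s') • ax 0 := by rw [ax_zero, D_I, D_I, e]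
    have cc : |cf (b * D s') (a * D s)| ≤ 1 - 1 / 10 ^ 14 := by rwa [cf_DD]
    obtain ⟨-, χ, x1, x2⟩ := hχ β _ t₂ ht₂ (h₂.shift s') nβ
    obtain ⟨g, y, u, hy, y1, y2, u1, u2⟩ := geoR_P1 hl h600 ht₁ b₁ (h₁.shift s) ht₂ b₂ (h₂.shift s')
      ((x1 α).2 (hχ α a t₁ ht₁ h₁ nα).1) x2 hx (by linarith)
    rw [mul_smul, mul_smul, D_ax, D_ax] at hy
    exact ⟨s, s', e, g, y, u, hy, y1, y2, u1, u2⟩
  obtain ⟨s₁, s₁', e₁, g₁, y₁, u₁, f₁, p1, p2, p3, p4⟩ := P a ha b hb ab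
  obtain ⟨s₂, s₂', e₂, g₂, y₂, u₂, f₂, q1, q2, -, -⟩ := P b hb c hc bc
  obtain ⟨s₃, s₃', e₃, g₃, y₃, u₃, f₃, r1, r2, -, -⟩ := P a ha c hc ac
  have w0 := far_bd e₁ e₃ ab ac bc
  obtain ⟨w1, w2⟩ := abs_le.1 w0
  obtain ⟨w3, w4⟩ := abs_le.1 (far_bd e₁.symm e₂ (by rwa [cf_comm]) bc ac)
  obtain ⟨χ, ε, -, n1, n2⟩ := X a s₃
  obtain ⟨χ', ε', n3, n4, n5⟩ := X b s₂
  have x₁ := n2 b hb ab s₁ s₁' e₁ w0 g₁ y₁ u₁ f₁ p1 p2
  have x₃ := n2 c hc ac s₃ s₃' e₃ (by simp) g₃ y₃ u₃ f₃ r1 r2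
  have x₂ := n5 c hc bc s₂ s₂' e₂ (by simp) g₂ y₂ u₂ f₂ q1 q2
  obtain ⟨δ, nδ, t₃, ht₃, b₃, h₃⟩ := hc
  have hg : g₃⁻¹ * (g₁ * g₂) ∈ Subgroup.zpowers δ := by
    by_contra hg
    have a1 := sep_row G l hl δ c t₃ ht₃ h₃ _ _ hg (u₃ + s₃') (u₂ + s₂')
    have a2 : (g₁ * g₂ : G).1 (c • ax (u₂ + s₂')) = g₁.1 (b • ax (y₂ + s₂)) := by rw [f₂]; rfl
    rw [a2, ← f₃] at a1
    have a3 := dist_triangle (a • ax (y₃ + s₃)) (a • ax (y₁ + s₁)) (g₁.1 (b • ax (y₂ + s₂)))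
    rw [dist_smul, dist_ax, f₁, hl.dist_eq g₁.2, dist_smul, dist_ax] at a3
    have a4 : |y₃ + s₃ - (y₁ + s₁)| ≤ 142 / 1000 * l + 48 := abs_le.2 ⟨by linarith, by linarith⟩
    have a5 : |u₁ + s₁' - (y₂ + s₂)| ≤ 142 / 1000 * l + 48 := abs_le.2 ⟨by linarith, by linarith⟩
    linarith
  obtain ⟨j, hj⟩ := hg
  have a1 := congrArg (fun g => (χ g).toAdd) (show δ ^ j = g₃⁻¹ * (g₁ * g₂) from hj)
  simp only [map_zpow, (n1 δ).2 (hχ δ c t₃ ht₃ h₃ nδ).1, one_zpow, toAdd_one, map_mul, map_inv,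
    toAdd_mul, toAdd_inv, x₁, x₃] at a1
  have a2 : χ g₂ = 1 := toAdd_eq_zero.1 (by linear_combination -a1)
  rw [(n4 g₂).2 ((n1 g₂).1 a2)] at x₂
  exact n3 x₂.symm

/-- any point is moved to any point by an almost isometry which normalises the group and keeps the
class of `γ` -/
def HomR (r : ℕ) {G : Subgroup (Equiv.Perm ℍ)} (γ : G) (e : ℝ) : Prop :=
  ∀ z w : ℍ, ∃ φ : Equiv.Perm ℍ, QI e φ ∧ φ z = w ∧ ∃ h : ∀ g ∈ G, φ * g * φ⁻¹ ∈ G,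
    SameR r (⟨φ * γ * φ⁻¹, h _ γ.2⟩ : G) γ

theorem coreR_img {r : ℕ} {G : Subgroup (Equiv.Perm ℍ)} {l e : ℝ} (hF : Fuchs G l) (he : 0 ≤ e)
    (he1 : e ≤ (1 / 10 ^ 17) ^ 2 / 120) {φ : Equiv.Perm ℍ} (hq : QI e φ)
    (hφ : ∀ g ∈ G, φ * g * φ⁻¹ ∈ G) {γ₀ γ : G}
    (h₀ : SameR r (⟨φ * γ₀ * φ⁻¹, hφ _ γ₀.2⟩ : G) γ₀)
    {k : SL(2, ℝ)} {t L : ℝ} (ht : 0 < t) (hL : (1 + e) * t ≤ L) (h : Tr γ k t)
    (hn : SameR r γ γ₀) :
    ∃ k' ∈ FamR r γ₀ L, ∀ s, |S k' (φ (k • ax s))| ≤ 1 / 10 ^ 16 := by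
  obtain ⟨k', t', h1, h2⟩ := axis_row G l hF _ (hφ _ γ.2) (fun h1 => core_ne ht h (by
    rw [mul_inv_eq_one] at h1
    exact mul_left_cancel (h1.trans (mul_one φ).symm)))
  have h3 : ∀ z, φ (γ.1 z) = (φ * γ * φ⁻¹) (φ z) := fun z => by simp
  refine ⟨k', ⟨⟨_, hφ _ γ.2⟩, ?_, t', h1,
    (len_row e he φ hq _ _ k t k' t' ht h h2 h3).trans hL, h2⟩, fun s =>
    (morse2 (ν := 1 / 10 ^ 17) (by norm_num) (by norm_num) he he1 hq ht h h2 h3 s).trans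
      (by norm_num)⟩
  obtain ⟨F, hF⟩ := Nm.ex hφ
  have e1 : ∀ g : G, (⟨φ * g * φ⁻¹, hφ _ g.2⟩ : G) = F g := fun g => Subtype.ext (hF g).symm
  rw [e1] at h₀ ⊢
  exact fun χ => (hn (χ.comp F)).trans (h₀ χ)

theorem coreR (hC : CF_s) (hT : TAN_s) (hQ : QUAD_s) :
    ∃ e₀ > 0, ∀ r : ℕ, r ≠ 1 → ∀ (G : Subgroup (Equiv.Perm ℍ)) (l : ℝ), Fuchs G l → 20000 ≤ l →
      ∀ γ : G, γ ≠ 1 → HomR r γ e₀ → ∀ z, dist z (γ.1 z) ≤ 107 / 100 * l → False := by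
  obtain ⟨e₁, he₁, hC⟩ := hC
  obtain ⟨e₂, he₂, hW⟩ := angle_row
  refine ⟨min (min e₁ e₂) ((1 / 10 ^ 17) ^ 2 / 120), by positivity,
    fun r hr G l hl h600 γ hγ hH z hz => ?_⟩
  have : Nontrivial (ZMod r) := ZMod.nontrivial_iff.2 hr
  have p0 : 0 ≤ min (min e₁ e₂) ((1 / 10 ^ 17) ^ 2 / 120) := by positivity
  have p1 : min (min e₁ e₂) ((1 / 10 ^ 17) ^ 2 / 120) ≤ e₁ :=
    (min_le_left _ _).trans (min_le_left _ _)
  have p2 : min (min e₁ e₂) ((1 / 10 ^ 17) ^ 2 / 120) ≤ e₂ :=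
    (min_le_left _ _).trans (min_le_right _ _)
  have p4 : min (min e₁ e₂) ((1 / 10 ^ 17) ^ 2 / 120) ≤ (1 / 10 ^ 17) ^ 2 / 120 := min_le_right _ _
  generalize min (min e₁ e₂) ((1 / 10 ^ 17) ^ 2 / 120) = e at hH p0 p1 p2 p4
  have p3 : e ≤ 1 / 10000 := p4.trans (by norm_num)
  obtain ⟨k₀, t₀, ht₀, h₀⟩ := axis_row G l hl γ γ.2 fun h => hγ (Subtype.ext h)
  have b₀ : t₀ ≤ 107 / 100 * l := ((le_abs_self _).trans (h₀.le_dist z)).trans hz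
  obtain ⟨N, hχ⟩ := parR r hl ht₀ h₀ (by linarith)
  have hJ : ∀ L, ∀ k ∈ FamR r γ L, k * J ∈ FamR r γ L := by
    rintro L k ⟨δ, n, t, ht, b, h⟩
    exact ⟨δ⁻¹, fun χ => by rw [map_inv, inv_eq_one, n χ], t, ht, b, h.rev⟩
  obtain ⟨k₁, m₁, k₂, m₂, hc⟩ := nofol_row (FamR r γ (10702 / 10000 * l)) (hJ _)
    (by
      rintro k ⟨δ, -, t, ht, -, h⟩
      refine ⟨t, ht, ?_⟩
      rintro k' ⟨δ', n', t', ht', b', h'⟩
      obtain ⟨m, hm⟩ := hl.mob δ δ.2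
      have hm' : ∀ z, (δ.1)⁻¹ z = m⁻¹ • z := fun z => by
        rw [Equiv.Perm.inv_eq_iff_eq, hm, smul_inv_smul]
      refine ⟨m⁻¹ * k', ⟨δ⁻¹ * δ' * δ⁻¹⁻¹, 
        fun χ => by simp [n' χ], t', ht', b', h'.conj hm'⟩, ?_⟩
      exact coef_ext fun z => by
        rw [← S_smul, S_mul, inv_inv, ← hm, h, S_smul, xa_D, xb_D, xc_D]; ring)
    (by
      intro w
      obtain ⟨φ, q, e1, hφ, sφ⟩ := hH (k₀ • ax 0) w
      obtain ⟨k', a1, a2⟩ := coreR_img hl p0 p4 q hφ sφ ht₀ (L := 10702 / 10000 * l)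
        (by nlinarith) h₀ fun _ => Iff.rfl
      exact ⟨k', a1, e1 ▸ (a2 0).trans (by norm_num)⟩)
    (by
      rintro k ⟨δ, -, t, ht, -, h⟩ k' ⟨δ', -, t', ht', -, h'⟩
      exact noasym_row fin_row G l hl δ δ' k t k' t' ht h ht' h')
  obtain ⟨k₂, m₂, c0, c1⟩ : ∃ k₂ ∈ FamR r γ (10702 / 10000 * l), 0 ≤ cf k₂ k₁ ∧ cf k₂ k₁ ≤ 99 / 100 := by
    obtain ⟨a1, a2⟩ := abs_le.1 hc
    rcases le_total 0 (cf k₂ k₁) with h | h
    · exact ⟨k₂, m₂, h, a2⟩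
    · exact ⟨k₂ * J, hJ _ _ m₂, by rw [(coef_J_left _ _).2.2]; linarith,
        by rw [(coef_J_left _ _).2.2]; linarith⟩
  obtain ⟨s₁, s₂, hs⟩ := cross_ex (k := k₁) (k' := k₂) (by rw [abs_of_nonneg c0]; linarith)
  have hx : (k₁ * D s₁) • I = (k₂ * D s₂) • I := by rw [D_I, D_I, hs]
  rw [← cf_DD _ _ s₂ s₁] at c0 c1
  obtain ⟨α, nα, t₁, ht₁, b₁, h₁⟩ := m₁
  obtain ⟨β, nβ, t₂, ht₂, b₂, h₂⟩ := m₂
  have h₁' := h₁.shift s₁
  have h₂' := h₂.shift s₂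
  generalize k₁ * D s₁ = k₁ at hx c0 c1 h₁'
  generalize k₂ * D s₂ = k₂ at hx c0 c1 h₂'
  have R : ∀ p, ∃ φ : ℍ → ℍ, QI e φ ∧ φ (k₁ • I) = p ∧ ∃ j₁ ∈ FamR r γ (1071 / 1000 * l),
      ∃ j₂ ∈ FamR r γ (1071 / 1000 * l), (∀ s, |S j₁ (φ (k₁ • ax s))| ≤ 1 / 10 ^ 16) ∧
        ∀ s, |S j₂ (φ (k₂ • ax s))| ≤ 1 / 10 ^ 16 := fun p => by
    obtain ⟨φ, q, e1, hφ, sφ⟩ := hH (k₁ • I) p
    obtain ⟨j₁, a1, a2⟩ := coreR_img hl p0 p4 q hφ sφ ht₁ (L := 1071 / 1000 * l)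
      (by nlinarith) h₁' nα
    obtain ⟨j₂, a3, a4⟩ := coreR_img hl p0 p4 q hφ sφ ht₂ (L := 1071 / 1000 * l)
      (by nlinarith) h₂' nβ
    exact ⟨φ, q, e1, j₁, a1, j₂, a3, a2, a4⟩
  obtain ⟨a, ha, b, hb, c, hc, ab, ac, bc⟩ := triple_pos hT hQ (F := FamR r γ (1071 / 1000 * l))
    ⟨α, nα, t₁, ht₁, by linarith, h₁'⟩ ⟨β, nβ, t₂, ht₂, by linarith, h₂'⟩ hx c0 c1 fun p => by
      obtain ⟨φ, q, e1, j₁, a1, j₂, a2, a3, a4⟩ := R p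
      have a5 := hC e p0 p1 φ q k₁ k₂ j₁ j₂ hx a3 a4
      rw [abs_of_nonneg c0] at a5
      have a6 := a3 0
      have a7 := a4 0
      rw [ax_zero, e1] at a6
      rw [ax_zero, ← hx, e1] at a7
      exact ⟨j₁, a1, j₂, a2, a6, a7, a5⟩
  refine farR hl h600 hχ (fun k => ?_) ha hb hc ab ac bc
  obtain ⟨φ, q, e1, j₁, a1, j₂, a2, a3, a4⟩ := R (k • I)
  obtain ⟨k', hk, d⟩ := hW e p0 p2 φ q k₁ k₂ j₁ j₂ k hx (by rwa [abs_of_nonneg c0])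
    (fun s => (a3 s).trans (by norm_num)) (fun s => (a4 s).trans (by norm_num)) e1.symm
  exact ⟨k', by rcases hk with rfl | rfl <;> assumption, d⟩

/-- every point is moved to `o` by an almost isometry which normalises the group and sends `γ` into
one of the classes `r c` -/
def HomC (n₀ : ℕ) {G : Subgroup (Equiv.Perm ℍ)} {ι : Type} (γ : G) (C : Finset ι) (r : ι → G) (o : ℍ)
    (e : ℝ) : Prop :=
  ∀ z : ℍ, ∃ φ : Equiv.Perm ℍ, ∃ F F' : G →* G, QI e φ ∧ φ z = o ∧ Nm φ F ∧ Nm φ⁻¹ F' ∧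
    ∃ c ∈ C, SameR n₀ (F γ) (r c)

theorem homC {n₀ : ℕ} {G : Subgroup (Equiv.Perm ℍ)} {l e e₀ : ℝ} (hl : Fuchs G l) (h1 : 1 ≤ l) {ι : Type}
    {γ : G} {C : Finset ι} {r : ι → G} {o : ℍ} (he : 0 < e) (he1 : e ≤ 1 / 2)
    (h0 : C.card * (16 * e) ≤ e₀) (h2 : e₀ ≤ 1) (H : HomC n₀ γ C r o e) :
    HomR n₀ γ e₀ := by
  choose φ F F' q m n n' V hV hS using H
  intro z w
  obtain ⟨j, hj, ψ, E, a1, a2, a3, a4⟩ := chain hV (δ := e / 2) (by positivity) (z := z)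
    (R := fun j w => ∃ ψ : Equiv.Perm ℍ, ∃ E : G →* G, QI (j * (16 * e)) ψ ∧ ψ z = w ∧ Nm ψ E ∧
      SameR n₀ (E γ) γ)
    ⟨1, MonoidHom.id G, fun a b => by simp, rfl, fun g => by simp, fun _ => Iff.rfl⟩
    (by
      rintro j hj u v w ⟨ψ, E, a1, a2, a3, a4⟩ d c
      obtain ⟨σ, b1, b2, b3⟩ := swap_ex hl (u := u) (v := v) (by linarith)
      have b4 : QI e σ := fun x y => by
        have c1 := dist_dist_dist_le (σ x) (σ y) x y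
        have c2 := mul_nonneg he.le (dist_nonneg (x := x) (y := y))
        rw [Real.dist_eq] at c1
        linarith [b2 x, b2 y]
      have b5 : Nm σ (MonoidHom.id G) := fun g => (b3 g g.2).symm
      have b6 : QI (8 * e) _ := (qi_comp (by positivity) (qi_inv he.le he1 (q w))
        (qi_comp he.le (q v) b4)).mono (by nlinarith [mul_nonneg he.le he.le])
      have b7 : (j : ℝ) * (16 * e) ≤ 1 :=
        (mul_le_mul_of_nonneg_right (Nat.cast_le.2 hj.le) (by positivity)).trans (h0.trans h2)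
      refine ⟨(φ w)⁻¹ * (φ v * (σ * ψ)), _, (qi_comp (by positivity) b6 a1).mono ?_, ?_,
        (n' w).mul ((n v).mul (b5.mul a3)), fun χ => ?_⟩
      · push_cast
        nlinarith
      · simp only [Equiv.Perm.mul_apply, a2, b1, m v]
        rw [Equiv.Perm.inv_eq_iff_eq, m w]
      · have c1 := a4 ((χ.comp (F' w)).comp (F v))
        have c2 := hS v (χ.comp (F' w))
        have c3 := hS w (χ.comp (F' w))
        have c4 : F' w (F w γ) = γ := Subtype.ext (by rw [n' w, n w]; group)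
        simp only [MonoidHom.comp_apply, MonoidHom.id_apply] at c1 c2 c3 ⊢
        rw [c1, c2, c, ← c3, c4]) w
  refine ⟨ψ, a1.mono ((mul_le_mul_of_nonneg_right (Nat.cast_le.2 hj) (by positivity)).trans h0), a2,
    fun g hg => a3 ⟨g, hg⟩ ▸ (E ⟨g, hg⟩).2, fun χ => ?_⟩
  rw [← a4 χ, show E γ = ⟨_, _⟩ from Subtype.ext (a3 γ)]

theorem topR : ∃ c : ℝ, 0 < c ∧ ∀ r : ℕ, r ≠ 1 →
    ∀ Γ : Subgroup SL(2, ℝ), IsClosedSurface Γ → ∀ (K : ℝ) (γ : Γ) (z : ℍ), γ.1 • z ≠ z →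
      (∀ δ ∈ Γ, ∀ w : ℍ, δ • w ≠ w → dist z (γ.1 • z) ≤ 107 / 100 * dist w (δ • w)) →
      ∀ C : Finset Γ, (∀ x y : Surface Γ, ∃ (f : Surface Γ ≃ₜ Surface Γ) (φ : ℍ ≃ₜ ℍ),
        IsQC K φ ∧ (∀ w, f (proj Γ w) = proj Γ (φ w)) ∧ f x = y ∧
        ∃ β ∈ C, ∀ δ : Γ, (∀ w : ℍ, φ (γ.1 • w) = δ.1 • φ w) →
          ∀ χ : Γ →* Multiplicative (ZMod r), (∀ g : Γ, (∀ w : ℍ, g.1 • w = w) → χ g = 1) →
            (χ δ = 1 ↔ χ β = 1)) → 1 + c / C.card ≤ K := by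
  obtain ⟨e₀, he, H⟩ := coreR cf_row tan_row quad_row
  obtain ⟨c, hc, hs⟩ := sqrt_bound
  obtain ⟨Q, hQ, hq⟩ := qi_of_qc
  have H' : ∀ r : ℕ, r ≠ 1 → ∀ (G : Subgroup (Equiv.Perm ℍ)) (l : ℝ), Fuchs G l → 20000 ≤ l →
      ∀ γ : G, γ ≠ 1 → HomR r γ (min e₀ 1) → ∀ z, dist z (γ.1 z) ≤ 107 / 100 * l → False :=
    fun r hr G l a b γ d h => H r hr G l a b γ d fun z w => by
      obtain ⟨φ, q, x⟩ := h z w
      exact ⟨φ, q.mono (min_le_left _ _), x⟩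
  have p0 : 0 < min e₀ 1 := by positivity
  have p1 : min e₀ 1 ≤ 1 := min_le_right _ _
  generalize min e₀ 1 = e₁ at H' p0 p1
  have hp : 0 < c * Real.exp (-(39 * Real.sqrt 21400)) := by positivity
  refine ⟨min (e₁ / (16 * Q)) (c * Real.exp (-(39 * Real.sqrt 21400))), by positivity,
    fun r hr Γ hΓ K γ z hz hl C hK => ?_⟩
  have m1 : (1 : ℝ) ≤ C.card := by
    obtain ⟨-, -, -, -, -, β, hβ, -⟩ := hK (proj Γ z) (proj Γ z)
    exact_mod_cast Finset.card_pos.2 ⟨β, hβ⟩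
  rcases le_or_gt (dist z (γ.1 • z)) 21400 with h | h
  · refine le_trans ?_ (hs Γ hΓ K (fun x y => ?_) γ γ.2 z hz)
    · have a1 := Real.sqrt_le_sqrt h
      have a2 : c * Real.exp (-(39 * Real.sqrt 21400)) ≤
          c * Real.exp (-(39 * Real.sqrt (dist z (γ.1 • z)))) := by gcongr
      have a3 := div_le_self (le_min (by positivity : 0 ≤ e₁ / (16 * Q)) hp.le) m1
      linarith [min_le_right (e₁ / (16 * Q)) (c * Real.exp (-(39 * Real.sqrt 21400)))]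
    · obtain ⟨f, φ, h1, h2, h3, -⟩ := hK x y
      exact ⟨f, φ, h1, h2, h3⟩
  refine not_lt.1 fun hK0 => ?_
  have hε : 0 < e₁ / (16 * Q) / C.card := by positivity
  have hK1 : K ≤ 1 + e₁ / (16 * Q) / C.card := by
    have := div_le_div_of_nonneg_right
      (min_le_left (e₁ / (16 * Q)) (c * Real.exp (-(39 * Real.sqrt 21400)))) (zero_le_one.trans m1)
    linarith
  have q1 : C.card * (16 * (Q * (e₁ / (16 * Q) / C.card))) = e₁ := by field_simp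
  have q0 : 0 < Q * (e₁ / (16 * Q) / C.card) := by positivity
  have q2 : Q * (e₁ / (16 * Q) / C.card) ≤ 1 / 2 := by nlinarith
  generalize e₁ / (16 * Q) / C.card = ε at hε hK1 q0 q1 q2
  obtain ⟨R, hR, -⟩ := hΓ.exists_sys
  let π := MulAction.toPermHom SL(2, ℝ) ℍ
  have hπ : ∀ (m : SL(2, ℝ)) (w : ℍ), π m w = m • w := fun _ _ => rfl
  have hF : Fuchs (Γ.map π) (dist z (γ.1 • z) / (107 / 100)) := by
    refine ⟨by positivity, ?_, ?_⟩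
    · rintro _ ⟨m, -, rfl⟩
      exact ⟨m, fun _ => rfl⟩
    · rintro _ ⟨m, hm, rfl⟩ h1 w
      have h2 : m • w ≠ w := fun h2 => h1 (Equiv.ext fun v => hΓ.triv hm h2 v)
      rw [div_le_iff₀ (by norm_num), hπ]
      linarith [hl m hm w h2]
  have hN : ∀ (f : Surface Γ ≃ₜ Surface Γ) (φ : ℍ ≃ₜ ℍ), (∀ w, f (proj Γ w) = proj Γ (φ w)) →
      ∀ m ∈ Γ, ∃ β ∈ Γ, (∀ w, β • φ w = φ (m • w)) ∧ φ.toEquiv * π m * φ.toEquiv⁻¹ = π β := by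
    intro f φ h2 m hm
    obtain ⟨β, hβ, h6⟩ := top_lift hR h2 hm
    refine ⟨β, hβ, h6, ?_⟩
    rw [mul_inv_eq_iff_eq_mul]
    exact Equiv.ext fun w => (h6 w).symm
  have hH : HomC r (π.subgroupMap Γ γ) C (π.subgroupMap Γ) z (Q * ε) := by
    intro a
    obtain ⟨f, φ, h1, h2, h3, β₀, hβ₀, h7⟩ := hK (proj Γ a) (proj Γ z)
    obtain ⟨δ, hδ, h4⟩ := proj_eq.1 (h3.symm.trans (h2 a))
    have h5 : QI (Q * ε) φ := hq _ hε (by linarith) φ (h1.mono hK1)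
    have h2' : ∀ w, f.symm (proj Γ w) = proj Γ (φ.symm w) := fun w => by
      rw [Homeomorph.symm_apply_eq, h2, Homeomorph.apply_symm_apply]
    obtain ⟨F, hF1⟩ := Nm.ex (G := Γ.map π) (φ := π δ * φ.toEquiv) (by
      rintro _ ⟨m, hm, rfl⟩
      obtain ⟨β, hβ, -, h6⟩ := hN f φ h2 m hm
      refine ⟨δ * β * δ⁻¹, Γ.mul_mem (Γ.mul_mem hδ hβ) (Γ.inv_mem hδ), ?_⟩
      rw [map_mul, map_mul, map_inv, ← h6]
      group)
    obtain ⟨F', hF2⟩ := Nm.ex (G := Γ.map π) (φ := (π δ * φ.toEquiv)⁻¹) (by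
      rintro _ ⟨m, hm, rfl⟩
      obtain ⟨β, hβ, -, h6⟩ := hN f.symm φ.symm h2' (δ⁻¹ * m * δ)
        (Γ.mul_mem (Γ.mul_mem (Γ.inv_mem hδ) hm) hδ)
      refine ⟨β, hβ, ?_⟩
      rw [← h6, map_mul, map_mul, map_inv, show φ.symm.toEquiv = φ.toEquiv⁻¹ from rfl]
      group)
    refine ⟨π δ * φ.toEquiv, F, F', fun u v => ?_, h4, hF1, hF2, β₀, hβ₀, fun χ => ?_⟩
    · simp only [Equiv.Perm.mul_apply, hπ, dist_smul]
      exact h5 u v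
    · obtain ⟨β, hβ, h6, h8⟩ := hN f φ h2 γ γ.2
      have h9 := h7 ⟨β, hβ⟩ (fun w => (h6 w).symm) (χ.comp (π.subgroupMap Γ)) fun g hg => by
        rw [MonoidHom.comp_apply, show π.subgroupMap Γ g = 1 from Subtype.ext (Equiv.ext hg),
          map_one]
      have h10 : (F (π.subgroupMap Γ γ)).1 = π (δ * β * δ⁻¹) := by
        rw [hF1, map_mul, map_mul, map_inv, ← h8, show (π.subgroupMap Γ γ).1 = π γ from rfl]
        group
      have h11 : F (π.subgroupMap Γ γ) = π.subgroupMap Γ (⟨δ, hδ⟩ * ⟨β, hβ⟩ * ⟨δ, hδ⟩⁻¹) :=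
        Subtype.ext h10
      rw [h11, map_mul, map_mul, map_inv, map_mul, map_mul, map_inv, mul_inv_cancel_comm]
      exact h9
  have h600 : 20000 ≤ dist z (γ.1 • z) / (107 / 100) := by
    rw [le_div_iff₀ (by norm_num)]
    linarith
  refine H' r hr _ _ hF h600 (π.subgroupMap Γ γ) (fun h1 => hz (congrArg (fun g : Γ.map π => g.1 z) h1))
    (homC hF (by linarith) q0 q2 q1.le p1 hH) z ?_
  exact le_of_eq (by rw [mul_div_cancel₀ _ (by norm_num)]; rfl)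

end Pool.Agent.MP_7dc785_an.Sep
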