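import Pool.Agent.MP_7dc785_an.Sep.Base2

/-!
Maps which preserve the homology class modulo two of a short curve: three estimates on angles.
-/

namespace Pool.Agent.MP_7dc785_an.Sep

open Set Metric UpperHalfPlane
open scoped MatrixGroups

-- BEGIN CF
theorem cf_prod {x y x₀ y₀ s t : ℝ} (hx : |x - x₀| ≤ s) (hy : |y - y₀| ≤ t) (h₀ : |x₀| ≤ 2)
    (h : |y| ≤ 2) : |x * y - x₀ * y₀| ≤ 2 * s + 2 * t := by
  rw [show x * y - x₀ * y₀ = (x - x₀) * y + x₀ * (y - y₀) by ring]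
  refine (abs_add_le _ _).trans ?_
  rw [abs_mul, abs_mul]
  linarith only [mul_le_mul hx h (abs_nonneg _) ((abs_nonneg _).trans hx),
    mul_le_mul h₀ hy (abs_nonneg _) two_pos.le]

theorem cf_small {d y z t : ℝ} (hd : |d| ≤ t) (hy : |y| ≤ 2) (hz : |z| ≤ 2) :
    |d * (y * z)| ≤ 4 * t := by
  rw [abs_mul, abs_mul]
  linarith only [mul_le_mul hd (mul_le_mul hy hz (abs_nonneg _) two_pos.le) (by positivity)
    ((abs_nonneg _).trans hd)]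

theorem cf_two {y y₀ t : ℝ} (h : |y - y₀| ≤ t) (h₀ : t + |y₀| ≤ 2) : |y| ≤ 2 := by
  linarith only [h, h₀, abs_sub_abs_le_abs_sub y y₀]

theorem cf_one {a b c H U V : ℝ} (r : b ^ 2 + c ^ 2 = 1 + a ^ 2) (s : H ^ 2 = 1 + U ^ 2 + V ^ 2)
    (ha : |a| ≤ 1 / 10 ^ 16) (hH : |H - 5 / 4| ≤ 1 / 10 ^ 12)
    (h : |a * H + (b * U + c * V)| ≤ 1 / 10 ^ 16) :
    |U ^ 2 + V ^ 2 - 9 / 16| ≤ 4 / 10 ^ 12 ∧ |b * U + c * V| ≤ 1 / 10 ^ 12 ∧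
      |(|c * U - b * V| - 3 / 4)| ≤ 1 / 10 ^ 11 := by
  have H2 : |H| ≤ 2 := cf_two hH (by norm_num [abs_of_pos])
  obtain ⟨n1, n2⟩ := abs_le.1 (cf_prod hH hH (by norm_num [abs_of_pos]) H2)
  have d1 : |a * H| ≤ 1 / 10 ^ 16 * 2 := by
    rw [abs_mul]
    exact mul_le_mul ha H2 (abs_nonneg _) (by norm_num)
  have d2 : |b * U + c * V| ≤ 1 / 10 ^ 12 :=
    abs_le.2 ⟨by linarith only [abs_le.1 h, abs_le.1 d1], by linarith only [abs_le.1 h, abs_le.1 d1]⟩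
  have e : |c * U - b * V| ^ 2 = (U ^ 2 + V ^ 2) + a ^ 2 * (U ^ 2 + V ^ 2) - |b * U + c * V| ^ 2 := by
    rw [sq_abs, sq_abs]
    linear_combination (U ^ 2 + V ^ 2) * r
  have a1 : a ^ 2 * (U ^ 2 + V ^ 2) ≤ (1 / 10 ^ 16) ^ 2 * 1 :=
    mul_le_mul (sq_abs a ▸ pow_le_pow_left₀ (abs_nonneg _) ha 2) (by linarith only [n2, s])
      (by positivity) (by positivity)
  have a2 : 0 ≤ a ^ 2 * (U ^ 2 + V ^ 2) := by positivity
  have a3 := pow_le_pow_left₀ (abs_nonneg _) d2 2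
  have b1 : 3 / 4 - 1 / 10 ^ 11 ≤ |c * U - b * V| :=
    le_of_sq_le_sq (by linarith only [e, a2, a3, n1, s]) (abs_nonneg _)
  have b2 : |c * U - b * V| ≤ 3 / 4 + 1 / 10 ^ 11 :=
    le_of_sq_le_sq (by linarith only [e, a1, sq_nonneg |b * U + c * V|, n2, s]) (by norm_num)
  exact ⟨abs_le.2 ⟨by linarith only [n1, s], by linarith only [n2, s]⟩, d2,
    abs_le.2 ⟨by linarith only [b1], by linarith only [b2]⟩⟩

theorem cf_alg {a b c H U V a' b' c' H' U' V' γ : ℝ} (r : b ^ 2 + c ^ 2 = 1 + a ^ 2)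
    (s : H ^ 2 = 1 + U ^ 2 + V ^ 2) (ha : |a| ≤ 1 / 10 ^ 16) (hH : |H - 5 / 4| ≤ 1 / 10 ^ 12)
    (h : |a * H + (b * U + c * V)| ≤ 1 / 10 ^ 16) (r' : b' ^ 2 + c' ^ 2 = 1 + a' ^ 2)
    (s' : H' ^ 2 = 1 + U' ^ 2 + V' ^ 2) (ha' : |a'| ≤ 1 / 10 ^ 16) (hH' : |H' - 5 / 4| ≤ 1 / 10 ^ 12)
    (h' : |a' * H' + (b' * U' + c' * V')| ≤ 1 / 10 ^ 16) (g : |γ| ≤ 1)
    (hd : |H * H' - (U * U' + V * V') - (25 / 16 - γ * (9 / 16))| ≤ 1 / 10 ^ 12) :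
    |(|b * b' + c * c' - a * a'| - |γ|)| ≤ 1 / 10 ^ 7 := by
  obtain ⟨n1, d1, s1⟩ := cf_one r s ha hH h
  obtain ⟨n2, d2, s2⟩ := cf_one r' s' ha' hH' h'
  have e1 := abs_le.1 (cf_prod hH hH' (by norm_num [abs_of_pos]) (cf_two hH' (by norm_num [abs_of_pos])))
  have D1 : |U * U' + V * V' - γ * (9 / 16)| ≤ 5 / 10 ^ 12 :=
    abs_le.2 ⟨by linarith only [e1, abs_le.1 hd], by linarith only [e1, abs_le.1 hd]⟩
  have D2 := (abs_abs_sub_abs_le_abs_sub _ _).trans D1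
  rw [abs_mul, abs_of_pos (show (0 : ℝ) < 9 / 16 by norm_num)] at D2
  have D3 : |U * U' + V * V'| ≤ 2 := by linarith only [abs_le.1 D2, g]
  have t1 : |c * U - b * V| ≤ 2 := by linarith only [abs_le.1 s1]
  have t2 : |c' * U' - b' * V'| ≤ 2 := by linarith only [abs_le.1 s2]
  have e2 := cf_prod s1 s2 (by norm_num [abs_of_pos]) (by rwa [abs_abs])
  have e3 := cf_prod e2 D2 (by norm_num [abs_of_pos]) (by rwa [abs_abs])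
  have e4 := cf_prod n1 n2 (by norm_num [abs_of_pos]) (cf_two n2 (by norm_num [abs_of_pos]))
  have N2 := cf_two e4 (by norm_num [abs_of_pos])
  have X2 : |U * V' - V * U'| ≤ 2 := abs_le.2 (abs_le_of_sq_le_sq'
    (by linarith only [(abs_le.1 N2).2, sq_nonneg (U * U' + V * V')]) two_pos.le)
  have q1 : a ^ 2 ≤ 1 := (sq_abs a ▸ pow_le_pow_left₀ (abs_nonneg _) ha 2).trans (by norm_num)
  have q2 : a' ^ 2 ≤ 1 := (sq_abs a' ▸ pow_le_pow_left₀ (abs_nonneg _) ha' 2).trans (by norm_num)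
  have P2 : |b * b' + c * c'| ≤ 2 :=
    abs_le.2 ⟨by linarith only [r, r', q1, q2, sq_nonneg (b + b'), sq_nonneg (c + c')],
      by linarith only [r, r', q1, q2, sq_nonneg (b - b'), sq_nonneg (c - c')]⟩
  have e5 := cf_prod (x := |b * b' + c * c'|) (x₀ := |b * b' + c * c'|) (s := 0)
    (by rw [sub_self, abs_zero]) e4 (by rwa [abs_abs]) N2
  have f1 := abs_le.1 (cf_small d1 (d2.trans (by norm_num)) D3)
  have f2 := abs_le.1 (cf_small d2 t1 X2)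
  have f3 := abs_le.1 (cf_small d1 t2 X2)
  have e6 : |(b * b' + c * c') * ((U ^ 2 + V ^ 2) * (U' ^ 2 + V' ^ 2)) -
      (c * U - b * V) * (c' * U' - b' * V') * (U * U' + V * V')| ≤ 12 / 10 ^ 12 :=
    abs_le.2 ⟨by linarith only [f1, f2, f3], by linarith only [f1, f2, f3]⟩
  have e7 := (abs_abs_sub_abs_le_abs_sub _ _).trans e6
  rw [abs_mul, abs_mul _ (U * U' + V * V'), abs_mul (c * U - b * V),
    abs_of_nonneg (show 0 ≤ (U ^ 2 + V ^ 2) * (U' ^ 2 + V' ^ 2) by positivity)] at e7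
  have e8 := abs_abs_sub_abs_le_abs_sub (b * b' + c * c' - a * a') (b * b' + c * c')
  rw [sub_sub_cancel_left, abs_neg, abs_mul] at e8
  have e9 := mul_le_mul ha ha' (abs_nonneg _) (by norm_num)
  generalize (U ^ 2 + V ^ 2) * (U' ^ 2 + V' ^ 2) = N at e5 e7
  generalize |c * U - b * V| * |c' * U' - b' * V'| * |U * U' + V * V'| = W at e3 e7
  generalize |b * b' + c * c'| * N = Q at e5 e7
  exact abs_le.2 ⟨by linarith only [abs_le.1 e3, abs_le.1 e5, abs_le.1 e7, abs_le.1 e8, e9],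
    by linarith only [abs_le.1 e3, abs_le.1 e5, abs_le.1 e7, abs_le.1 e8, e9]⟩

theorem cf_cosh {k₁ k₂ : SL(2, ℝ)} (h : k₁ • I = k₂ • I) (a b : ℝ) :
    Real.cosh (dist (k₁ • ax a) (k₂ • ax b)) =
      Real.cosh a * Real.cosh b - cf k₂ k₁ * (Real.sinh a * Real.sinh b) := by
  have e : (k₂⁻¹ * k₁) • ax 0 = ax 0 := by rw [ax_zero, mul_smul, h, inv_smul_smul]
  have h1 := congrArg xa e
  have h2 := congrArg xc e
  have h3 := det_eq (k₂⁻¹ * k₁)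
  rw [← dist_smul k₂⁻¹, inv_smul_smul, ← mul_smul, cosh_X, xa_smul, xc_smul, cf]
  rw [xa_smul] at h1
  rw [xc_smul] at h2
  simp only [xa_ax, xb_ax, xc_ax, neg_zero, Real.exp_zero, Real.cosh_eq, Real.sinh_eq] at h1 h2 ⊢
  generalize (k₂⁻¹ * k₁) 0 0 = p at *
  generalize (k₂⁻¹ * k₁) 0 1 = q at *
  generalize (k₂⁻¹ * k₁) 1 0 = r at *
  generalize (k₂⁻¹ * k₁) 1 1 = s at *
  have h4 : p = s := sub_eq_zero.1 (pow_eq_zero_iff two_ne_zero |>.1 (le_antisymm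
    (by linarith only [h1, h2, h3, sq_nonneg (q + r)]) (sq_nonneg (p - s))))
  have h5 : q = -r := eq_neg_of_add_eq_zero_left (pow_eq_zero_iff two_ne_zero |>.1 (le_antisymm
    (by linarith only [h1, h2, h3, sq_nonneg (p - s)]) (sq_nonneg (q + r))))
  rw [h4, h5]
  linear_combination ((Real.exp a + Real.exp (-a)) / 2 * ((Real.exp b + Real.exp (-b)) / 2)) * h1

theorem cf_row : CF_s := by
  refine ⟨1 / 10 ^ 14, by norm_num, fun e e0 e1 φ hφ k₁ k₂ j₁ j₂ hx h₁ h₂ => ?_⟩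
  obtain ⟨k, hk⟩ := MulAction.exists_smul_eq SL(2, ℝ) I (φ (k₁ • I))
  have z₁ : |S j₁ (k • ax 0)| ≤ 1 / 10 ^ 16 := by
    have := h₁ 0
    rwa [ax_zero, ← hk, ← ax_zero] at this
  have z₂ : |S j₂ (k • ax 0)| ≤ 1 / 10 ^ 16 := by
    have := h₂ 0
    rwa [ax_zero, ← hx, ← hk, ← ax_zero] at this
  have l0 : 0 < Real.log 2 := Real.log_pos one_lt_two
  have l1 : Real.log 2 ≤ 1 := by linarith only [Real.log_two_lt_d9]
  have c2 : Real.cosh (Real.log 2) = 5 / 4 := by rw [Real.cosh_log two_pos]; norm_num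
  have s2 : Real.sinh (Real.log 2) = 3 / 4 := by rw [Real.sinh_log two_pos]; norm_num
  simp only [S_ax, neg_zero, Real.exp_zero, mul_one] at z₁ z₂
  have hH : ∀ p : ℍ, dist p (k₁ • I) = Real.log 2 →
      |(xa (k⁻¹ • φ p) + xc (k⁻¹ • φ p)) / 2 - 5 / 4| ≤ 1 / 10 ^ 12 := fun p hp => by
    have g := cosh_close (hφ.le e0 (hp.trans_le l1)) (by linarith only [e1])
    rw [hp, c2, ← hk, ← dist_smul k⁻¹, inv_smul_smul, c_a] at g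
    linarith only [g, e1]
  have hr : ∀ j : SL(2, ℝ), (Af j k - Bf j k) ^ 2 + cf j k ^ 2 = 1 + (Af j k + Bf j k) ^ 2 :=
    fun j => by linear_combination cf_sq j k
  have hs : ∀ z : ℍ, ((xa z + xc z) / 2) ^ 2 = 1 + ((xc z - xa z) / 2) ^ 2 + xb z ^ 2 :=
    fun z => by linear_combination x_rel z
  have hS : ∀ (j : SL(2, ℝ)) (p : ℍ), (Af j k + Bf j k) * ((xa (k⁻¹ • p) + xc (k⁻¹ • p)) / 2) +
      ((Af j k - Bf j k) * ((xc (k⁻¹ • p) - xa (k⁻¹ • p)) / 2) + cf j k * xb (k⁻¹ • p)) = S j p :=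
    fun j p => by
      have := S_smul j k (k⁻¹ • p)
      rw [smul_inv_smul] at this
      linear_combination (-1 : ℝ) * this
  have d₁ : dist (k₁ • ax (Real.log 2)) (k₁ • I) = Real.log 2 := by
    rw [← ax_zero, dist_smul, dist_ax, sub_zero, abs_of_pos l0]
  have d₂ : dist (k₂ • ax (Real.log 2)) (k₁ • I) = Real.log 2 := by
    rw [hx, ← ax_zero, dist_smul, dist_ax, sub_zero, abs_of_pos l0]
  have u₁ := cf_cosh hx (Real.log 2) (Real.log 2)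
  have u₂ := cf_cosh hx (-Real.log 2) (Real.log 2)
  rw [Real.cosh_neg, Real.sinh_neg] at u₂
  rw [c2, s2] at u₁ u₂
  have g : |cf k₂ k₁| ≤ 1 := abs_le.2 ⟨by linarith only [u₂.symm ▸ Real.one_le_cosh _],
    by linarith only [u₁.symm ▸ Real.one_le_cosh _]⟩
  have d₃ : dist (k₁ • ax (Real.log 2)) (k₂ • ax (Real.log 2)) ≤ 2 := by
    linarith only [dist_triangle_right (k₁ • ax (Real.log 2)) (k₂ • ax (Real.log 2)) (k₁ • I),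
      d₁, d₂, l1]
  have v := cosh_close (hφ.le e0 d₃) (by linarith only [e1])
  rw [u₁, ← dist_smul k⁻¹, cosh_X] at v
  have v2 : 2 * (e * (1 + 2)) * (5 / 4 * (5 / 4) - cf k₂ k₁ * (3 / 4 * (3 / 4))) ≤
      2 * (e * (1 + 2)) * 3 :=
    mul_le_mul_of_nonneg_left (by linarith only [abs_le.1 g]) (by positivity)
  have key := cf_alg (hr j₁) (hs _) z₁ (hH _ d₁) (by rw [hS]; exact h₁ _) (hr j₂) (hs _) z₂
    (hH _ d₂) (by rw [hS]; exact h₂ _) g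
    (abs_le.2 ⟨by linarith only [abs_le.1 v, v2, e1], by linarith only [abs_le.1 v, v2, e1]⟩)
  rw [cf_three k j₂ j₁]
  refine le_trans (le_of_eq ?_) key
  congr 3
  ring
-- END CF

theorem tan_real {a₀ a₁ a₂ b₀ b₁ b₂ c₀ c₁ c₂ : ℝ} (ha : a₁ ^ 2 + a₂ ^ 2 = 1 + a₀ ^ 2)
    (hb : b₁ ^ 2 + b₂ ^ 2 = 1 + b₀ ^ 2) (hc : c₁ ^ 2 + c₂ ^ 2 = 1 + c₀ ^ 2)
    (ka : |a₀| ≤ 1 / 10 ^ 16) (kb : |b₀| ≤ 1 / 10 ^ 16) (kc : |c₀| ≤ 1 / 10 ^ 16)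
    (h : 1 - 1 / 10 ^ 14 < a₁ * b₁ + a₂ * b₂ - a₀ * b₀) :
    |a₁ * c₁ + a₂ * c₂ - a₀ * c₀ - (b₁ * c₁ + b₂ * c₂ - b₀ * c₀)| ≤ 2 / 10 ^ 7 := by
  have d0 : |a₀ - b₀| ≤ 2 / 10 ^ 16 := (abs_sub a₀ b₀).trans (by linarith)
  have d1 : (a₀ - b₀) ^ 2 ≤ (2 / 10 ^ 16) ^ 2 := by
    rw [← sq_abs]; exact pow_le_pow_left₀ (abs_nonneg _) d0 2
  have d2 : c₀ ^ 2 ≤ (1 / 10 ^ 16) ^ 2 := by
    rw [← sq_abs]; exact pow_le_pow_left₀ (abs_nonneg _) kc 2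
  have d3 : (a₁ - b₁) ^ 2 + (a₂ - b₂) ^ 2 ≤ 21 / 10 ^ 15 := by
    have : (a₁ - b₁) ^ 2 + (a₂ - b₂) ^ 2 =
        2 - 2 * (a₁ * b₁ + a₂ * b₂ - a₀ * b₀) + (a₀ - b₀) ^ 2 := by linear_combination ha + hb
    norm_num at d1
    linarith
  have d4 : c₁ ^ 2 + c₂ ^ 2 ≤ 101 / 100 := by
    norm_num at d2
    linarith
  have d5 : |(a₁ - b₁) * c₁ + (a₂ - b₂) * c₂| ≤ 15 / 10 ^ 8 := by
    refine abs_le_of_sq_le_sq ?_ (by norm_num)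
    have m := mul_le_mul d3 d4 (by positivity) (by norm_num)
    have e : ((a₁ - b₁) ^ 2 + (a₂ - b₂) ^ 2) * (c₁ ^ 2 + c₂ ^ 2) =
        ((a₁ - b₁) * c₁ + (a₂ - b₂) * c₂) ^ 2 + ((a₁ - b₁) * c₂ - (a₂ - b₂) * c₁) ^ 2 := by ring
    have := sq_nonneg ((a₁ - b₁) * c₂ - (a₂ - b₂) * c₁)
    norm_num at m ⊢
    linarith
  have d6 : |(a₀ - b₀) * c₀| ≤ 2 / 10 ^ 16 * (1 / 10 ^ 16) := by
    rw [abs_mul]; exact mul_le_mul d0 kc (abs_nonneg _) (by norm_num)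
  rw [show a₁ * c₁ + a₂ * c₂ - a₀ * c₀ - (b₁ * c₁ + b₂ * c₂ - b₀ * c₀) =
    (a₁ - b₁) * c₁ + (a₂ - b₂) * c₂ - (a₀ - b₀) * c₀ by ring]
  refine (abs_sub _ _).trans ?_
  norm_num at d5 d6 ⊢
  linarith

theorem tan_row : TAN_s := by
  intro a b c p ha hb hc h
  obtain ⟨k, rfl⟩ := MulAction.exists_smul_eq SL(2, ℝ) (ax 0) p
  have e : ∀ j, S j (k • ax 0) = Af j k + Bf j k := fun j => by rw [S_ax]; simp
  have n : ∀ j, cf j k ^ 2 + (Af j k - Bf j k) ^ 2 = 1 + (Af j k + Bf j k) ^ 2 := fun j => by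
    linear_combination cf_sq j k
  have f : ∀ i j, cf i j = cf i k * cf j k + (Af i k - Bf i k) * (Af j k - Bf j k) -
      (Af i k + Bf i k) * (Af j k + Bf j k) := fun i j => by linear_combination cf_three k i j
  rw [e] at ha hb hc
  rcases lt_abs.1 h with h | h
  · rw [f a b] at h
    refine (abs_abs_sub_abs_le _ _).trans ?_
    rw [f a c, f b c]
    exact tan_real (n a) (n b) (n c) ha hb hc h
  · have := tan_real (b₀ := -(Af b k + Bf b k)) (b₁ := -cf b k) (b₂ := -(Af b k - Bf b k)) (n a)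
      (by linear_combination n b) (n c) ha (by rwa [abs_neg]) hc (by rw [f a b] at h; linarith)
    rw [← abs_neg (cf b c)]
    refine (abs_abs_sub_abs_le _ _).trans (le_trans (le_of_eq (congrArg _ ?_)) this)
    rw [f a c, f b c]
    ring

theorem quad_mul {x y a b : ℝ} (h1 : |x| ≤ a) (h2 : |y| ≤ b) : |x * y| ≤ a * b := by
  rw [abs_mul]
  exact mul_le_mul h1 h2 (abs_nonneg _) ((abs_nonneg _).trans h1)

/-- the Lorentz product of a small vector and a bounded vector -/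
theorem quad_bil {c s xa xb xc ya yb yc : ℝ} (hc : |c| ≤ 1) (hs : |s| ≤ 1) (h1 : |xa| ≤ 7 / 10 ^ 6)
    (h2 : |xb| ≤ 7 / 10 ^ 6) (h3 : |xc| ≤ 3 / 10 ^ 7) (h4 : |ya| ≤ 13 / 10) (h5 : |yb| ≤ 13 / 10)
    (h6 : |yc| ≤ 13 / 10) :
    |-(xa * ya) + xb * (c * yb - s * yc) + xc * (s * yb + c * yc)| ≤ 281 / 10 ^ 7 := by
  obtain ⟨a1, a2⟩ := abs_le.1 (quad_mul h1 h4)
  obtain ⟨a3, a4⟩ := abs_le.1 (quad_mul h2 (quad_mul hc h5))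
  obtain ⟨a5, a6⟩ := abs_le.1 (quad_mul h2 (quad_mul hs h6))
  obtain ⟨a7, a8⟩ := abs_le.1 (quad_mul h3 (quad_mul hs h5))
  obtain ⟨a9, a0⟩ := abs_le.1 (quad_mul h3 (quad_mul hc h6))
  rw [abs_le]
  constructor <;> linarith

theorem quad_root {b t : ℝ} (b0 : 0 ≤ b) (t0 : 141 / 1000 ≤ t)
    (h1 : b ^ 2 - t ^ 2 ≤ 94 / 10 ^ 8 + b / 10 ^ 15)
    (h2 : -(94 / 10 ^ 8 + b / 10 ^ 15) ≤ b ^ 2 - t ^ 2) : |b - t| ≤ 68 / 10 ^ 7 := by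
  have p : 0 < b + t := by linarith
  rw [abs_le]
  constructor
  · by_contra h
    have := mul_pos (sub_pos.2 (not_le.1 h)) p
    linarith
  · by_contra h
    have := mul_pos (sub_pos.2 (not_le.1 h)) p
    linarith

theorem quad_div {t C : ℝ} (C0 : 1 ≤ C) (h : |t * C| ≤ 7 / 10 ^ 6) : |t| ≤ 7 / 10 ^ 6 := by
  rw [abs_mul, abs_of_nonneg (show 0 ≤ C by linarith)] at h
  exact (le_mul_of_one_le_right (abs_nonneg t) C0).trans h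

/-- a line through the point at distance `α` with the prescribed angle -/
theorem quad_line {c s C H a b d : ℝ} (c0 : 0 ≤ c) (c1 : c ≤ 99 / 100) (s0 : 0 ≤ s)
    (hs : s ^ 2 + c ^ 2 = 1) (C1 : C ≤ 5 / 4) (H0 : 0 ≤ H) (hC : C ^ 2 = 1 + H ^ 2) (C0 : 1 ≤ C)
    (hn : d ^ 2 + b ^ 2 = 1 + a ^ 2) (h1 : |a * C + b * H| ≤ 1 / 10 ^ 16) (b0 : 0 ≤ b)
    (h2 : |(|d| - c)| ≤ 3 / 10 ^ 7) :
    |b - s * C| ≤ 7 / 10 ^ 6 ∧ |a + s * H| ≤ 7 / 10 ^ 6 ∧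
      (|d - c| ≤ 3 / 10 ^ 7 ∨ |d + c| ≤ 3 / 10 ^ 7) := by
  have s1 : 141 / 1000 ≤ s := by nlinarith
  have H1 : H ≤ 3 / 4 := by nlinarith
  obtain ⟨e, he⟩ : ∃ e, e = a * C + b * H := ⟨_, rfl⟩
  rw [← he] at h1
  obtain ⟨e1, e2⟩ := abs_le.1 h1
  obtain ⟨d1, d2⟩ := abs_le.1 h2
  have d3 : |d ^ 2 - c ^ 2| ≤ 3 / 10 ^ 7 * 2 := by
    rw [← sq_abs d, show |d| ^ 2 - c ^ 2 = (|d| - c) * (|d| + c) by ring]
    exact quad_mul h2 (abs_le.2 ⟨by linarith [abs_nonneg d], by linarith⟩)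
  have k : b ^ 2 - (s * C) ^ 2 = -((d ^ 2 - c ^ 2) * C ^ 2) + e * e - 2 * (e * (b * H)) := by
    rw [he]
    linear_combination C ^ 2 * hn - C ^ 2 * hs - b ^ 2 * hC
  have C2 : |C ^ 2| ≤ 25 / 16 := by rw [abs_of_nonneg (sq_nonneg C)]; nlinarith
  obtain ⟨f1, f2⟩ := abs_le.1 (quad_mul d3 C2)
  obtain ⟨f3, f4⟩ := abs_le.1 (quad_mul h1 h1)
  obtain ⟨f5, f6⟩ := abs_le.1 (quad_mul h1 (show |b * H| ≤ b by
    rw [abs_of_nonneg (mul_nonneg b0 H0)]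
    exact mul_le_of_le_one_right b0 (by linarith)))
  have sC : 141 / 1000 ≤ s * C := s1.trans (le_mul_of_one_le_right s0 C0)
  have r1 : |b - s * C| ≤ 68 / 10 ^ 7 := quad_root b0 sC (by linarith) (by linarith)
  refine ⟨r1.trans (by norm_num), ?_, ?_⟩
  · have k2 : (a + s * H) * C = e - (b - s * C) * H := by rw [he]; ring
    obtain ⟨g1, g2⟩ := abs_le.1 (quad_mul r1 (show |H| ≤ 3 / 4 by rwa [abs_of_nonneg H0]))
    exact quad_div C0 (abs_le.2 ⟨by linarith, by linarith⟩)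
  · rcases abs_cases d with ⟨q, -⟩ | ⟨q, -⟩
    · rw [q] at h2
      exact Or.inl h2
    · rw [q] at d1 d2
      exact Or.inr (abs_le.2 ⟨by linarith, by linarith⟩)

/-- the exact values, for the four types -/
theorem quad_exact {c s C H p q : ℝ} (c0 : 0 ≤ c) (c1 : c ≤ 99 / 100) (hs : s ^ 2 + c ^ 2 = 1)
    (hC : (1 / 20 ≤ c ∧ C = 545 / 544 ∧ H = 33 / 544) ∨ (c ≤ 1 / 20 ∧ C = 5 / 4 ∧ H = 3 / 4))
    (hp : p = c ∨ p = -c) (hq : q = c ∨ q = -c) (h1 : 999 / 1000 ≤ |s * (s * C) + c * p|)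
    (h2 : 999 / 1000 ≤ |s * (s * C) + c * q|) :
    c + 73 / 10 ^ 6 ≤ s * H * (s * H) - s * C * (c * (s * C) - s * p) + q * (s * (s * C) + c * p) ∧
    s * H * (s * H) - s * C * (c * (s * C) - s * p) + q * (s * (s * C) + c * p) ≤ 999 / 1000 := by
  have e : ∀ x y : ℝ, s * H * (s * H) - s * C * (c * (s * C) - s * x) + y * (s * (s * C) + c * x) =
      (1 - c ^ 2) * (H ^ 2 - c * C ^ 2 + C * x + C * y) + c * x * y := fun x y => by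
    linear_combination (H ^ 2 - c * C ^ 2 + C * x + C * y) * hs
  have e' : s * (s * C) = (1 - c ^ 2) * C := by linear_combination C * hs
  rw [e]
  rw [e'] at h1 h2
  have cc : c ^ 2 ≤ 9801 / 10000 := by nlinarith
  rcases hC with ⟨c2, rfl, rfl⟩ | ⟨c2, rfl, rfl⟩
  · have no : ¬ 999 / 1000 ≤ |(1 - c ^ 2) * (545 / 544) + c * -c| := by
      rw [not_le, abs_lt]
      constructor <;> nlinarith
    obtain rfl : c = p := by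
      rcases hp with h | h
      · exact h.symm
      · exact absurd (h ▸ h1) no
    obtain rfl : c = q := by
      rcases hq with h | h
      · exact h.symm
      · exact absurd (h ▸ h2) no
    have k1 : 199 / 10000 * (3675 / 1000000) ≤
        (1 - c ^ 2) * ((33 / 544) ^ 2 - c * (1 / 544) ^ 2) :=
      mul_le_mul (by linarith) (by linarith) (by norm_num) (by linarith)
    have k2 : (1 - c ^ 2) * ((33 / 544) ^ 2 - c * (1 / 544) ^ 2) ≤ 1 * (4 / 1000) :=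
      mul_le_mul (by nlinarith) (by linarith) (by linarith) (by norm_num)
    constructor <;> linarith
  · have a1 : |c| ≤ 1 / 20 := by rwa [abs_of_nonneg c0]
    have a2 : |p| ≤ 1 / 20 := by rcases hp with h | h <;> simpa [h] using a1
    have a3 : |q| ≤ 1 / 20 := by rcases hq with h | h <;> simpa [h] using a1
    obtain ⟨b1, b2⟩ := abs_le.1 (quad_mul (quad_mul a1 a2) a3)
    obtain ⟨b3, b4⟩ := abs_le.1 a2
    obtain ⟨b5, b6⟩ := abs_le.1 a3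
    have k1 : 99 / 100 * (35 / 100) ≤
        (1 - c ^ 2) * ((3 / 4) ^ 2 - c * (5 / 4) ^ 2 + 5 / 4 * p + 5 / 4 * q) :=
      mul_le_mul (by nlinarith) (by linarith) (by norm_num) (by linarith)
    have k2 : (1 - c ^ 2) * ((3 / 4) ^ 2 - c * (5 / 4) ^ 2 + 5 / 4 * p + 5 / 4 * q) ≤ 1 * (7 / 10) :=
      mul_le_mul (by nlinarith) (by linarith) (by linarith) (by norm_num)
    constructor <;> linarith

/-- normalised signs; the first line is written in the frame of `k₂`, the second in that of `k₁` -/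
theorem quad_norm {c s C H a₁ b₁ d₁ a₂ b₂ d₂ : ℝ} (c0 : 0 ≤ c) (c1 : c ≤ 99 / 100) (s0 : 0 ≤ s)
    (hs : s ^ 2 + c ^ 2 = 1)
    (hC : (1 / 20 ≤ c ∧ C = 545 / 544 ∧ H = 33 / 544) ∨ (c ≤ 1 / 20 ∧ C = 5 / 4 ∧ H = 3 / 4))
    (n₁ : d₁ ^ 2 + b₁ ^ 2 = 1 + a₁ ^ 2) (n₂ : d₂ ^ 2 + b₂ ^ 2 = 1 + a₂ ^ 2)
    (p₁ : |a₁ * C + b₁ * H| ≤ 1 / 10 ^ 16) (p₂ : |a₂ * C + b₂ * H| ≤ 1 / 10 ^ 16)
    (q₁ : |(|d₁| - c)| ≤ 3 / 10 ^ 7) (q₂ : |(|d₂| - c)| ≤ 3 / 10 ^ 7)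
    (r₁ : 1 - 1 / 10 ^ 14 < |c * d₁ - s * b₁|) (r₂ : 1 - 1 / 10 ^ 14 < |s * b₂ + c * d₂|)
    (t₁ : b₁ ≤ 0) (t₂ : 0 ≤ b₂) :
    |-(a₁ * a₂) + b₁ * (c * b₂ - s * d₂) + d₁ * (s * b₂ + c * d₂)| ≤ 9999 / 10000 ∧
      c + 1 / 10 ^ 5 ≤ |-(a₁ * a₂) + b₁ * (c * b₂ - s * d₂) + d₁ * (s * b₂ + c * d₂)| := by
  have hH : C ≤ 5 / 4 ∧ 0 ≤ H ∧ C ^ 2 = 1 + H ^ 2 ∧ 1 ≤ C ∧ H ≤ 3 / 4 := by
    rcases hC with ⟨-, rfl, rfl⟩ | ⟨-, rfl, rfl⟩ <;> norm_num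
  obtain ⟨C1, H0, hCH, C0, H1⟩ := hH
  have s1 : s ≤ 1 := by nlinarith
  have ac : |c| ≤ 1 := abs_le.2 ⟨by linarith, by linarith⟩
  have as : |s| ≤ 1 := abs_le.2 ⟨by linarith, s1⟩
  obtain ⟨u1, u2, u3⟩ := quad_line c0 c1 s0 hs C1 H0 hCH C0 n₂ p₂ t₂ q₂
  obtain ⟨v1, v2, v3⟩ := quad_line (a := -a₁) (b := -b₁) (d := d₁) c0 c1 s0 hs C1 H0 hCH C0
    (by linarith) (by rw [← abs_neg]; simpa [add_comm] using p₁) (by linarith) q₁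
  obtain ⟨p, hp, u4⟩ : ∃ p, (p = c ∨ p = -c) ∧ |d₂ - p| ≤ 3 / 10 ^ 7 :=
    u3.elim (fun h => ⟨c, Or.inl rfl, h⟩) fun h => ⟨-c, Or.inr rfl, by rwa [sub_neg_eq_add]⟩
  obtain ⟨q, hq, v4⟩ : ∃ q, (q = c ∨ q = -c) ∧ |d₁ - q| ≤ 3 / 10 ^ 7 :=
    v3.elim (fun h => ⟨c, Or.inl rfl, h⟩) fun h => ⟨-c, Or.inr rfl, by rwa [sub_neg_eq_add]⟩
  have ap : |p| ≤ 1 := by rcases hp with h | h <;> simpa [h] using ac
  have aq : |q| ≤ 1 := by rcases hq with h | h <;> simpa [h] using ac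
  have sC : |s * C| ≤ 1 * (5 / 4) := quad_mul as (abs_le.2 ⟨by linarith, C1⟩)
  have sH : |s * H| ≤ 1 * (3 / 4) := quad_mul as (abs_le.2 ⟨by linarith, H1⟩)
  have near : ∀ b d x : ℝ, |b - s * C| ≤ 7 / 10 ^ 6 → |d - x| ≤ 3 / 10 ^ 7 →
      1 - 1 / 10 ^ 14 < |s * b + c * d| → 999 / 1000 ≤ |s * (s * C) + c * x| := by
    intro b d x h1 h2 h3
    obtain ⟨a1, a2⟩ := abs_le.1 (quad_mul as h1)
    obtain ⟨a3, a4⟩ := abs_le.1 (quad_mul ac h2)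
    rcases lt_abs.1 h3 with h | h
    · exact le_abs.2 (Or.inl (by linarith))
    · exact le_abs.2 (Or.inr (by linarith))
  obtain ⟨x1, x2⟩ := quad_exact (H := H) c0 c1 hs hC hp hq (near b₂ d₂ p u1 u4 r₂)
    (near (-b₁) d₁ q v1 v4 (by rwa [show s * -b₁ + c * d₁ = c * d₁ - s * b₁ by ring]))
  obtain ⟨w1, w2⟩ := abs_le.1 u1
  obtain ⟨w3, w4⟩ := abs_le.1 u2
  obtain ⟨w5, w6⟩ := abs_le.1 u4
  obtain ⟨y1, y2⟩ := abs_le.1 sC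
  obtain ⟨y3, y4⟩ := abs_le.1 sH
  obtain ⟨y5, y6⟩ := abs_le.1 ap
  obtain ⟨z1, z2⟩ := abs_le.1 (quad_bil (xa := a₁ - s * H) (xb := b₁ + s * C) (xc := d₁ - q)
    (ya := a₂) (yb := b₂) (yc := d₂) ac as (by rw [← abs_neg]; simpa [sub_eq_add_neg, add_comm] using v2)
    (by rw [← abs_neg]; simpa [sub_eq_add_neg, add_comm] using v1) v4
    (abs_le.2 ⟨by linarith, by linarith⟩)
    (abs_le.2 ⟨by linarith, by linarith⟩) (abs_le.2 ⟨by linarith, by linarith⟩))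
  obtain ⟨z3, z4⟩ := abs_le.1 (quad_bil (s := -s) (ya := s * H) (yb := -(s * C)) (yc := q) ac
    (by rwa [abs_neg]) u2 u1 u4 (by linarith) (by rw [abs_neg]; linarith) (by linarith))
  exact ⟨abs_le.2 ⟨by linarith, by linarith⟩, le_abs.2 (Or.inl (by linarith))⟩

theorem quad_alg {c s C H a₁ b₁ d₁ a₂ b₂ d₂ : ℝ} (c0 : 0 ≤ c) (c1 : c ≤ 99 / 100)
    (hs : s ^ 2 + c ^ 2 = 1)
    (hC : (1 / 20 ≤ c ∧ C = 545 / 544 ∧ H = 33 / 544) ∨ (c ≤ 1 / 20 ∧ C = 5 / 4 ∧ H = 3 / 4))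
    (n₁ : d₁ ^ 2 + b₁ ^ 2 = 1 + a₁ ^ 2) (n₂ : d₂ ^ 2 + b₂ ^ 2 = 1 + a₂ ^ 2)
    (p₁ : |a₁ * C + b₁ * H| ≤ 1 / 10 ^ 16) (p₂ : |a₂ * C + b₂ * H| ≤ 1 / 10 ^ 16)
    (q₁ : |(|d₁| - c)| ≤ 3 / 10 ^ 7) (q₂ : |(|d₂| - c)| ≤ 3 / 10 ^ 7)
    (r₁ : 1 - 1 / 10 ^ 14 < |c * d₁ - s * b₁|) (r₂ : 1 - 1 / 10 ^ 14 < |s * b₂ + c * d₂|) :
    |-(a₁ * a₂) + b₁ * (c * b₂ - s * d₂) + d₁ * (s * b₂ + c * d₂)| ≤ 9999 / 10000 ∧
      c + 1 / 10 ^ 5 ≤ |-(a₁ * a₂) + b₁ * (c * b₂ - s * d₂) + d₁ * (s * b₂ + c * d₂)| := by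
  have sg : ∀ x : ℝ, ∃ σ : ℝ, σ * σ = 1 ∧ 0 ≤ σ * x := fun x => (le_total 0 x).elim
    (fun h => ⟨1, by norm_num, by linarith⟩) fun h => ⟨-1, by norm_num, by linarith⟩
  have ab : ∀ {σ x y : ℝ}, σ * σ = 1 → y = σ * x → |y| = |x| := by
    intro σ x y h e
    rw [e, abs_mul]
    rcases mul_self_eq_one_iff.1 h with h | h <;> simp [h]
  obtain ⟨u, u1, u2⟩ := sg s
  obtain ⟨v, v1, v2⟩ := sg (-(u * b₁))
  obtain ⟨w, w1, w2⟩ := sg (u * b₂)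
  have uv : v * u * (v * u) = 1 := by linear_combination u * u * v1 + u1
  have uw : w * u * (w * u) = 1 := by linear_combination u * u * w1 + u1
  have vw : v * w * (v * w) = 1 := by linear_combination w * w * v1 + w1
  have := quad_norm (s := u * s) (C := C) (H := H) (a₁ := v * u * a₁) (b₁ := v * u * b₁)
    (d₁ := v * d₁) (a₂ := w * u * a₂) (b₂ := w * u * b₂) (d₂ := w * d₂) c0 c1 u2
    (by linear_combination hs + s ^ 2 * u1) hC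
    (by linear_combination n₁ + d₁ ^ 2 * v1 + (b₁ ^ 2 - a₁ ^ 2) * uv)
    (by linear_combination n₂ + d₂ ^ 2 * w1 + (b₂ ^ 2 - a₂ ^ 2) * uw)
    (by rwa [ab (x := a₁ * C + b₁ * H) uv (by ring)])
    (by rwa [ab (x := a₂ * C + b₂ * H) uw (by ring)])
    (by rwa [ab (x := d₁) v1 rfl]) (by rwa [ab (x := d₂) w1 rfl])
    (by rwa [ab (x := c * d₁ - s * b₁) v1 (by linear_combination -(v * s * b₁) * u1)])
    (by rwa [ab (x := s * b₂ + c * d₂) w1 (by linear_combination (w * s * b₂) * u1)])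
    (by linarith) (by linarith)
  rwa [ab (x := -(a₁ * a₂) + b₁ * (c * b₂ - s * d₂) + d₁ * (s * b₂ + c * d₂)) vw (by
    linear_combination v * w * (-(a₁ * a₂) + b₁ * (c * b₂ - s * d₂) + d₁ * s * b₂) * u1)] at this

theorem quad_row : QUAD_s := by
  intro k₁ k₂ hx c0 c1
  obtain ⟨α, C, H, hC, e1, e2⟩ : ∃ α C H : ℝ,
      ((1 / 20 ≤ cf k₂ k₁ ∧ C = 545 / 544 ∧ H = 33 / 544) ∨
        (cf k₂ k₁ ≤ 1 / 20 ∧ C = 5 / 4 ∧ H = 3 / 4)) ∧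
      Real.exp α = C + H ∧ Real.exp (-α) = C - H := by
    rcases le_total (1 / 20) (cf k₂ k₁) with h | h
    · refine ⟨Real.log (17 / 16), _, _, Or.inl ⟨h, rfl, rfl⟩, ?_, ?_⟩
      · rw [Real.exp_log (by norm_num)]
        norm_num
      · rw [Real.exp_neg, Real.exp_log (by norm_num)]
        norm_num
    · refine ⟨Real.log 2, _, _, Or.inr ⟨h, rfl, rfl⟩, ?_, ?_⟩
      · rw [Real.exp_log (by norm_num)]
        norm_num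
      · rw [Real.exp_neg, Real.exp_log (by norm_num)]
        norm_num
  refine ⟨α, fun n₁ n₂ p₂ p₁ q₂ q₁ r₂ r₁ => ?_⟩
  have h1 : (k₁⁻¹ * k₂) • I = I := by rw [mul_smul, ← hx, inv_smul_smul]
  have hd := det_eq (k₁⁻¹ * k₂)
  have b3 := xa_smul (k₁⁻¹ * k₂) I
  have b4 := xc_smul (k₁⁻¹ * k₂) I
  rw [h1, show xa I = 1 by simp [xa], show xb I = 0 by simp [xb], show xc I = 1 by simp [xc]] at b3 b4
  obtain ⟨u, hu⟩ : ∃ u, u = (k₁⁻¹ * k₂) 0 0 := ⟨_, rfl⟩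
  obtain ⟨v, hv⟩ : ∃ v, v = (k₁⁻¹ * k₂) 0 1 := ⟨_, rfl⟩
  rw [← hu, ← hv] at hd b4
  have b5 : (k₁⁻¹ * k₂) 1 1 = u := by
    nlinarith [sq_nonneg ((k₁⁻¹ * k₂) 1 1 - u), sq_nonneg (v + (k₁⁻¹ * k₂) 1 0)]
  have b6 : (k₁⁻¹ * k₂) 1 0 = -v := by
    nlinarith [sq_nonneg ((k₁⁻¹ * k₂) 1 1 - u), sq_nonneg (v + (k₁⁻¹ * k₂) 1 0)]
  have uv : u ^ 2 + v ^ 2 = 1 := by linarith
  have hc : cf k₂ k₁ = u ^ 2 - v ^ 2 := by rw [cf_comm, cf, b5, b6, ← hu, ← hv]; ring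
  have tr : ∀ n : SL(2, ℝ),
      Af n k₂ = Af n k₁ * u ^ 2 - cf n k₁ * (u * v) + Bf n k₁ * v ^ 2 ∧
      Bf n k₂ = Af n k₁ * v ^ 2 + cf n k₁ * (u * v) + Bf n k₁ * u ^ 2 ∧
      cf n k₂ = Af n k₁ * (2 * u * v) + cf n k₁ * (u ^ 2 - v ^ 2) - Bf n k₁ * (2 * u * v) :=
    fun n => coef_ext fun z => by
      rw [← S_smul, show k₂ • z = k₁ • (k₁⁻¹ * k₂) • z by rw [mul_smul, smul_inv_smul], S_smul,
        xa_smul, xb_smul, xc_smul, b5, b6, ← hu, ← hv]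
      ring
  obtain ⟨t1, t2, t3⟩ := tr n₁
  obtain ⟨-, -, t4⟩ := tr n₂
  rw [S_ax, e1, e2] at p₁ p₂
  have := quad_alg (c := cf k₂ k₁) (s := 2 * u * v) (C := C) (H := H) (a₁ := Af n₁ k₂ + Bf n₁ k₂)
    (b₁ := Af n₁ k₂ - Bf n₁ k₂) (d₁ := cf n₁ k₂) (a₂ := Af n₂ k₁ + Bf n₂ k₁)
    (b₂ := Af n₂ k₁ - Bf n₂ k₁) (d₂ := cf n₂ k₁) c0 c1
    (by rw [hc]; linear_combination (u ^ 2 + v ^ 2 + 1) * uv) hC
    (by linear_combination cf_sq n₁ k₂) (by linear_combination cf_sq n₂ k₁)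
    (by refine le_of_eq_of_le (congrArg _ ?_) p₁; ring)
    (by refine le_of_eq_of_le (congrArg _ ?_) p₂; ring) q₁ q₂
    (by
      refine r₁.trans_eq (congrArg _ ?_)
      rw [t1, t2, t3, hc]
      linear_combination -(cf n₁ k₁ * (u ^ 2 + v ^ 2 + 1)) * uv)
    (by
      refine r₂.trans_eq (congrArg _ ?_)
      rw [t4, hc]
      ring)
  have e : cf n₂ n₁ = -((Af n₁ k₂ + Bf n₁ k₂) * (Af n₂ k₁ + Bf n₂ k₁)) +
      (Af n₁ k₂ - Bf n₁ k₂) * (cf k₂ k₁ * (Af n₂ k₁ - Bf n₂ k₁) - 2 * u * v * cf n₂ k₁) +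
      cf n₁ k₂ * (2 * u * v * (Af n₂ k₁ - Bf n₂ k₁) + cf k₂ k₁ * cf n₂ k₁) := by
    rw [cf_three k₁ n₂ n₁, t1, t2, t3, hc]
    linear_combination ((Af n₁ k₁ + Bf n₁ k₁) * (Af n₂ k₁ + Bf n₂ k₁) -
      ((Af n₁ k₁ - Bf n₁ k₁) * (Af n₂ k₁ - Bf n₂ k₁) + cf n₁ k₁ * cf n₂ k₁) *
        (u ^ 2 + v ^ 2 + 1)) * uv
  rwa [← e] at this

end Pool.Agent.MP_7dc785_an.Sep
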