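import Pool.Agent.MP_7dc785_an.Sep.Three
import Pool.Agent.MP_7dc785_an.Sep.Rows2

/-!
Maps which send a short curve into finitely many homology classes modulo two.
-/

namespace Pool.Agent.MP_7dc785_an.Sep

open Set Metric UpperHalfPlane
open scoped MatrixGroups

theorem chain {X ι : Type} [PseudoMetricSpace X] [PreconnectedSpace X] {C : Finset ι} {V : X → ι}
    (hV : ∀ x, V x ∈ C) {δ : ℝ} (hδ : 0 < δ) {R : ℕ → X → Prop} {z : X} (h0 : R 0 z)
    (hs : ∀ j < C.card, ∀ u v w, R j u → dist u v < δ → V v = V w → R (j + 1) w) (w : X) :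
    ∃ j ≤ C.card, R j w := by
  classical
  have H : ∀ j ≤ C.card, (∀ w, ∃ i ≤ j, R i w) ∨
      ∃ B ⊆ C, B.card = j ∧ ∀ w, V w ∈ B → ∃ i ≤ j, R i w := by
    intro j
    induction j with
    | zero => exact fun _ => Or.inr ⟨∅, Finset.empty_subset _, rfl, fun w h => absurd h (by simp)⟩
    | succ j ih =>
      intro hj
      have up : ∀ w, (∃ i ≤ j, R i w) → ∃ i ≤ j + 1, R i w :=
        fun w ⟨i, a, b⟩ => ⟨i, a.trans (Nat.le_succ j), b⟩
      rcases ih (Nat.le_of_succ_le hj) with h | ⟨B, b1, b2, b3⟩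
      · exact Or.inl fun w => up w (h w)
      by_cases hc : ∃ u v, (∃ i ≤ j, R i u) ∧ (¬ ∃ i ≤ j, R i v) ∧ dist u v < δ
      · obtain ⟨u, v, ⟨i, a1, a2⟩, a3, a4⟩ := hc
        have a5 : V v ∉ B := fun h => a3 (b3 v h)
        refine Or.inr ⟨insert (V v) B, Finset.insert_subset (hV v) b1,
          by rw [Finset.card_insert_of_notMem a5, b2], fun w h => ?_⟩
        rcases Finset.mem_insert.1 h with h | h
        · exact ⟨i + 1, Nat.succ_le_succ a1, hs i (by omega) u v w a2 a4 h.symm⟩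
        · exact up w (b3 w h)
      · have a1 : ∀ u v, (∃ i ≤ j, R i u) → dist u v < δ → ∃ i ≤ j, R i v := fun u v h h' => by
          by_contra h''
          exact hc ⟨u, v, h, h'', h'⟩
        have a2 : IsClopen {w | ∃ i ≤ j, R i w} := by
          refine ⟨isOpen_compl_iff.1 (Metric.isOpen_iff.2 fun v hv => ⟨δ, hδ, fun u hu h => ?_⟩),
            Metric.isOpen_iff.2 fun u hu => ⟨δ, hδ, fun v hv => ?_⟩⟩
          · exact hv (a1 u v h hu)
          · exact a1 u v hu (by rw [dist_comm]; exact hv)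
        have a3 := a2.eq_univ ⟨z, 0, Nat.zero_le j, h0⟩
        exact Or.inl fun w => up w (eq_univ_iff_forall.1 a3 w)
  rcases H _ le_rfl with h | ⟨B, b1, b2, b3⟩
  · exact h w
  · exact b3 w (by rw [Finset.eq_of_subset_of_card_le b1 b2.ge]; exact hV w)

theorem swap_ex {G : Subgroup (Equiv.Perm ℍ)} {l : ℝ} (hl : Fuchs G l) {u v : ℍ} (h : dist u v < l) :
    ∃ σ : Equiv.Perm ℍ, σ u = v ∧ (∀ x, dist (σ x) x ≤ dist u v) ∧ ∀ g ∈ G, σ * g * σ⁻¹ = g := by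
  classical
  by_cases e : u = v
  · exact ⟨1, e, fun x => by simp, fun g _ => by simp⟩
  have fr : ∀ (g g' : G) (p q : ℍ), dist p q < l → g.1 p = g'.1 q → g = g' := fun g g' p q a b => by
    by_contra c
    have a1 := hl.sys _ (g'⁻¹ * g).2 (fun d => c (inv_mul_eq_one.1 (Subtype.ext d)).symm) p
    have a2 : (g'⁻¹ * g : G).1 p = q := by
      show (g'.1)⁻¹ (g.1 p) = q
      rw [b]
      simp
    rw [a2] at a1
    linarith
  have f0 : ∀ (g g' : G) (p : ℍ), g.1 p = g'.1 p → g = g' := fun g g' p =>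
    fr g g' p p (by rw [dist_self]; exact hl.pos)
  have dj : ∀ g g' : G, g.1 u ≠ g'.1 v := fun g g' b => by
    have := fr g g' u v h b
    subst this
    exact e (g.1.injective b)
  obtain ⟨s, s1, s2, s3⟩ : ∃ s : ℍ → ℍ, (∀ g : G, s (g.1 u) = g.1 v) ∧ (∀ g : G, s (g.1 v) = g.1 u) ∧
      ∀ x, (¬ ∃ g : G, g.1 u = x) → (¬ ∃ g : G, g.1 v = x) → s x = x := by
    refine ⟨fun x => if a : ∃ g : G, g.1 u = x then a.choose.1 v else
      if b : ∃ g : G, g.1 v = x then b.choose.1 u else x, fun g => ?_, fun g => ?_,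
      fun x a b => ?_⟩
    · have a : ∃ g' : G, g'.1 u = g.1 u := ⟨g, rfl⟩
      simp only [dif_pos a, f0 _ _ _ a.choose_spec]
    · have a : ¬ ∃ g' : G, g'.1 u = g.1 v := fun ⟨g', a⟩ => dj g' g a
      have b : ∃ g' : G, g'.1 v = g.1 v := ⟨g, rfl⟩
      simp only [dif_neg a, dif_pos b, f0 _ _ _ b.choose_spec]
    · simp only [dif_neg a, dif_neg b]
  have cs : ∀ P : ℍ → Prop, (∀ g : G, P (g.1 u)) → (∀ g : G, P (g.1 v)) →
      (∀ x, (¬ ∃ g : G, g.1 u = x) → (¬ ∃ g : G, g.1 v = x) → P x) → ∀ x, P x := by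
    intro P a b c x
    by_cases a' : ∃ g : G, g.1 u = x
    · obtain ⟨g, rfl⟩ := a'
      exact a g
    by_cases b' : ∃ g : G, g.1 v = x
    · obtain ⟨g, rfl⟩ := b'
      exact b g
    exact c x a' b'
  have si : Function.Involutive s := cs (fun x => s (s x) = x) (fun g => by rw [s1, s2])
    (fun g => by rw [s2, s1]) fun x a b => by rw [s3 x a b, s3 x a b]
  refine ⟨si.toPerm s, s1 1, cs (fun x => dist (s x) x ≤ dist u v) (fun g => ?_) (fun g => ?_)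
    fun x a b => ?_, fun g hg => ?_⟩
  · rw [s1, hl.dist_eq g.2, dist_comm]
  · rw [s2, hl.dist_eq g.2]
  · rw [s3 x a b, dist_self]
    exact dist_nonneg
  · rw [mul_inv_eq_iff_eq_mul]
    refine Equiv.ext (cs (fun x => s (g x) = g (s x)) (fun g' => ?_) (fun g' => ?_) fun x a b => ?_)
    · rw [s1]
      exact s1 (⟨g, hg⟩ * g')
    · rw [s2]
      exact s2 (⟨g, hg⟩ * g')
    · have t : ∀ p : ℍ, (¬ ∃ g' : G, g'.1 p = x) → ¬ ∃ g' : G, g'.1 p = g x := fun p a ⟨g', c⟩ =>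
        a ⟨⟨g, hg⟩⁻¹ * g', by
          show g⁻¹ (g'.1 p) = x
          rw [c]
          simp⟩
      rw [s3 x a b, s3 _ (t u a) (t v b)]

theorem qi_comp {a b : ℝ} {φ ψ : ℍ → ℍ} (ha : 0 ≤ a) (h : QI a φ) (h' : QI b ψ) :
    QI (a + b + a * b) (fun z => φ (ψ z)) := fun x y => by
  obtain ⟨a1, a2⟩ := abs_le.1 (h (ψ x) (ψ y))
  obtain ⟨b1, b2⟩ := abs_le.1 (h' x y)
  have a3 : a * (1 + dist (ψ x) (ψ y)) ≤ a * (1 + dist x y + b * (1 + dist x y)) :=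
    mul_le_mul_of_nonneg_left (by linarith) ha
  exact abs_le.2 ⟨by linarith, by linarith⟩

theorem qi_inv {e : ℝ} {φ : Equiv.Perm ℍ} (he : 0 ≤ e) (he1 : e ≤ 1 / 2) (h : QI e φ) :
    QI (2 * e) (φ⁻¹ : Equiv.Perm ℍ) := fun x y => by
  have a1 := h (φ⁻¹ x) (φ⁻¹ y)
  simp only [Equiv.Perm.coe_inv, Equiv.apply_symm_apply] at a1 ⊢
  obtain ⟨a2, a3⟩ := abs_le.1 a1
  have d0 : 0 ≤ dist (φ.symm x) (φ.symm y) := dist_nonneg
  have a4 : e * (1 + dist (φ.symm x) (φ.symm y)) ≤ e * (2 * (1 + dist x y)) :=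
    mul_le_mul_of_nonneg_left (by nlinarith) he
  exact abs_le.2 ⟨by linarith, by linarith⟩

/-- the homomorphism `F` is the conjugation by `φ` -/
def Nm {G : Subgroup (Equiv.Perm ℍ)} (φ : Equiv.Perm ℍ) (F : G →* G) : Prop :=
  ∀ g : G, (F g).1 = φ * g * φ⁻¹

theorem Nm.ex {G : Subgroup (Equiv.Perm ℍ)} {φ : Equiv.Perm ℍ} (h : ∀ g ∈ G, φ * g * φ⁻¹ ∈ G) :
    ∃ F : G →* G, Nm φ F :=
  ⟨{ toFun := fun g => ⟨φ * g * φ⁻¹, h _ g.2⟩
     map_one' := Subtype.ext (by simp)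
     map_mul' := fun a b => Subtype.ext (by simp [mul_assoc]) }, fun _ => rfl⟩

theorem Nm.mul {G : Subgroup (Equiv.Perm ℍ)} {φ ψ : Equiv.Perm ℍ} {F F' : G →* G} (h : Nm φ F)
    (h' : Nm ψ F') : Nm (φ * ψ) (F.comp F') := fun g => by
  rw [MonoidHom.comp_apply, h, h']
  group

/-- every point is moved to `o` by an almost isometry which normalises the group and sends `γ` into
one of the classes `r c` -/
def Hom3 {G : Subgroup (Equiv.Perm ℍ)} {ι : Type} (γ : G) (C : Finset ι) (r : ι → G) (o : ℍ) (e : ℝ) :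
    Prop :=
  ∀ z : ℍ, ∃ φ : Equiv.Perm ℍ, ∃ F F' : G →* G, QI e φ ∧ φ z = o ∧ Nm φ F ∧ Nm φ⁻¹ F' ∧
    ∃ c ∈ C, Same (F γ) (r c)

theorem hom3 {G : Subgroup (Equiv.Perm ℍ)} {l e e₀ : ℝ} (hl : Fuchs G l) (h1 : 1 ≤ l) {ι : Type}
    {γ : G} {C : Finset ι} {r : ι → G} {o : ℍ} (he : 0 < e) (he1 : e ≤ 1 / 2)
    (h0 : C.card * (16 * e) ≤ e₀) (h2 : e₀ ≤ 1) (H : Hom3 γ C r o e) : Hom2 γ e₀ := by
  choose φ F F' q m n n' V hV hS using H
  intro z w
  obtain ⟨j, hj, ψ, E, a1, a2, a3, a4⟩ := chain hV (δ := e / 2) (by positivity) (z := z)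
    (R := fun j w => ∃ ψ : Equiv.Perm ℍ, ∃ E : G →* G, QI (j * (16 * e)) ψ ∧ ψ z = w ∧ Nm ψ E ∧
      Same (E γ) γ)
    ⟨1, MonoidHom.id G, fun a b => by simp, rfl, fun g => by simp, fun _ => rfl⟩
    (by
      rintro j hj u v w ⟨ψ, E, a1, a2, a3, a4⟩ d c
      obtain ⟨σ, b1, b2, b3⟩ := swap_ex hl (u := u) (v := v) (by linarith)
      have b4 : QI e σ := fun x y => by
        have c1 := dist_dist_dist_le (σ x) (σ y) x y
        have c2 := mul_nonneg he.le (dist_nonneg (x := x) (y := y))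
        rw [Real.dist_eq] at c1
        linarith [b2 x, b2 y]
      have b5 : Nm σ (MonoidHom.id G) := fun g => (b3 g g.2).symm
      have b6 : QI (8 * e) _ := (qi_comp (by positivity) (qi_inv he.le he1 (q w))
        (qi_comp he.le (q v) b4)).mono (by nlinarith [mul_nonneg he.le he.le])
      have b7 : (j : ℝ) * (16 * e) ≤ 1 :=
        (mul_le_mul_of_nonneg_right (Nat.cast_le.2 hj.le) (by positivity)).trans (h0.trans h2)
      refine ⟨(φ w)⁻¹ * (φ v * (σ * ψ)), _, (qi_comp (by positivity) b6 a1).mono ?_, ?_,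
        (n' w).mul ((n v).mul (b5.mul a3)), fun χ => ?_⟩
      · push_cast
        nlinarith
      · simp only [Equiv.Perm.mul_apply, a2, b1, m v]
        rw [Equiv.Perm.inv_eq_iff_eq, m w]
      · have c1 := a4 ((χ.comp (F' w)).comp (F v))
        have c2 := hS v (χ.comp (F' w))
        have c3 := hS w (χ.comp (F' w))
        have c4 : F' w (F w γ) = γ := Subtype.ext (by rw [n' w, n w]; group)
        simp only [MonoidHom.comp_apply, MonoidHom.id_apply] at c1 c2 c3 ⊢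
        rw [c1, c2, c, ← c3, c4]) w
  refine ⟨ψ, a1.mono ((mul_le_mul_of_nonneg_right (Nat.cast_le.2 hj) (by positivity)).trans h0), a2,
    fun g hg => a3 ⟨g, hg⟩ ▸ (E ⟨g, hg⟩).2, fun χ => ?_⟩
  rw [← a4 χ]
  exact congrArg χ (Subtype.ext (a3 γ).symm)

theorem top3 : ∃ c : ℝ, 0 < c ∧
    ∀ Γ : Subgroup SL(2, ℝ), IsClosedSurface Γ → ∀ (K : ℝ) (γ : Γ) (z : ℍ), γ.1 • z ≠ z →
      (∀ δ ∈ Γ, ∀ w : ℍ, δ • w ≠ w → dist z (γ.1 • z) ≤ 107 / 100 * dist w (δ • w)) →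
      ∀ C : Finset Γ, (∀ x y : Surface Γ, ∃ (f : Surface Γ ≃ₜ Surface Γ) (φ : ℍ ≃ₜ ℍ),
        IsQC K φ ∧ (∀ w, f (proj Γ w) = proj Γ (φ w)) ∧ f x = y ∧
        ∃ β ∈ C, ∀ δ : Γ, (∀ w : ℍ, φ (γ.1 • w) = δ.1 • φ w) →
          ∀ χ : Γ →* Multiplicative (ZMod 2), (∀ g : Γ, (∀ w : ℍ, g.1 • w = w) → χ g = 1) →
            χ δ = χ β) → 1 + c / C.card ≤ K := by
  obtain ⟨e₀, he, H⟩ := core2 cf_row tan_row quad_row
  obtain ⟨c, hc, hs⟩ := sqrt_bound
  obtain ⟨Q, hQ, hq⟩ := qi_of_qc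
  have H' : ∀ (G : Subgroup (Equiv.Perm ℍ)) (l : ℝ), Fuchs G l → 600 ≤ l → ∀ γ : G, γ ≠ 1 →
      Hom2 γ (min e₀ 1) → ∀ z, dist z (γ.1 z) ≤ 107 / 100 * l → False :=
    fun G l a b γ d h => H G l a b γ d fun z w => by
      obtain ⟨φ, q, r⟩ := h z w
      exact ⟨φ, q.mono (min_le_left _ _), r⟩
  have p0 : 0 < min e₀ 1 := by positivity
  have p1 : min e₀ 1 ≤ 1 := min_le_right _ _
  generalize min e₀ 1 = e₁ at H' p0 p1
  have hp : 0 < c * Real.exp (-(39 * Real.sqrt 642)) := by positivity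
  refine ⟨min (e₁ / (16 * Q)) (c * Real.exp (-(39 * Real.sqrt 642))), by positivity,
    fun Γ hΓ K γ z hz hl C hK => ?_⟩
  have m1 : (1 : ℝ) ≤ C.card := by
    obtain ⟨-, -, -, -, -, β, hβ, -⟩ := hK (proj Γ z) (proj Γ z)
    exact_mod_cast Finset.card_pos.2 ⟨β, hβ⟩
  rcases le_or_gt (dist z (γ.1 • z)) 642 with h | h
  · refine le_trans ?_ (hs Γ hΓ K (fun x y => ?_) γ γ.2 z hz)
    · have a1 := Real.sqrt_le_sqrt h
      have a2 : c * Real.exp (-(39 * Real.sqrt 642)) ≤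
          c * Real.exp (-(39 * Real.sqrt (dist z (γ.1 • z)))) := by gcongr
      have a3 := div_le_self (le_min (by positivity : 0 ≤ e₁ / (16 * Q)) hp.le) m1
      linarith [min_le_right (e₁ / (16 * Q)) (c * Real.exp (-(39 * Real.sqrt 642)))]
    · obtain ⟨f, φ, h1, h2, h3, -⟩ := hK x y
      exact ⟨f, φ, h1, h2, h3⟩
  refine not_lt.1 fun hK0 => ?_
  have hε : 0 < e₁ / (16 * Q) / C.card := by positivity
  have hK1 : K ≤ 1 + e₁ / (16 * Q) / C.card := by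
    have := div_le_div_of_nonneg_right
      (min_le_left (e₁ / (16 * Q)) (c * Real.exp (-(39 * Real.sqrt 642)))) (zero_le_one.trans m1)
    linarith
  have q1 : C.card * (16 * (Q * (e₁ / (16 * Q) / C.card))) = e₁ := by field_simp
  have q0 : 0 < Q * (e₁ / (16 * Q) / C.card) := by positivity
  have q2 : Q * (e₁ / (16 * Q) / C.card) ≤ 1 / 2 := by nlinarith
  generalize e₁ / (16 * Q) / C.card = ε at hε hK1 q0 q1 q2
  obtain ⟨R, hR, -⟩ := hΓ.exists_sys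
  let π := MulAction.toPermHom SL(2, ℝ) ℍ
  have hπ : ∀ (m : SL(2, ℝ)) (w : ℍ), π m w = m • w := fun _ _ => rfl
  have hF : Fuchs (Γ.map π) (dist z (γ.1 • z) / (107 / 100)) := by
    refine ⟨by positivity, ?_, ?_⟩
    · rintro _ ⟨m, -, rfl⟩
      exact ⟨m, fun _ => rfl⟩
    · rintro _ ⟨m, hm, rfl⟩ h1 w
      have h2 : m • w ≠ w := fun h2 => h1 (Equiv.ext fun v => hΓ.triv hm h2 v)
      rw [div_le_iff₀ (by norm_num), hπ]
      linarith [hl m hm w h2]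
  have hN : ∀ (f : Surface Γ ≃ₜ Surface Γ) (φ : ℍ ≃ₜ ℍ), (∀ w, f (proj Γ w) = proj Γ (φ w)) →
      ∀ m ∈ Γ, ∃ β ∈ Γ, (∀ w, β • φ w = φ (m • w)) ∧ φ.toEquiv * π m * φ.toEquiv⁻¹ = π β := by
    intro f φ h2 m hm
    obtain ⟨β, hβ, h6⟩ := top_lift hR h2 hm
    refine ⟨β, hβ, h6, ?_⟩
    rw [mul_inv_eq_iff_eq_mul]
    exact Equiv.ext fun w => (h6 w).symm
  have hH : Hom3 (π.subgroupMap Γ γ) C (π.subgroupMap Γ) z (Q * ε) := by
    intro a
    obtain ⟨f, φ, h1, h2, h3, β₀, hβ₀, h7⟩ := hK (proj Γ a) (proj Γ z)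
    obtain ⟨δ, hδ, h4⟩ := proj_eq.1 (h3.symm.trans (h2 a))
    have h5 : QI (Q * ε) φ := hq _ hε (by linarith) φ (h1.mono hK1)
    have h2' : ∀ w, f.symm (proj Γ w) = proj Γ (φ.symm w) := fun w => by
      rw [Homeomorph.symm_apply_eq, h2, Homeomorph.apply_symm_apply]
    obtain ⟨F, hF1⟩ := Nm.ex (G := Γ.map π) (φ := π δ * φ.toEquiv) (by
      rintro _ ⟨m, hm, rfl⟩
      obtain ⟨β, hβ, -, h6⟩ := hN f φ h2 m hm
      refine ⟨δ * β * δ⁻¹, Γ.mul_mem (Γ.mul_mem hδ hβ) (Γ.inv_mem hδ), ?_⟩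
      rw [map_mul, map_mul, map_inv, ← h6]
      group)
    obtain ⟨F', hF2⟩ := Nm.ex (G := Γ.map π) (φ := (π δ * φ.toEquiv)⁻¹) (by
      rintro _ ⟨m, hm, rfl⟩
      obtain ⟨β, hβ, -, h6⟩ := hN f.symm φ.symm h2' (δ⁻¹ * m * δ)
        (Γ.mul_mem (Γ.mul_mem (Γ.inv_mem hδ) hm) hδ)
      refine ⟨β, hβ, ?_⟩
      rw [← h6, map_mul, map_mul, map_inv, show φ.symm.toEquiv = φ.toEquiv⁻¹ from rfl]
      group)
    refine ⟨π δ * φ.toEquiv, F, F', fun u v => ?_, h4, hF1, hF2, β₀, hβ₀, fun χ => ?_⟩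
    · simp only [Equiv.Perm.mul_apply, hπ, dist_smul]
      exact h5 u v
    · obtain ⟨β, hβ, h6, h8⟩ := hN f φ h2 γ γ.2
      have h9 := h7 ⟨β, hβ⟩ (fun w => (h6 w).symm) (χ.comp (π.subgroupMap Γ)) fun g hg => by
        rw [MonoidHom.comp_apply, show π.subgroupMap Γ g = 1 from Subtype.ext (Equiv.ext hg),
          map_one]
      have h10 : (F (π.subgroupMap Γ γ)).1 = π (δ * β * δ⁻¹) := by
        rw [hF1, map_mul, map_mul, map_inv, ← h8, show (π.subgroupMap Γ γ).1 = π γ from rfl]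
        group
      have h11 : F (π.subgroupMap Γ γ) = π.subgroupMap Γ (⟨δ, hδ⟩ * ⟨β, hβ⟩ * ⟨δ, hδ⟩⁻¹) :=
        Subtype.ext h10
      rw [h11, map_mul, map_mul, map_inv, map_mul, map_mul, map_inv, mul_inv_cancel_comm]
      exact h9
  have h600 : 600 ≤ dist z (γ.1 • z) / (107 / 100) := by
    rw [le_div_iff₀ (by norm_num)]
    linarith
  refine H' _ _ hF h600 (π.subgroupMap Γ γ) (fun h1 => hz (congrArg (fun g : Γ.map π => g.1 z) h1))
    (hom3 hF (by linarith) q0 q2 q1.le p1 hH) z ?_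
  exact le_of_eq (by rw [mul_div_cancel₀ _ (by norm_num)]; rfl)

end Pool.Agent.MP_7dc785_an.Sep
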