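import Pool.Agent.MP_7dc785_an.Sep.Base

/-!
Surfaces with a short curve which is trivial in homology modulo two: the proofs of the steps.
-/

namespace Pool.Agent.MP_7dc785_an.Sep

open Set Metric UpperHalfPlane
open scoped MatrixGroups

theorem axis_row : AXIS_s := by
  intro G l hl g hg h1
  obtain ⟨m, hm⟩ := hl.mob g hg
  have c1 : 0 < 2 * Real.cosh l - 2 := by linarith [Real.one_lt_cosh.2 hl.pos.ne']
  have hd : 0 < disc m := c1.trans_le (le_disc c1 fun z => by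
    have := cosh_mono hl.pos.le (hl.sys g hg h1 z)
    rw [hm] at this
    rw [dp]; linarith)
  obtain ⟨z, hz⟩ := exists_dp hd le_rfl
  obtain ⟨k, k1, k2⟩ := exists_norm z (m • z)
  have ht : 0 < dist z (m • z) := hl.pos.trans_le (hm z ▸ hl.sys g hg h1 z)
  refine ⟨k, dist z (m • z), ht, ?_⟩
  have e1 : dp (k⁻¹ * m * k) I = disc (k⁻¹ * m * k) := by rw [dp_conj, disc_conj, k1, hz]
  have e2 : (k⁻¹ * m * k) • I = ax (dist z (m • z)) := by
    rw [mul_smul, mul_smul, k1, inv_smul_eq_iff, k2]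
  generalize dist z (m • z) = t at ht e2
  have e3 : ∀ w : ℍ, (k⁻¹ * m * k) • w = D t • w := by
    generalize k⁻¹ * m * k = n at e1 e2
    rw [dp_I, disc] at e1
    have hdet := det_eq n
    have b1 : n 0 1 = n 1 0 := by nlinarith [sq_nonneg (n 0 1 - n 1 0)]
    have i1 : xa I = 1 := by simp [xa]
    have i2 : xb I = 0 := by simp [xb]
    have i3 : xc I = 1 := by simp [xc]
    have b2 := xb_smul n I
    have b3 := xa_smul n I
    have b4 := xc_smul n I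
    rw [e2, i1, i2, i3] at b2 b3 b4
    rw [xb_ax] at b2
    rw [xa_ax] at b3
    rw [xc_ax] at b4
    have b5 : n 1 0 = 0 := by
      by_contra b5
      have b6 : n 0 0 + n 1 1 = 0 := mul_left_cancel₀ b5 (by rw [b1] at b2; linarith)
      have b7 : n 1 1 = -n 0 0 := by linarith
      rw [b1, b7] at hdet
      nlinarith [sq_nonneg (n 0 0), sq_nonneg (n 1 0)]
    rw [b5] at b1
    intro w
    refine x_ext ?_ ?_
    · rw [xa_smul, xa_D, b3, b5]; ring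
    · rw [xb_smul, xb_D, b5, b1]
      rw [b5, b1] at hdet
      linear_combination xb w * hdet
  intro w
  rw [hm, ← e3, mul_smul, mul_smul, smul_inv_smul]

theorem fin_row : FIN_s := by
  intro G l hl p z R
  obtain ⟨s, hs, hc⟩ := Metric.totallyBounded_iff.1 (isCompact_closedBall p R).totallyBounded (l / 2)
    (half_pos hl.pos)
  have h1 : ∀ g : G, ∃ y, dist p (g.1 z) ≤ R → y ∈ s ∧ g.1 z ∈ ball y (l / 2) := fun g => by
    by_cases h : dist p (g.1 z) ≤ R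
    · obtain ⟨y, hy, h2⟩ := mem_iUnion₂.1 (hc (mem_closedBall'.2 h))
      exact ⟨y, fun _ => ⟨hy, h2⟩⟩
    · exact ⟨p, fun h2 => (h h2).elim⟩
  choose f hf using h1
  refine Set.Finite.of_injOn (f := f) (fun g hg => (hf g hg).1) (fun g hg g' hg' e => ?_) hs
  by_contra hne
  have h2 := hl.sys _ (g⁻¹ * g').2 (fun h => hne (inv_mul_eq_one.1 (Subtype.ext h))) z
  rw [← hl.dist_eq g.2] at h2
  have h3 : g.1 ((g⁻¹ * g' : G).1 z) = g'.1 z := by simp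
  rw [h3] at h2
  have h4 := mem_ball.1 (hf g hg).2
  have h5 := mem_ball.1 (hf g' hg').2
  rw [← e] at h5
  linarith [dist_triangle_right (g.1 z) (g'.1 z) (f g)]

theorem finc_row (hF : FIN_s) : FINC_s := by
  intro G l hl γ k t ht h p q
  refine ((hF G l hl p (k • ax 0) (dist p q + t)).image
    (fun g : G => (g : G ⧸ Subgroup.zpowers γ))).subset ?_
  rintro _ ⟨g, rfl, hT⟩
  obtain ⟨m, hm⟩ := hl.mob g g.2
  have hm' : ∀ z, (g.1)⁻¹ z = m⁻¹ • z := fun z => by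
    rw [Equiv.Perm.inv_eq_iff_eq, hm, smul_inv_smul]
  obtain ⟨n, n1, n2⟩ := exists_norm p q
  rw [← ax_zero] at n1
  have hc : Continuous fun s => S (m * k) (n • ax s) := by
    simp only [S_ax]
    fun_prop
  obtain ⟨s, hs, h0⟩ : ∃ s ∈ Icc 0 (dist p q), S (m * k) (n • ax s) = 0 := by
    rw [T, hm', hm', ← S_mul, ← S_mul] at hT
    by_cases h1 : 0 < S (m * k) p
    · have h2 : S (m * k) q ≤ 0 := not_lt.1 fun h2 => hT (iff_of_true h1 h2)
      exact intermediate_value_Icc' dist_nonneg hc.continuousOn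
        ⟨by simpa only [n2] using h2, by simpa only [n1] using h1.le⟩
    · have h2 : 0 < S (m * k) q := not_not.1 fun h2 => hT (iff_of_false h1 h2)
      exact intermediate_value_Icc dist_nonneg hc.continuousOn
        ⟨by simpa only [n1] using not_lt.1 h1, by simpa only [n2] using h2.le⟩
  obtain ⟨u, hu⟩ := S_zero h0
  have h1 := abs_sub_round (u / t)
  generalize round (u / t) = j at h1
  have h2 : |u - j * t| ≤ t := by
    have : u - j * t = (u / t - j) * t := by field_simp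
    rw [this, abs_mul, abs_of_pos ht]
    nlinarith
  refine ⟨g * γ ^ j, ?_, QuotientGroup.eq.2 ⟨-j, by simp⟩⟩
  have h3 : (g * γ ^ j : G).1 (k • ax 0) = (m * k) • ax (0 + j * t) := by
    rw [mul_smul, ← hm, ← (h.zpow j).ax]
    simp
  have h4 := dist_triangle p (n • ax s) ((m * k) • ax (0 + j * t))
  have h5 : dist p (n • ax s) = s := by
    rw [← n1, dist_smul, dist_ax, zero_sub, abs_neg, abs_of_nonneg hs.1]
  have h6 : dist (n • ax s) ((m * k) • ax (0 + j * t)) ≤ t := by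
    rwa [hu, dist_smul, dist_ax, zero_add]
  show dist p _ ≤ _
  rw [h3]
  linarith [hs.2]

theorem sym_mono {A B s s' : ℝ} (hA : 0 < A) (h : s ≤ s')
    (h1 : 0 < A * Real.exp s + B * Real.exp (-s)) : 0 < A * Real.exp s' + B * Real.exp (-s') := by
  have e : ∀ u, A * Real.exp u + B * Real.exp (-u) = (A * Real.exp u ^ 2 + B) * Real.exp (-u) :=
    fun u => by
      have := Real.exp_pos u
      rw [Real.exp_neg]; field_simp
  rw [e, mul_pos_iff_of_pos_right (Real.exp_pos _)] at h1 ⊢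
  have := Real.exp_le_exp.2 h
  have := Real.exp_pos s
  exact h1.trans_le (by gcongr)

/-- the sign jumps between `s` and `s'` -/
def sym_J (A B s s' : ℝ) : Prop :=
  ¬ (0 < A * Real.exp s + B * Real.exp (-s) ↔ 0 < A * Real.exp s' + B * Real.exp (-s'))

theorem sym_neg {A B s s' : ℝ} (h : sym_J A B s s') : A * B < 0 := by
  by_contra hc
  have a1 := Real.exp_pos s
  have a2 := Real.exp_pos (-s)
  have a3 := Real.exp_pos s'
  have a4 := Real.exp_pos (-s')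
  refine h ?_
  rcases lt_trichotomy A 0 with hA | rfl | hA
  · have hB : B ≤ 0 := by nlinarith
    exact iff_of_false (by nlinarith) (by nlinarith)
  · simp only [zero_mul, zero_add, mul_pos_iff_of_pos_right a2, mul_pos_iff_of_pos_right a4]
  · have hB : 0 ≤ B := by nlinarith
    exact iff_of_true (by positivity) (by positivity)

theorem sym_swap {A B s s' : ℝ} : sym_J A B s s' ↔ sym_J B A (-s') (-s) := by
  rw [sym_J, sym_J, neg_neg, neg_neg, add_comm (B * _), add_comm (B * _)]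
  exact not_congr iff_comm

theorem sym_uniq_pos {A B t : ℝ} (hA : 0 < A) (ht : 0 < t) {i j : ℤ}
    (hi : sym_J A B (i * t) (i * t + t)) (hj : sym_J A B (j * t) (j * t + t)) : i ≤ j := by
  by_contra hc
  have h1 : (j : ℝ) + 1 ≤ i := by exact_mod_cast not_le.1 hc
  have h2 : j * t + t ≤ i * t := by nlinarith
  by_cases h3 : 0 < A * Real.exp (j * t + t) + B * Real.exp (-(j * t + t))
  · exact hi (iff_of_true (sym_mono hA h2 h3) (sym_mono hA (by linarith) h3))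
  · exact hj (iff_of_false (fun h4 => h3 (sym_mono hA (by linarith) h4)) h3)

theorem sym_uniq {A B t : ℝ} (ht : 0 < t) {i j : ℤ}
    (hi : sym_J A B (i * t) (i * t + t)) (hj : sym_J A B (j * t) (j * t + t)) : i = j := by
  have h := sym_neg hi
  rcases lt_or_ge 0 A with hA | hA
  · exact le_antisymm (sym_uniq_pos hA ht hi hj) (sym_uniq_pos hA ht hj hi)
  · have hB : 0 < B := by nlinarith
    have e : ∀ i : ℤ, sym_J A B (i * t) (i * t + t) →
        sym_J B A ((-i - 1 : ℤ) * t) ((-i - 1 : ℤ) * t + t) := fun i hi => by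
      rw [show ((-i - 1 : ℤ) : ℝ) * t + t = -(i * t) by push_cast; ring,
        show ((-i - 1 : ℤ) : ℝ) * t = -(i * t + t) by push_cast; ring]
      exact sym_swap.1 hi
    have a1 := sym_uniq_pos hB ht (e i hi) (e j hj)
    have a2 := sym_uniq_pos hB ht (e j hj) (e i hi)
    omega

theorem sym_ex_pos {A B t : ℝ} (hA : 0 < A) (hB : B < 0) (ht : 0 < t) :
    ∃ j : ℤ, sym_J A B (j * t) (j * t + t) := by
  have h1 : 0 < -B / A := div_pos (neg_pos.2 hB) hA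
  have e : ∀ u, 0 < A * Real.exp u + B * Real.exp (-u) ↔ Real.log (-B / A) / 2 < u := fun u => by
    have := Real.exp_pos u
    rw [div_lt_iff₀ two_pos, Real.log_lt_iff_lt_exp h1, div_lt_iff₀ hA, mul_two, Real.exp_add,
      show A * Real.exp u + B * Real.exp (-u) = (A * Real.exp u ^ 2 + B) * Real.exp (-u) by
        rw [Real.exp_neg]; field_simp, mul_pos_iff_of_pos_right (Real.exp_pos _)]
    constructor <;> intro h <;> nlinarith
  refine ⟨⌊Real.log (-B / A) / 2 / t⌋, ?_⟩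
  have a1 := Int.floor_le (Real.log (-B / A) / 2 / t)
  have a2 := Int.lt_floor_add_one (Real.log (-B / A) / 2 / t)
  rw [le_div_iff₀ ht] at a1
  rw [div_lt_iff₀ ht] at a2
  rw [sym_J, e, e]
  exact fun h => absurd (h.2 (by linarith)) (not_lt.2 a1)

theorem sym_ex {A B t : ℝ} (h : A * B < 0) (ht : 0 < t) : ∃ j : ℤ, sym_J A B (j * t) (j * t + t) := by
  rcases lt_or_ge 0 A with hA | hA
  · exact sym_ex_pos hA (by nlinarith) ht
  · obtain ⟨j, hj⟩ := sym_ex_pos (A := B) (B := A) (by nlinarith)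
      (lt_of_le_of_ne hA fun h0 => by simp [h0] at h) ht
    refine ⟨-j - 1, ?_⟩
    rw [show ((-j - 1 : ℤ) : ℝ) * t + t = -(j * t) by push_cast; ring,
      show ((-j - 1 : ℤ) : ℝ) * t = -(j * t + t) by push_cast; ring]
    exact sym_swap.1 hj

theorem sym_half {G : Subgroup (Equiv.Perm ℍ)} {l : ℝ} (hl : Fuchs G l) {γ δ : G}
    {k k' : SL(2, ℝ)} {t t' : ℝ} (ht : 0 < t) (h : Tr γ k t) (h' : Tr δ k' t') :
    (Cr γ k (k' • I) (δ.1 (k' • I))).ncard = {g : G | T k g (k' • I) (δ.1 (k' • I)) ∧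
      T k' (g⁻¹ : G) (k • I) (γ.1 (k • I))}.ncard := by
  have e1 : ∀ (g : G) (j : ℤ) p q, T k (g * γ ^ j : G) p q ↔ T k g p q := fun g j p q => by
    have : ∀ p, S k (((g * γ ^ j : G).1)⁻¹ p) = S k ((g.1)⁻¹ p) := fun p => by
      rw [← (h.zpow j).S_eq]
      simp
    rw [T, T, this, this]
  have e2 : ∀ (g : G) m, (∀ z, g.1 z = m • z) → ∀ j : ℤ,
      T k' ((g * γ ^ j : G)⁻¹ : G) (k • I) (γ.1 (k • I)) ↔
        sym_J (Af k' (m * k)) (Bf k' (m * k)) (j * t) (j * t + t) := fun g m hm j => by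
    have : ∀ s, ((((g * γ ^ j : G)⁻¹ : G).1)⁻¹) (k • ax s) = (m * k) • ax (s + j * t) := fun s => by
      rw [mul_smul, ← hm, ← (h.zpow j).ax]
      simp
    rw [T, ← ax_zero, h.ax, this, this, S_ax, S_ax, sym_J, zero_add, zero_add, add_comm t]
  symm
  refine Set.ncard_congr (fun g _ => (g : G ⧸ Subgroup.zpowers γ)) (fun g hg => ⟨g, rfl, hg.1⟩)
    (fun g g' hg hg' e => ?_) ?_
  · obtain ⟨j, hj⟩ := QuotientGroup.eq.1 e
    obtain ⟨m, hm⟩ := hl.mob g g.2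
    have a1 : g' = g * γ ^ j := by simp [show γ ^ j = g⁻¹ * g' from hj]
    have a2 := (e2 g m hm j).1 (a1 ▸ hg'.2)
    have a3 := (e2 g m hm 0).1 (by simpa using hg.2)
    rw [a1, sym_uniq ht a2 a3, zpow_zero, mul_one]
  · rintro _ ⟨g, rfl, hT⟩
    obtain ⟨m, hm⟩ := hl.mob g g.2
    have hm' : ∀ z, (g.1)⁻¹ z = m⁻¹ • z := fun z => by
      rw [Equiv.Perm.inv_eq_iff_eq, hm, smul_inv_smul]
    have a1 : Af (m * k) k' * Bf (m * k) k' < 0 := by
      have := hT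
      rw [T, hm', hm', ← S_mul, ← S_mul, ← ax_zero, h'.ax, S_ax, S_ax] at this
      exact sym_neg this
    obtain ⟨j, hj⟩ := sym_ex (AB_comm _ _ ▸ a1) ht
    exact ⟨g * γ ^ j, ⟨(e1 g j _ _).2 hT, (e2 g m hm j).2 hj⟩, QuotientGroup.eq.2 ⟨-j, by simp⟩⟩

theorem sym_row : SYM_s := by
  intro G l hl γ δ k t k' t' ht h ht' h'
  rw [sym_half hl ht h h', sym_half hl ht' h' h]
  exact Set.ncard_congr (fun g _ => g⁻¹) (fun g hg => ⟨hg.2, by simpa using hg.1⟩)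
    (fun g g' _ _ e => inv_injective e)
    (fun g hg => ⟨g⁻¹, ⟨hg.2, by simpa using hg.1⟩, inv_inv g⟩)

theorem par_T {G : Subgroup (Equiv.Perm ℍ)} {γ : G} {k : SL(2, ℝ)} {t : ℝ} (h : Tr γ k t)
    {g g' : G} (e : (g : G ⧸ Subgroup.zpowers γ) = g') (p : ℍ) :
    S k ((g'.1)⁻¹ p) = S k ((g.1)⁻¹ p) := by
  obtain ⟨j, hj⟩ := QuotientGroup.eq.1 e
  have a1 : g' = g * γ ^ j := by simp [show γ ^ j = g⁻¹ * g' from hj]
  rw [a1, ← (h.zpow j).S_eq]
  simp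

theorem par_mem {G : Subgroup (Equiv.Perm ℍ)} {γ : G} {k : SL(2, ℝ)} {t : ℝ} (h : Tr γ k t)
    (g : G) (p q : ℍ) : (g : G ⧸ Subgroup.zpowers γ) ∈ Cr γ k p q ↔ T k g p q := by
  refine ⟨?_, fun hT => ⟨g, rfl, hT⟩⟩
  rintro ⟨g', e, hT⟩
  rwa [T, par_T h e, par_T h e]

theorem par_card {X : Type} {A B C : Set X} (hA : A.Finite) (hB : B.Finite)
    (h : ∀ x, x ∈ C ↔ ¬ (x ∈ A ↔ x ∈ B)) : (C.ncard : ZMod 2) = A.ncard + B.ncard := by
  have e1 : C = (A \ B) ∪ (B \ A) := by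
    ext x
    rw [h]
    simp only [mem_union, mem_sdiff]
    tauto
  have e2 := Set.ncard_union_eq (s := A \ B) (t := B \ A) disjoint_sdiff_sdiff hA.sdiff hB.sdiff
  have e3 := Set.ncard_inter_add_ncard_sdiff_eq_ncard A B hA
  have e4 := Set.ncard_inter_add_ncard_sdiff_eq_ncard B A hB
  rw [inter_comm] at e4
  rw [e1, e2, ← e3, ← e4]
  push_cast
  have : ((A ∩ B).ncard : ZMod 2) + (A ∩ B).ncard = 0 := CharTwo.add_self_eq_zero _
  linear_combination -this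

theorem par_add (hC : FINC_s) {G : Subgroup (Equiv.Perm ℍ)} {l : ℝ} (hl : Fuchs G l) {γ : G}
    {k : SL(2, ℝ)} {t : ℝ} (ht : 0 < t) (h : Tr γ k t) (p q r : ℍ) :
    ((Cr γ k p r).ncard : ZMod 2) = (Cr γ k p q).ncard + (Cr γ k q r).ncard := by
  refine par_card (hC G l hl γ k t ht h p q) (hC G l hl γ k t ht h q r) fun c => ?_
  obtain ⟨g, rfl⟩ := QuotientGroup.mk_surjective c
  rw [par_mem h, par_mem h, par_mem h, T, T, T]
  tauto

theorem par_inv {G : Subgroup (Equiv.Perm ℍ)} {γ : G} {k : SL(2, ℝ)} {t : ℝ} (h : Tr γ k t)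
    (u : G) (p q : ℍ) : (Cr γ k (u.1 p) (u.1 q)).ncard = (Cr γ k p q).ncard := by
  symm
  have e : ∀ g : G, T k (u * g : G) (u.1 p) (u.1 q) ↔ T k g p q := fun g => by simp [T]
  refine Set.ncard_congr (fun c _ => u • c) ?_ (fun c c' _ _ e => smul_left_cancel u e) ?_
  · rintro _ ⟨g, rfl, hT⟩
    exact ⟨u * g, rfl, (e g).2 hT⟩
  · rintro _ ⟨g, rfl, hT⟩
    refine ⟨(u⁻¹ * g : G), ⟨_, rfl, (e _).1 (by rwa [mul_inv_cancel_left])⟩, ?_⟩
    show ((u * (u⁻¹ * g) : G) : G ⧸ Subgroup.zpowers γ) = g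
    rw [mul_inv_cancel_left]

theorem par_self {G : Subgroup (Equiv.Perm ℍ)} (γ : G) (k : SL(2, ℝ)) (p : ℍ) :
    (Cr γ k p p).ncard = 0 := by
  rw [show Cr γ k p p = ∅ from eq_empty_of_forall_notMem fun c ⟨g, _, hT⟩ => hT Iff.rfl,
    ncard_empty]

theorem par_null (hC : FINC_s) {G : Subgroup (Equiv.Perm ℍ)} {l : ℝ} (hl : Fuchs G l) {δ γ : G}
    {k : SL(2, ℝ)} {t : ℝ} (ht : 0 < t) (h : Tr δ k t) (hn : Null γ) (p : ℍ) :
    ((Cr δ k p (γ.1 p)).ncard : ZMod 2) = 0 :=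
  congrArg Multiplicative.toAdd (hn
    { toFun := fun g => Multiplicative.ofAdd ((Cr δ k p (g.1 p)).ncard : ZMod 2)
      map_one' := by simp [par_self]
      map_mul' := fun a b => by
        rw [← ofAdd_add, ← par_inv h a p (b.1 p), ← par_add hC hl ht h]
        rfl })

theorem par_row (hA : AXIS_s) (hC : FINC_s) (hS : SYM_s) : PAR_s := by
  intro G l hl γ k t ht h hn
  have h1 : ∀ (g : G) p, ((Cr γ k p (g.1 p)).ncard : ZMod 2) = 0 := fun g p => by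
    by_cases hg : g.1 = 1
    · simp [hg, par_self]
    obtain ⟨k', t', ht', h'⟩ := hA G l hl g g.2 hg
    have a1 := hS G l hl γ g k t k' t' ht h ht' h'
    have a2 := par_null hC hl ht' h' hn (k • I)
    have a3 := par_add hC hl ht h p (k' • I) p
    rw [par_add hC hl ht h p (k' • I), par_add hC hl ht h (k' • I) (g.1 (k' • I)), par_inv h, a1, a2,
      zero_add, ← a3, par_self, Nat.cast_zero]
  refine ⟨fun p => ((Cr γ k I p).ncard : ZMod 2) = 0, fun g p => ?_, fun p q hT => ?_,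
    fun p q g₀ h₀ hT => ?_⟩
  · simp only
    rw [par_add hC hl ht h I p, h1, add_zero]
  · simp only
    rw [par_add hC hl ht h I p q, show Cr γ k p q = ∅ from
      eq_empty_of_forall_notMem fun c ⟨g, _, h2⟩ => hT g h2, ncard_empty, Nat.cast_zero, add_zero]
  · have e : Cr γ k p q = {(g₀ : G ⧸ Subgroup.zpowers γ)} := by
      refine eq_singleton_iff_unique_mem.2 ⟨⟨g₀, rfl, h₀⟩, ?_⟩
      rintro _ ⟨g, rfl, h2⟩
      exact (QuotientGroup.eq.2 (hT g h2)).symm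
    simp only
    rw [par_add hC hl ht h I p q, e, ncard_singleton, Nat.cast_one]
    generalize ((Cr γ k I p).ncard : ZMod 2) = x
    revert x
    decide

theorem sep_row : SEP_s := by
  intro G l hl γ k t ht h g g' hg s s'
  have h1 := abs_sub_round ((s' - s) / t)
  generalize round ((s' - s) / t) = j at h1
  have h2 : |s + j * t - s'| ≤ t / 2 := by
    have : s + j * t - s' = -(((s' - s) / t - j) * t) := by field_simp; ring
    rw [this, abs_neg, abs_mul, abs_of_pos ht]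
    nlinarith
  have h3 : (g' * γ ^ j * g⁻¹ : G).1 ≠ 1 := fun h3 => hg (by
    have h4 : g' * γ ^ j * g⁻¹ = 1 := Subtype.ext h3
    rw [mul_inv_eq_one] at h4
    rw [← h4]
    exact ⟨-j, by simp⟩)
  have h4 := hl.sys _ (g' * γ ^ j * g⁻¹).2 h3 (g.1 (k • ax s))
  have h5 : (g' * γ ^ j * g⁻¹ : G).1 (g.1 (k • ax s)) = g'.1 (k • ax (s + j * t)) := by
    rw [← (h.zpow j).ax]
    simp
  rw [h5] at h4
  have h6 := dist_triangle (g.1 (k • ax s)) (g'.1 (k • ax s')) (g'.1 (k • ax (s + j * t)))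
  rw [hl.dist_eq g'.2, dist_smul, dist_ax, abs_sub_comm] at h6
  linarith

theorem geo_zero {G : Subgroup (Equiv.Perm ℍ)} {l : ℝ} (hl : Fuchs G l) {k k' : SL(2, ℝ)} {g : G}
    {a b : ℝ} (hab : a ≤ b) (hT : T k g (k' • ax a) (k' • ax b)) :
    ∃ s ∈ Icc a b, ∃ u, k' • ax s = g.1 (k • ax u) := by
  obtain ⟨m, hm⟩ := hl.mob g g.2
  have hm' : ∀ z, (g.1)⁻¹ z = m⁻¹ • z := fun z => by
    rw [Equiv.Perm.inv_eq_iff_eq, hm, smul_inv_smul]
  have hc : Continuous fun s => S (m * k) (k' • ax s) := by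
    simp only [S_ax]
    fun_prop
  obtain ⟨s, hs, h0⟩ : ∃ s ∈ Icc a b, S (m * k) (k' • ax s) = 0 := by
    rw [T, hm', hm', ← S_mul, ← S_mul] at hT
    by_cases h1 : 0 < S (m * k) (k' • ax a)
    · exact intermediate_value_Icc' hab hc.continuousOn
        ⟨not_lt.1 fun h2 => hT (iff_of_true h1 h2), h1.le⟩
    · exact intermediate_value_Icc hab hc.continuousOn
        ⟨not_lt.1 h1, (not_not.1 fun h2 => hT (iff_of_false h1 h2)).le⟩
  obtain ⟨u, hu⟩ := S_zero h0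
  exact ⟨s, hs, u, by rw [hu, hm, mul_smul]⟩

theorem geo_form {A B ζ : ℝ} (h : A * Real.exp ζ + B * Real.exp (-ζ) = 0) (s : ℝ) :
    A * Real.exp s + B * Real.exp (-s) =
      A * Real.exp ζ * (Real.exp (s - ζ) - Real.exp (-(s - ζ))) := by
  have e1 : Real.exp s = Real.exp ζ * Real.exp (s - ζ) := by rw [← Real.exp_add]; ring_nf
  have e2 : Real.exp (-s) = Real.exp (-ζ) * Real.exp (-(s - ζ)) := by rw [← Real.exp_add]; ring_nf
  rw [e1, e2]
  linear_combination Real.exp (-(s - ζ)) * h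

theorem geo_jump {k k' : SL(2, ℝ)} {ζ a b : ℝ} (hc : |cf k k'| < 1) (h : S k (k' • ax ζ) = 0)
    (ha : a < ζ) (hb : ζ < b) : ¬ (0 < S k (k' • ax a) ↔ 0 < S k (k' • ax b)) := by
  rw [S_ax] at h
  have hA : Af k k' * Real.exp ζ ≠ 0 := mul_ne_zero (fun h0 => by
    have := cf_sq k k'
    rw [h0] at this
    nlinarith [abs_lt.1 hc]) (Real.exp_pos _).ne'
  have a1 : Real.exp (a - ζ) - Real.exp (-(a - ζ)) < 0 := sub_neg.2 (Real.exp_lt_exp.2 (by linarith))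
  have a2 : 0 < Real.exp (b - ζ) - Real.exp (-(b - ζ)) := sub_pos.2 (Real.exp_lt_exp.2 (by linarith))
  rw [S_ax, S_ax, geo_form h, geo_form h]
  rcases lt_or_gt_of_ne hA with h1 | h1
  · exact fun h2 => absurd (h2.1 (mul_pos_of_neg_of_neg h1 a1)) (not_lt.2 (by nlinarith))
  · exact fun h2 => absurd (h2.2 (mul_pos h1 a2)) (not_lt.2 (by nlinarith))

theorem geo_uniq {k k' : SL(2, ℝ)} {ζ a : ℝ} (hc : |cf k k'| < 1) (h : S k (k' • ax ζ) = 0)
    (ha : S k (k' • ax a) = 0) : a = ζ := by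
  rcases lt_trichotomy a ζ with h1 | h1 | h1
  · have a1 := geo_jump hc h h1 (lt_add_one ζ)
    have a2 := geo_jump hc ha (sub_one_lt a) h1
    have a3 := geo_jump hc ha (sub_one_lt a) (h1.trans (lt_add_one ζ))
    rw [ha] at a1
    rw [h] at a2
    simp only [lt_irrefl] at a1 a2
    tauto
  · exact h1
  · have a1 := geo_jump hc h (sub_one_lt ζ) h1
    have a2 := geo_jump hc ha h1 (lt_add_one a)
    have a3 := geo_jump hc ha ((sub_one_lt ζ).trans h1) (lt_add_one a)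
    rw [ha] at a1
    rw [h] at a2
    simp only [lt_irrefl] at a1 a2
    tauto

theorem geo_nc {k₁ k₂ k₃ : SL(2, ℝ)} {ζ : ℝ} (h2 : S k₂ (k₁ • ax 0) = 0)
    (h3 : S k₃ (k₁ • ax ζ) = 0) (c2 : |cf k₂ k₁| ≤ 999 / 1000) (c3 : |cf k₃ k₁| ≤ 999 / 1000)
    (hζ : 12 ≤ ζ) (s : ℝ) : S k₃ (k₂ • ax s) ≠ 0 := by
  rw [S_ax] at h2 h3
  rw [neg_zero, Real.exp_zero, mul_one, mul_one] at h2
  have e := cf_three k₁ k₂ k₃
  have q2 := cf_sq k₂ k₁
  have q3 := cf_sq k₃ k₁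
  have q := cf_sq k₃ k₂
  rw [cf_comm] at e
  have x1 : Real.exp ζ * Real.exp (-ζ) = 1 := by rw [← Real.exp_add]; simp
  have x2 : 4000 ≤ Real.exp ζ := by
    have a1 : (2 : ℝ) ≤ Real.exp 1 := by linarith [Real.add_one_le_exp 1]
    have a2 : Real.exp 12 = Real.exp 1 ^ 12 := by rw [← Real.exp_nat_mul]; norm_num
    have a3 : (2 : ℝ) ^ 12 ≤ Real.exp 1 ^ 12 := by gcongr
    linarith [Real.exp_le_exp.2 hζ]
  have x3 := Real.exp_pos (-ζ)
  generalize Real.exp ζ = E at *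
  generalize Real.exp (-ζ) = E' at *
  have b2 : Bf k₂ k₁ = -Af k₂ k₁ := by linarith
  obtain ⟨u, hu, hu'⟩ : ∃ u, Af k₃ k₁ = u * E' ∧ Bf k₃ k₁ = -u * E :=
    ⟨Af k₃ k₁ * E, by linear_combination (-Af k₃ k₁) * x1, by
      linear_combination E * h3 - Bf k₃ k₁ * x1⟩
  rw [b2] at q2
  rw [hu, hu'] at q3
  rw [b2, hu, hu'] at e
  have d2 : 1999 / 4000000 ≤ Af k₂ k₁ ^ 2 := by nlinarith [abs_le.1 c2]
  have d3 : 1999 / 4000000 ≤ u ^ 2 := by
    have : cf k₃ k₁ ^ 2 = 1 - 4 * u ^ 2 := by linear_combination q3 - 4 * u ^ 2 * x1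
    nlinarith [abs_le.1 c3]
  have d4 : 1999 / 4000000 ≤ |Af k₂ k₁ * u| := by
    refine abs_le_of_sq_le_sq' ?_ (abs_nonneg _) |>.2
    rw [sq_abs, mul_pow]
    nlinarith
  have d5 : |cf k₂ k₁ * cf k₃ k₁| ≤ 1 := by
    rw [abs_mul]
    nlinarith [abs_nonneg (cf k₂ k₁), abs_nonneg (cf k₃ k₁)]
  have d6 : 1 < cf k₃ k₂ ^ 2 := by
    rcases le_abs.1 d4 with h | h
    · nlinarith [abs_le.1 d5, mul_le_mul h (show 4000 ≤ E + E' by linarith) (by norm_num) (by linarith)]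
    · nlinarith [abs_le.1 d5, mul_le_mul h (show 4000 ≤ E + E' by linarith) (by norm_num) (by linarith)]
  rw [S_ax]
  intro h0
  have y1 := Real.exp_pos s
  have y2 := Real.exp_pos (-s)
  have y3 : 0 < Af k₃ k₂ * Bf k₃ k₂ := by linarith
  have y4 : Af k₃ k₂ * Bf k₃ k₂ * Real.exp (-s) = -(Af k₃ k₂ ^ 2 * Real.exp s) := by
    linear_combination Af k₃ k₂ * h0
  nlinarith [mul_pos y3 y2, mul_nonneg (sq_nonneg (Af k₃ k₂)) y1.le]

theorem geo_mono {A B a b c : ℝ} (hab : a ≤ b) (hbc : b ≤ c)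
    (h : 0 < A * Real.exp a + B * Real.exp (-a) ↔ 0 < A * Real.exp c + B * Real.exp (-c)) :
    0 < A * Real.exp a + B * Real.exp (-a) ↔ 0 < A * Real.exp b + B * Real.exp (-b) := by
  have e : ∀ u, 0 < A * Real.exp u + B * Real.exp (-u) ↔ 0 < A * Real.exp u ^ 2 + B := fun u => by
    have := Real.exp_pos u
    rw [show A * Real.exp u + B * Real.exp (-u) = (A * Real.exp u ^ 2 + B) * Real.exp (-u) by
      rw [Real.exp_neg]; field_simp, mul_pos_iff_of_pos_right (Real.exp_pos _)]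
  rw [e, e] at h ⊢
  have a0 := Real.exp_pos a
  have a1 : Real.exp a ^ 2 ≤ Real.exp b ^ 2 := by gcongr
  have a2 : Real.exp b ^ 2 ≤ Real.exp c ^ 2 := by gcongr
  rcases le_total 0 A with hA | hA
  · exact ⟨fun h1 => by nlinarith, fun h1 => h.2 (by nlinarith)⟩
  · exact ⟨fun h1 => by nlinarith [h.1 h1], fun h1 => by nlinarith⟩

theorem geo_row (hS : SEP_s) : GEO_s := by
  intro G l hl h100 α β γ k₁ k₂ k₃ t₁ t₂ t₃ ζ ht₁ b₁ h₁ ht₂ b₂ h₂ ht₃ b₃ h₃ ⟨c₂, i₂, _, o₂⟩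
    ⟨c₃, i₃, z₃, o₃⟩ hx cc₂ cc₃ hζ lo hi
  rw [← ax_zero] at hx
  have s₂ : S k₂ (k₁ • ax 0) = 0 := by rw [hx, S_self, xb_ax]
  have nc := geo_nc s₂ hζ cc₂ cc₃ (by linarith)
  obtain ⟨w, hw⟩ := S_zero hζ
  have T1 : ∀ k p q, T k (1 : G) p q ↔ ¬ (0 < S k p ↔ 0 < S k q) := fun k p q => by simp [T]
  -- P1
  obtain ⟨g, y, u, hy, y1, y2⟩ : ∃ g : G, ∃ y u, k₁ • ax y = g.1 (k₂ • ax u) ∧
      l - t₂ / 2 ≤ y ∧ y ≤ t₁ - (l - t₂ / 2) := by
    by_contra hc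
    have a1 := o₂ (k₁ • ax (-1)) (k₁ • ax (-1 + t₁)) 1
      ((T1 _ _ _).2 (geo_jump (by linarith) s₂ (by norm_num) (by
        have := hl.sys α α.2 (fun h => by
          have := h₁.le_dist I
          rw [h] at this
          simp only [Equiv.Perm.coe_one, id, dist_self] at this
          linarith [le_abs_self t₁]) (k₁ • ax 0)
        rw [h₁.ax, dist_smul, dist_ax, zero_add, zero_sub, abs_neg, abs_of_pos ht₁] at this
        linarith))) fun g hT => by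
      by_contra hg
      obtain ⟨y, hy, u, e⟩ := geo_zero hl (by linarith) hT
      have a2 := hS G l hl β k₂ t₂ ht₂ h₂ 1 g hg 0 u
      rw [← e, ← hx] at a2
      simp only [OneMemClass.coe_one, Equiv.Perm.coe_one, id, dist_smul, dist_ax] at a2
      have a3 : l - t₂ / 2 ≤ y := by
        rcases le_abs.1 a2 with h | h <;> linarith [hy.1]
      have a4 : α⁻¹ * g ∉ Subgroup.zpowers β := by
        rintro ⟨j, hj⟩
        have a5 : g = α * β ^ j := by simp [show β ^ j = α⁻¹ * g from hj]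
        have a6 : k₁ • ax (y + -t₁) = k₂ • ax (u + j * t₂) := by
          rw [← h₁.inv.ax, e, a5, ← (h₂.zpow j).ax]
          simp
        have a7 := geo_uniq (by linarith) s₂ (a := y + -t₁) (by rw [a6, S_self, xb_ax])
        linarith [hy.2]
      have a5 := hS G l hl β k₂ t₂ ht₂ h₂ α g a4 0 u
      rw [← e, ← hx, h₁.ax, dist_smul, dist_ax, abs_of_nonneg (by linarith [hy.2])] at a5
      exact hc ⟨g, y, u, e, a3, by linarith⟩
    rw [← h₁.ax, i₂] at a1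
    exact iff_not_self a1
  -- P2
  have p2 := o₃ (k₁ • ax 0) (k₁ • ax y) 1
    ((T1 _ _ _).2 (geo_jump (by linarith) hζ (by linarith) (by linarith))) fun g' hT => by
    by_contra hg
    obtain ⟨s, hs, v, e⟩ := geo_zero hl (by linarith) hT
    have a2 := hS G l hl γ k₃ t₃ ht₃ h₃ 1 g' hg w v
    rw [← e, ← hw] at a2
    simp only [OneMemClass.coe_one, Equiv.Perm.coe_one, id, dist_smul, dist_ax] at a2
    rcases le_abs.1 a2 with h | h <;> linarith [hs.1, hs.2]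
  -- P3
  have p3 : ∀ (g' : G) s v, k₂ • ax s = g'.1 (k₃ • ax v) → l - t₃ / 2 - ζ ≤ |s| := fun g' s v e => by
    have hg : 1⁻¹ * g' ∉ Subgroup.zpowers γ := by
      rintro ⟨j, hj⟩
      have a5 : g' = γ ^ j := by simpa using (show γ ^ j = 1⁻¹ * g' from hj).symm
      refine nc s ?_
      rw [e, a5, show (γ ^ j : G).1 = γ.1 ^ j from rfl, (h₃.zpow j).S_eq, S_self, xb_ax]
    have a2 := hS G l hl γ k₃ t₃ ht₃ h₃ 1 g' hg w v
    rw [← e, ← hw] at a2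
    simp only [OneMemClass.coe_one, Equiv.Perm.coe_one, id] at a2
    have a3 := dist_triangle (k₁ • ax ζ) (k₁ • ax 0) (k₂ • ax s)
    rw [dist_smul, dist_ax, sub_zero, abs_of_nonneg (by linarith), hx, dist_smul, dist_ax, zero_sub,
      abs_neg] at a3
    linarith
  have p4 : ∀ g' : G, T k₃ g' (k₂ • ax 0) (k₂ • ax t₂) → ∃ s v, k₂ • ax s = g'.1 (k₃ • ax v) ∧
      l - t₃ / 2 - ζ ≤ s ∧ s ≤ t₂ - (l - t₃ / 2 - ζ) := fun g' hT => by
    obtain ⟨s, hs, v, e⟩ := geo_zero hl ht₂.le hT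
    have a1 := p3 g' s v e
    have a2 := p3 (β⁻¹ * g') (s + -t₂) v (by rw [← h₂.inv.ax, e]; simp)
    rw [abs_of_nonneg hs.1] at a1
    rw [abs_of_nonpos (by linarith [hs.2])] at a2
    exact ⟨s, v, e, a1, by linarith⟩
  have p5 : ∀ g' : G, ¬ T k₃ g' (k₂ • ax 0) (k₂ • ax t₂) := fun g' hT => by
    have a1 := o₃ _ _ g' hT fun g'' hT' => by
      by_contra hg
      obtain ⟨s, v, e, a1, a2⟩ := p4 g' hT
      obtain ⟨s', v', e', a3, a4⟩ := p4 g'' hT'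
      have a5 := hS G l hl γ k₃ t₃ ht₃ h₃ g' g'' hg v v'
      rw [← e, ← e', dist_smul, dist_ax] at a5
      rcases le_abs.1 a5 with h | h <;> linarith
    rw [show k₂ • ax t₂ = β.1 (k₂ • ax 0) by rw [h₂.ax, zero_add], i₃] at a1
    exact iff_not_self a1
  have p6 : ∀ s, c₃ (k₂ • ax 0) ↔ c₃ (k₂ • ax s) := fun s => by
    have a1 := Int.floor_le (s / t₂)
    have a2 := Int.lt_floor_add_one (s / t₂)
    rw [le_div_iff₀ ht₂] at a1
    rw [div_lt_iff₀ ht₂] at a2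
    generalize ⌊s / t₂⌋ = j at a1 a2
    rw [show s = s - j * t₂ + j * t₂ by ring, ← (h₂.zpow j).ax,
      show β.1 ^ j = (β ^ j : G).1 from rfl, i₃]
    refine z₃ _ _ fun g' hT => p5 g' fun h => hT ?_
    obtain ⟨m, hm⟩ := hl.mob g' g'.2
    have hm' : ∀ z, (g'.1)⁻¹ z = m⁻¹ • z := fun z => by
      rw [Equiv.Perm.inv_eq_iff_eq, hm, smul_inv_smul]
    rw [hm', hm', ← S_mul, ← S_mul, S_ax, S_ax] at h ⊢
    exact geo_mono (by linarith) (by linarith) h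
  rw [hy, i₃, hx, ← p6 u] at p2
  exact iff_not_self p2

theorem noasym_one (hF : FIN_s) {G : Subgroup (Equiv.Perm ℍ)} {l : ℝ} (hl : Fuchs G l) (α β : G)
    {k k' : SL(2, ℝ)} {t t' : ℝ} (ht : 0 < t) (h : Tr α k t) (ht' : 0 < t') (h' : Tr β k' t')
    (hA : Af k' k = 0) : Bf k' k = 0 := by
  have c1 : 0 < Real.cosh t' - 1 := by linarith [Real.one_lt_cosh.2 ht'.ne']
  have h1 : ∀ n : ℕ, Real.cosh (dist (k • ax 0) (((α ^ n)⁻¹ * β * α ^ n : G).1 (k • ax 0))) =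
      1 + (Real.cosh t' - 1) * (1 + (Bf k' k * Real.exp (-(n * t))) ^ 2) := fun n => by
    have a2 := (h.zpow n).ax 0
    rw [zpow_natCast, Int.cast_natCast, zero_add] at a2
    rw [← hl.dist_eq (α ^ n).2]
    have a3 : (α ^ n : G).1 (((α ^ n)⁻¹ * β * α ^ n : G).1 (k • ax 0)) =
        β.1 ((α ^ n : G).1 (k • ax 0)) := by simp
    rw [a3, show (α ^ n : G).1 = α.1 ^ n from rfl, a2, h'.cosh, S_ax, hA, zero_mul, zero_add]
  obtain ⟨i, j, hij, e⟩ := Set.Finite.exists_lt_map_eq_of_forall_mem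
    (f := fun n : ℕ => (α ^ n)⁻¹ * β * α ^ n) (fun n => by
      have a1 := h1 n
      have a2 := h1 0
      have a3 : Real.exp (-(n * t)) ≤ 1 := Real.exp_le_one_iff.2 (neg_nonpos.2 (by positivity))
      have a4 := Real.exp_pos (-(n * t))
      have a5 : (Bf k' k * Real.exp (-(n * t))) ^ 2 ≤ (Bf k' k * Real.exp (-((0 : ℕ) * t))) ^ 2 := by
        rw [mul_pow, mul_pow, Nat.cast_zero, zero_mul, neg_zero, Real.exp_zero]
        gcongr
      have a6 := Real.cosh_le_cosh.1 (a1.trans_le (le_of_le_of_eq (by gcongr) a2.symm))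
      rw [abs_of_nonneg dist_nonneg, abs_of_nonneg dist_nonneg] at a6
      exact a6) (hF G l hl (k • ax 0) (k • ax 0) _)
  have a1 := h1 i
  rw [show (α ^ i)⁻¹ * β * α ^ i = (α ^ j)⁻¹ * β * α ^ j from e, h1 j, add_right_inj,
    mul_right_inj' c1.ne', add_right_inj, mul_pow, mul_pow] at a1
  by_contra hB
  rw [mul_right_inj' (pow_ne_zero 2 hB), sq_eq_sq₀ (Real.exp_pos _).le (Real.exp_pos _).le,
    Real.exp_eq_exp, neg_inj, mul_left_inj' ht.ne', Nat.cast_inj] at a1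
  omega

theorem noasym_row (hF : FIN_s) : NOASYM_s := by
  intro G l hl α β k t k' t' ht h ht' h'
  refine ⟨noasym_one hF hl α β ht h ht' h', fun hB => ?_⟩
  have := noasym_one hF hl α⁻¹ β ht h.rev ht' h' (by rw [(coef_J_right _ _).1, hB])
  rwa [(coef_J_right _ _).2.1] at this

theorem nofol_bd {a b c : ℝ} (hc : 99 / 100 < c) (h : c ^ 2 = 1 + a ^ 2 - b ^ 2)
    (hn : |5 / 4 * a - 3 / 4 * c| ≤ 1 / 1000) :
    c ≤ 1252 / 1000 ∧ 3 / 5 * c - 8 / 10000 ≤ a ∧ a ≤ 752 / 1000 ∧ |b| ≤ 612 / 1000 := by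
  obtain ⟨h1, h2⟩ := abs_le.1 hn
  have h3 : a ^ 2 ≤ (3 / 5 * c + 8 / 10000) ^ 2 := by nlinarith
  have h4 : c ≤ 1252 / 1000 := by nlinarith [sq_nonneg b]
  exact ⟨h4, by linarith, by linarith, abs_le_of_sq_le_sq (by nlinarith) (by norm_num)⟩

theorem nofol_loc {a b c a' b' c' x y : ℝ} (hc : 99 / 100 < c) (h : c ^ 2 = 1 + a ^ 2 - b ^ 2)
    (hn : |5 / 4 * a - 3 / 4 * c| ≤ 1 / 1000) (hb : 0 ≤ b) (hc' : 99 / 100 < c')
    (h' : c' ^ 2 = 1 + a' ^ 2 - b' ^ 2) (hn' : |5 / 4 * a' - 3 / 4 * c'| ≤ 1 / 1000) (hb' : b' ≤ 0)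
    (x1 : 25 / 24 ≤ x) (x2 : x ≤ 1171 / 1000) (y1 : 0 ≤ y) (y2 : y ≤ 608 / 1000) :
    |c * c' - ((a * a' - b * b') * x + (b * a' - a * b') * y)| ≤ 99 / 100 := by
  obtain ⟨a1, a2, a3, a4⟩ := nofol_bd hc h hn
  obtain ⟨b1, b2, b3, b4⟩ := nofol_bd hc' h' hn'
  obtain ⟨-, a5⟩ := abs_le.1 a4
  obtain ⟨b5, -⟩ := abs_le.1 b4
  have p0 : 0 ≤ a := by linarith
  have p0' : 0 ≤ a' := by linarith
  have p1 : (3 / 5 * c - 8 / 10000) * (3 / 5 * c' - 8 / 10000) ≤ a * a' :=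
    mul_le_mul a2 b2 (by linarith) p0
  have p2 : a * a' ≤ 752 / 1000 * (752 / 1000) := mul_le_mul a3 b3 p0' (by norm_num)
  have p3 : 0 ≤ b * -b' := mul_nonneg hb (by linarith)
  have p4 : b * -b' ≤ 612 / 1000 * (612 / 1000) := mul_le_mul a5 (by linarith) (by linarith) (by norm_num)
  have p5 : 0 ≤ b * a' := mul_nonneg hb p0'
  have p6 : b * a' ≤ 612 / 1000 * (752 / 1000) := mul_le_mul a5 b3 p0' (by norm_num)
  have p7 : 0 ≤ a * -b' := mul_nonneg p0 (by linarith)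
  have p8 : a * -b' ≤ 752 / 1000 * (612 / 1000) := mul_le_mul a3 (by linarith) (by linarith) (by norm_num)
  have p9 : c * c' ≤ 1252 / 1000 * (1252 / 1000) := mul_le_mul a1 b1 (by linarith) (by norm_num)
  have p10 : 99 / 100 * (99 / 100) ≤ c * c' := mul_le_mul hc.le hc'.le (by norm_num) (by linarith)
  have q1 : (a * a' - b * b') * (25 / 24) ≤ (a * a' - b * b') * x :=
    mul_le_mul_of_nonneg_left x1 (by nlinarith)
  have q2 : (a * a' - b * b') * x ≤ (a * a' - b * b') * (1171 / 1000) :=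
    mul_le_mul_of_nonneg_left x2 (by nlinarith)
  have q3 : 0 ≤ (b * a' - a * b') * y := mul_nonneg (by linarith) y1
  have q4 : (b * a' - a * b') * y ≤ (b * a' - a * b') * (608 / 1000) :=
    mul_le_mul_of_nonneg_left y2 (by linarith)
  rw [abs_le]
  constructor <;> nlinarith

/-- a line of the family passes near the point of size `u` on the side `s` of `k`, with slope sign `e` -/
def nofol_P (F : Set SL(2, ℝ)) (k : SL(2, ℝ)) (s e u : ℝ) : Prop :=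
  ∃ k' ∈ F, 99 / 100 < cf k' k ∧
    |5 / 4 * (s * (Af k' k * u + Bf k' k / u)) - 3 / 4 * cf k' k| ≤ 1 / 1000 ∧
    0 ≤ e * (s * (Af k' k * u - Bf k' k / u))

theorem nofol_step {F : Set SL(2, ℝ)} (H : ∀ k ∈ F, ∀ k' ∈ F, 99 / 100 < |cf k' k|)
    {k : SL(2, ℝ)} {s u v : ℝ} (hs : s ^ 2 = 1) (hu : 0 < u) (v1 : 4 / 3 ≤ v) (v2 : v ≤ 16 / 9)
    (h : nofol_P F k s 1 u) : ¬ nofol_P F k s (-1) (u * v) := by
  obtain ⟨k', m', c', n', b'⟩ := h
  rintro ⟨k'', m'', c'', n'', b''⟩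
  have hv : 0 < v := by linarith
  have w1 : 1 / v ≤ 3 / 4 := by rw [div_le_iff₀ hv]; linarith
  have w2 : 9 / 16 ≤ 1 / v := by rw [le_div_iff₀ hv]; linarith
  have w3 : v * (1 / v) = 1 := by field_simp
  have := nofol_loc (b := s * (Af k' k * u - Bf k' k / u)) c'
    (by rw [cf_sq, mul_pow, mul_pow, hs]; field_simp; ring) n' (by linarith)
    (b' := s * (Af k'' k * (u * v) - Bf k'' k / (u * v))) c''
    (by rw [cf_sq, mul_pow, mul_pow, hs]; field_simp; ring) n'' (by linarith)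
    (x := (v + 1 / v) / 2) (y := (v - 1 / v) / 2) (by nlinarith) (by nlinarith) (by linarith)
    (by linarith)
  refine absurd (H k'' m'' k' m') (not_lt.2 (le_of_eq_of_le ?_ this))
  rw [cf_three k]
  congr 2
  have e : ∀ a b a' b' x y : ℝ, (s * a * (s * a') - s * b * (s * b')) * x +
      (s * b * (s * a') - s * a * (s * b')) * y =
      s ^ 2 * ((a * a' - b * b') * x + (b * a' - a * b') * y) := fun _ _ _ _ _ _ => by ring
  rw [e, hs]
  field_simp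
  ring

theorem nofol_ex {F : Set SL(2, ℝ)} (H : ∀ k ∈ F, ∀ k' ∈ F, 99 / 100 < |cf k' k|)
    (hJ : ∀ k ∈ F, k * J ∈ F) (hc : ∀ z, ∃ k ∈ F, |S k z| ≤ 1 / 1000) {k : SL(2, ℝ)} (hk : k ∈ F)
    (z : ℍ) : ∃ k' ∈ F, 99 / 100 < cf k' k ∧ |S k' z| ≤ 1 / 1000 := by
  obtain ⟨k', m', h⟩ := hc z
  rcases lt_abs.1 (H k hk k' m') with h1 | h1
  · exact ⟨k', m', h1, h⟩
  · exact ⟨k' * J, hJ k' m', by rwa [(coef_J_left _ _).2.2], by rwa [S_J, abs_neg]⟩

theorem nofol_or {F : Set SL(2, ℝ)} (H : ∀ k ∈ F, ∀ k' ∈ F, 99 / 100 < |cf k' k|)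
    (hJ : ∀ k ∈ F, k * J ∈ F) (hc : ∀ z, ∃ k ∈ F, |S k z| ≤ 1 / 1000) {k : SL(2, ℝ)} (hk : k ∈ F)
    {s u : ℝ} (hs : s ^ 2 = 1) (hu : 0 < u) : nofol_P F k s 1 u ∨ nofol_P F k s (-1) u := by
  obtain ⟨k', m', c', h⟩ := nofol_ex H hJ hc hk (k • pt (-s * (3 / 5 * u)) (4 / 5 * u) (by positivity))
  have e : 5 / 4 * (s * (Af k' k * u + Bf k' k / u)) - 3 / 4 * cf k' k =
      s * S k' (k • pt (-s * (3 / 5 * u)) (4 / 5 * u) (by positivity)) := by
    rw [S_smul, xa, xb, xc, pt_re, pt_im, mul_pow (-s), neg_sq, hs]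
    field_simp
    linear_combination (15 * cf k' k * u) * hs
  have h1 : |s| = 1 := by rw [← sq_eq_sq₀ (abs_nonneg _) zero_le_one, sq_abs, hs, one_pow]
  have h2 : |5 / 4 * (s * (Af k' k * u + Bf k' k / u)) - 3 / 4 * cf k' k| ≤ 1 / 1000 := by
    rwa [e, abs_mul, h1, one_mul]
  rcases le_total 0 (s * (Af k' k * u - Bf k' k / u)) with h3 | h3
  · exact Or.inl ⟨k', m', c', h2, by linarith⟩
  · exact Or.inr ⟨k', m', c', h2, by linarith⟩

theorem nofol_far {F : Set SL(2, ℝ)} (H : ∀ k ∈ F, ∀ k' ∈ F, 99 / 100 < |cf k' k|)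
    (hJ : ∀ k ∈ F, k * J ∈ F) (hc : ∀ z, ∃ k ∈ F, |S k z| ≤ 1 / 1000) {k : SL(2, ℝ)} (hk : k ∈ F)
    {s u : ℝ} (hs : s ^ 2 = 1) (hu : 0 < u) (h : nofol_P F k s 1 u) (n : ℕ) :
    ∀ v, 4 / 3 ≤ v → v ≤ (4 / 3) ^ (n + 2) → ¬ nofol_P F k s (-1) (u * v) := by
  induction n with
  | zero => exact fun v v1 v2 => nofol_step H hs hu v1 (by linarith) h
  | succ n ih =>
    intro v v1 v2
    rcases le_total v (16 / 9) with h1 | h1
    · exact nofol_step H hs hu v1 h1 h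
    · have h2 : 0 < u * (v * (3 / 4)) := by positivity
      have h3 := (nofol_or H hJ hc hk hs h2).resolve_right
        (ih _ (by linarith) (by rw [pow_succ] at v2; linarith))
      have h4 := nofol_step H hs h2 le_rfl (by norm_num) h3
      rwa [show u * (v * (3 / 4)) * (4 / 3) = u * v by ring] at h4

theorem nofol_T {A B c : ℝ} (h : c ^ 2 = 1 + 4 * A * B) (c1 : 0 < c) (c2 : c ≤ 5 / 4) (hA : 0 < A) :
    ∃ u > 0, A * u + B / u = 3 / 5 * c ∧ 0 ≤ A * u - B / u := by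
  have h1 : 0 ≤ 1 - 16 / 25 * c ^ 2 := by nlinarith
  have h2 := Real.sq_sqrt h1
  have h3 := Real.sqrt_nonneg (1 - 16 / 25 * c ^ 2)
  generalize √(1 - 16 / 25 * c ^ 2) = r at h2 h3
  have h4 : 0 < 3 / 5 * c + r := by linarith
  have h5 : A * ((3 / 5 * c + r) / (2 * A)) = (3 / 5 * c + r) / 2 := by field_simp
  have h6 : B / ((3 / 5 * c + r) / (2 * A)) = (3 / 5 * c - r) / 2 := by
    rw [div_div_eq_mul_div, div_eq_iff h4.ne']
    linear_combination h2 / 2 - h / 2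
  exact ⟨(3 / 5 * c + r) / (2 * A), div_pos h4 (by linarith), by rw [h5, h6]; ring, by rw [h5, h6]; linarith⟩

theorem nofol_row : NOFOL_s := by
  intro F hJ hp hc hA
  by_contra H
  push Not at H
  have U : ∀ k ∈ F, ∀ s u u', s ^ 2 = 1 → 0 < u → 0 < u' → nofol_P F k s 1 u →
      ¬ nofol_P F k s (-1) u' := fun k hk s u u' hs hu hu' h => by
    obtain ⟨t, ht, hp⟩ := hp k hk
    have h1 : ∀ n : ℕ, nofol_P F k s 1 (u * Real.exp (-t) ^ n) := fun n => by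
      induction n with
      | zero => simpa using h
      | succ n ih =>
        obtain ⟨k', m', c', n', b'⟩ := ih
        obtain ⟨k'', m'', e1, e2, e3⟩ := hp k' m'
        have a0 := Real.exp_pos t
        have a1 : Af k'' k * (u * Real.exp (-t) ^ (n + 1)) = Af k' k * (u * Real.exp (-t) ^ n) := by
          rw [e1, pow_succ, Real.exp_neg]; field_simp
        have a2 : Bf k'' k / (u * Real.exp (-t) ^ (n + 1)) = Bf k' k / (u * Real.exp (-t) ^ n) := by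
          rw [e2, pow_succ, Real.exp_neg]; field_simp
        exact ⟨k'', m'', by rwa [e3], by rwa [a1, a2, e3], by rwa [a1, a2]⟩
    obtain ⟨n, hn⟩ := exists_pow_lt_of_lt_one (show 0 < u' / u * (3 / 4) by positivity)
      (Real.exp_lt_one_iff.2 (neg_neg_of_pos ht))
    have h2 : 0 < u * Real.exp (-t) ^ n := by positivity
    obtain ⟨j, hj⟩ := pow_unbounded_of_one_lt (u' / (u * Real.exp (-t) ^ n))
      (show (1 : ℝ) < 4 / 3 by norm_num)
    have h3 := nofol_far H hJ hc hk hs h2 (h1 n) j (u' / (u * Real.exp (-t) ^ n)) (by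
      rw [le_div_iff₀ h2]
      rw [div_mul_eq_mul_div, lt_div_iff₀ hu] at hn
      linarith) (hj.le.trans (pow_le_pow_right₀ (by norm_num) (by omega)))
    rwa [mul_div_cancel₀ _ h2.ne'] at h3
  have Tp : ∀ k, ∀ k' ∈ F, ∀ s : ℝ, s ^ 2 = 1 → 99 / 100 < cf k' k → cf k' k ≤ 5 / 4 →
      0 < s * Af k' k → ∃ u > 0, nofol_P F k s 1 u := fun k k' m' s hs c1 c2 h => by
    obtain ⟨u, hu, e1, e2⟩ := nofol_T (B := s * Bf k' k) (c := cf k' k)
      (by rw [cf_sq]; linear_combination (-4 * Af k' k * Bf k' k) * hs) (by linarith) c2 h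
    refine ⟨u, hu, k', m', c1, ?_, ?_⟩
    · rw [show s * (Af k' k * u + Bf k' k / u) = 3 / 5 * cf k' k by rw [← e1]; ring]
      norm_num [show 5 / 4 * (3 / 5 * cf k' k) - 3 / 4 * cf k' k = 0 by ring]
    · exact e2.trans_eq (by ring)
  have Tm : ∀ k, ∀ k' ∈ F, ∀ s : ℝ, s ^ 2 = 1 → 99 / 100 < cf k' k → cf k' k ≤ 5 / 4 →
      0 < s * Bf k' k → ∃ u > 0, nofol_P F k s (-1) u := fun k k' m' s hs c1 c2 h => by
    obtain ⟨u, hu, e1, e2⟩ := nofol_T (B := s * Af k' k) (c := cf k' k)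
      (by rw [cf_sq]; linear_combination (-4 * Af k' k * Bf k' k) * hs) (by linarith) c2 h
    refine ⟨u⁻¹, inv_pos.2 hu, k', m', c1, ?_, ?_⟩
    · rw [show s * (Af k' k * u⁻¹ + Bf k' k / u⁻¹) = 3 / 5 * cf k' k by
        rw [← e1, div_inv_eq_mul]; ring]
      norm_num [show 5 / 4 * (3 / 5 * cf k' k) - 3 / 4 * cf k' k = 0 by ring]
    · exact e2.trans_eq (by rw [div_inv_eq_mul]; ring)
  have K : ∀ k ∈ F, ∀ k' ∈ F, ∀ k'' ∈ F, 99 / 100 < cf k' k → cf k' k ≤ 5 / 4 →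
      99 / 100 < cf k'' k → cf k'' k ≤ 5 / 4 → Af k' k ≠ 0 → Af k'' k ≠ 0 →
      0 < Af k' k * Af k'' k := fun k hk k' m' k'' m'' c1 c2 c3 c4 a1 a2 => by
    by_contra hn
    have hB : Bf k' k ≠ 0 := fun h => a1 ((hA k hk k' m').2 h)
    obtain ⟨s, hs, hs'⟩ : ∃ s : ℝ, s ^ 2 = 1 ∧ 0 < s * Bf k' k := by
      rcases lt_or_gt_of_ne hB with h | h
      · exact ⟨-1, by norm_num, by linarith⟩
      · exact ⟨1, by norm_num, by linarith⟩
    obtain ⟨u', hu', h'⟩ := Tm k k' m' s hs c1 c2 hs'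
    have s0 : s ≠ 0 := fun h => by simp [h] at hs
    rcases lt_or_gt_of_ne (mul_ne_zero s0 a1) with h | h
    · rcases lt_or_gt_of_ne (mul_ne_zero s0 a2) with h2 | h2
      · exact hn ((mul_pos_of_neg_of_neg h h2).trans_eq
          (by linear_combination (Af k' k * Af k'' k) * hs))
      · obtain ⟨u, hu, h3⟩ := Tp k k'' m'' s hs c3 c4 h2
        exact U k hk s u u' hs hu hu' h3 h'
    · obtain ⟨u, hu, h3⟩ := Tp k k' m' s hs c1 c2 h
      exact U k hk s u u' hs hu hu' h3 h'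
  obtain ⟨k, hk, -⟩ := hc I
  have N : ∀ x : ℝ, x ^ 2 = 1 / 100 → ∃ k' ∈ F, 99 / 100 < cf k' k ∧ cf k' k ≤ 101 / 100 ∧
      |S k' (k • pt x 1 one_pos)| ≤ 1 / 1000 ∧ |Af k' k| ≤ 15 / 100 ∧ |Bf k' k| ≤ 15 / 100 ∧
      Af k' k ≠ 0 := fun x hx => by
    obtain ⟨k', m', c', h⟩ := nofol_ex H hJ hc hk (k • pt x 1 one_pos)
    have h0 := h
    rw [S_smul, xa, xb, xc, pt_re, pt_im, hx] at h
    norm_num at h
    obtain ⟨h1, h2⟩ := abs_le.1 h
    have q := cf_sq k' k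
    have x1 : |x| = 1 / 10 := by
      rw [← sq_eq_sq₀ (abs_nonneg _) (by norm_num), sq_abs, hx]; norm_num
    have x2 : |cf k' k * x| = cf k' k / 10 := by rw [abs_mul, x1, abs_of_pos (by linarith)]; ring
    have x3 := le_abs_self (cf k' k * x)
    have x4 := neg_abs_le (cf k' k * x)
    have y1 : (Af k' k * (101 / 100) + Bf k' k) ^ 2 ≤ (cf k' k / 10 + 1 / 1000) ^ 2 :=
      sq_le_sq' (by linarith) (by linarith)
    have y2 : cf k' k ≤ 101 / 100 := by nlinarith [sq_nonneg (Af k' k * (101 / 100) - Bf k' k)]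
    have y3 : (Af k' k * (101 / 100) + Bf k' k) ^ 2 ≤ (102 / 1000) ^ 2 := y1.trans (by nlinarith)
    have y4 : (Af k' k * (101 / 100) - Bf k' k) ^ 2 ≤ (18 / 100) ^ 2 := by nlinarith
    obtain ⟨y5, y6⟩ := abs_le.1 (abs_le_of_sq_le_sq y3 (by norm_num))
    obtain ⟨y7, y8⟩ := abs_le.1 (abs_le_of_sq_le_sq y4 (by norm_num))
    refine ⟨k', m', c', y2, h0, abs_le.2 ⟨by linarith, by linarith⟩,
      abs_le.2 ⟨by linarith, by linarith⟩, fun a0 => ?_⟩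
    rw [a0, (hA k hk k' m').1 a0, zero_mul, zero_add, add_zero, x2] at h
    linarith
  obtain ⟨k₁, m₁, c₁, d₁, s₁, a₁, b₁, n₁⟩ := N (1 / 10) (by norm_num)
  obtain ⟨k₂, m₂, c₂, d₂, s₂, a₂, b₂, n₂⟩ := N (-1 / 10) (by norm_num)
  have e := cf_three k k₂ k₁
  have g1 : |Af k₂ k * Bf k₁ k| ≤ 15 / 100 * (15 / 100) := by
    rw [abs_mul]; exact mul_le_mul a₂ b₁ (abs_nonneg _) (by norm_num)
  have g2 : |Bf k₂ k * Af k₁ k| ≤ 15 / 100 * (15 / 100) := by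
    rw [abs_mul]; exact mul_le_mul b₂ a₁ (abs_nonneg _) (by norm_num)
  have g3 : cf k₂ k * cf k₁ k ≤ 101 / 100 * (101 / 100) := mul_le_mul d₂ d₁ (by linarith) (by norm_num)
  have g4 : 99 / 100 * (99 / 100) ≤ cf k₂ k * cf k₁ k :=
    mul_le_mul c₂.le c₁.le (by norm_num) (by linarith)
  obtain ⟨g5, g6⟩ := abs_le.1 g1
  obtain ⟨g7, g8⟩ := abs_le.1 g2
  have c3 : 99 / 100 < cf k₂ k₁ := by
    have := H k₁ m₁ k₂ m₂
    rwa [abs_of_pos (by linarith)] at this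
  have d3 : cf k₂ k₁ ≤ 5 / 4 := by linarith
  have n3 : Af k₂ k₁ ≠ 0 := fun a0 => by
    have b0 := (hA k₁ m₁ k₂ m₂).1 a0
    have f1 : ∀ z, S k₂ z = cf k₂ k₁ * S k₁ z := fun z => by
      obtain ⟨w, rfl⟩ := MulAction.surjective k₁ z
      simp only [S_smul k₂, S_self, a0, b0]
      ring
    have f2 := f1 (k • pt (1 / 10) 1 one_pos)
    have f3 : |S k₂ (k • pt (1 / 10) 1 one_pos)| ≤ 5 / 4 * (1 / 1000) := by
      rw [f2, abs_mul, abs_of_pos (by linarith)]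
      exact mul_le_mul d3 s₁ (abs_nonneg _) (by norm_num)
    rw [S_smul, xa, xb, xc, pt_re, pt_im] at f3 s₂
    norm_num at f3 s₂
    linarith [abs_le.1 f3, abs_le.1 s₂]
  have o1 := Af_opp (k := k₁) (k' := k) (by linarith) n₁
  have o2 := Af_opp (k := k₂) (k' := k) (by linarith) n₂
  have o3 := Af_opp (k := k₂) (k' := k₁) (by linarith) n3
  have z1 : Af k k₁ ≠ 0 := fun h => by simp [h] at o1
  have z2 : Af k k₂ ≠ 0 := fun h => by simp [h] at o2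
  have z3 : Af k₁ k₂ ≠ 0 := fun h => by simp [h] at o3
  have r0 := K k hk k₁ m₁ k₂ m₂ c₁ (by linarith) c₂ (by linarith) n₁ n₂
  have r1 := K k₁ m₁ k hk k₂ m₂ (by rwa [cf_comm]) (by rw [cf_comm]; linarith) c3 d3 z1 n3
  have r2 := K k₂ m₂ k hk k₁ m₁ (by rwa [cf_comm]) (by rw [cf_comm]; linarith) (by rwa [cf_comm])
    (by rwa [cf_comm]) z2 z3
  have w1 := mul_pos (mul_pos r0 r1) r2
  have w2 := mul_neg_of_pos_of_neg (mul_pos_of_neg_of_neg o1 o2) o3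
  exact absurd (w1.trans_eq (by ring)) (not_lt.2 w2.le)

theorem morse_alg {A B c a₁ b₁ c₁ a₂ b₂ c₂ η : ℝ} (hc : c ^ 2 = 1 + 4 * A * B)
    (r₁ : a₁ * c₁ = 1 + b₁ ^ 2) (r₂ : a₂ * c₂ = 1 + b₂ ^ 2) (hη : η ≤ 1 / 600000000)
    (h₁ : |(a₁ + c₁) / 2 - 5 / 4| ≤ 2 * η * (5 / 4)) (h₂ : |(a₂ + c₂) / 2 - 5 / 4| ≤ 2 * η * (5 / 4))
    (h₃ : |(a₁ * c₂ + c₁ * a₂) / 2 - b₁ * b₂ - 17 / 8| ≤ 2 * η * (17 / 8)) :
    12 / 5 * |A + B| ≤
      |A * c₁ + c * b₁ + B * a₁| + |A * c₂ + c * b₂ + B * a₂| + 1 / 3000 := by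
  obtain ⟨p1, p2⟩ := abs_le.1 h₁
  obtain ⟨p3, p4⟩ := abs_le.1 h₂
  obtain ⟨p5, -⟩ := abs_le.1 h₃
  obtain ⟨H, hH⟩ : ∃ H, H = (a₁ + c₁) / 2 + (a₂ + c₂) / 2 := ⟨_, rfl⟩
  obtain ⟨U, hU⟩ : ∃ U, U = (c₁ - a₁) / 2 + (c₂ - a₂) / 2 := ⟨_, rfl⟩
  obtain ⟨V, hV⟩ : ∃ V, V = b₁ + b₂ := ⟨_, rfl⟩
  have e1 : U ^ 2 + V ^ 2 = H ^ 2 - 2 - 2 * ((a₁ * c₂ + c₁ * a₂) / 2 - b₁ * b₂) := by
    rw [hH, hU, hV]
    linear_combination (-1 : ℝ) * r₁ - r₂
  have H1 : H ≤ 5 / 2 + 1 / 120000000 := by linarith only [hH, p2, p4, hη]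
  have H2 : 249 / 100 ≤ H := by linarith only [hH, p1, p3, hη]
  have H3 : H ^ 2 ≤ (5 / 2 + 1 / 120000000) ^ 2 := pow_le_pow_left₀ (by linarith only [H2]) H1 2
  have e2 : U ^ 2 + V ^ 2 ≤ (1 / 3000) ^ 2 := by linarith only [e1, H3, p5, hη]
  have a0 := abs_nonneg (A + B)
  have e3 : (A - B) ^ 2 + c ^ 2 ≤ (1 + |A + B|) ^ 2 := by
    linarith only [hc, a0, sq_abs (A + B)]
  have e4 : |(A - B) * U + c * V| ≤ (1 + |A + B|) * (1 / 3000) := by
    refine abs_le_of_sq_le_sq' ?_ (by positivity) |> abs_le.2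
    rw [mul_pow]
    refine le_trans ?_ (mul_le_mul e3 e2 (by positivity) (by positivity))
    linarith only [sq_nonneg ((A - B) * V - c * U)]
  have e5 : (A + B) * H = A * c₁ + c * b₁ + B * a₁ + (A * c₂ + c * b₂ + B * a₂) -
      ((A - B) * U + c * V) := by
    rw [hH, hU, hV]
    ring
  have e6 : |(A + B) * H| ≤ |A * c₁ + c * b₁ + B * a₁| + |A * c₂ + c * b₂ + B * a₂| +
      |(A - B) * U + c * V| := by
    rw [e5]
    exact (abs_sub _ _).trans (add_le_add (abs_add_le _ _) le_rfl)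
  rw [abs_mul, abs_of_nonneg (show 0 ≤ H by linarith only [H2])] at e6
  linarith only [e4, e6, a0, mul_le_mul_of_nonneg_left H2 a0]

theorem morse_three (k : SL(2, ℝ)) {p q r : ℍ} {η : ℝ} (hη : η ≤ 1 / 600000000)
    (h₁ : |dist p q - Real.log 2| ≤ η) (h₂ : |dist r q - Real.log 2| ≤ η)
    (h₃ : |dist p r - Real.log 4| ≤ η) :
    12 / 5 * |S k q| ≤ |S k p| + |S k r| + 1 / 3000 := by
  obtain ⟨m, rfl⟩ := MulAction.exists_smul_eq SL(2, ℝ) I q
  obtain ⟨p, rfl⟩ := MulAction.surjective m p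
  obtain ⟨r, rfl⟩ := MulAction.surjective m r
  simp only [dist_smul] at h₁ h₂ h₃
  have η1 : η ≤ 1 := by linarith only [hη]
  have c2 : Real.cosh (Real.log 2) = 5 / 4 := by rw [Real.cosh_log two_pos]; norm_num
  have c4 : Real.cosh (Real.log 4) = 17 / 8 := by rw [Real.cosh_log four_pos]; norm_num
  have g₁ := cosh_close h₁ η1
  have g₂ := cosh_close h₂ η1
  have g₃ := cosh_close h₃ η1
  rw [c_a, c2] at g₁ g₂
  rw [cosh_X, c4] at g₃
  have e : S k (m • I) = Af k m + Bf k m := by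
    rw [← ax_zero, S_ax, neg_zero, Real.exp_zero, mul_one, mul_one]
  simp only [e, S_smul k m p, S_smul k m r]
  exact morse_alg (cf_sq k m) (x_rel p) (x_rel r) hη g₁ g₂ g₃

theorem morse_bd (k : SL(2, ℝ)) (z : ℍ) : |S k z| ≤ Real.cosh (dist z (k • I)) := by
  obtain ⟨w, rfl⟩ := MulAction.surjective k z
  simp only [dist_smul, S_self, c_a]
  have h1 := xa_pos w
  have h2 := xc_pos w
  refine abs_le.2 (abs_le_of_sq_le_sq' ?_ (by positivity))
  linarith only [x_rel w, sq_nonneg (xa w - xc w)]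

theorem morse_row : MORSE_s := by
  refine ⟨1 / 2000000000, by norm_num, fun e e0 e1 φ hφ g g' k t k' t' t0 hg hg' h => ?_⟩
  have per : Function.Periodic (fun s => |S k' (φ (k • ax s))|) t := fun s => by
    simp only [← hg.ax s, h, hg'.S_eq]
  have bd : BddAbove (range fun s => |S k' (φ (k • ax s))|) := by
    refine ⟨Real.cosh (t + e * (1 + t) + dist (φ (k • ax 0)) (k' • I)), ?_⟩
    rintro _ ⟨s, rfl⟩
    obtain ⟨u, ⟨u0, u1⟩, hu⟩ := per.exists_mem_Ico₀ t0 s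
    refine hu.trans_le ((morse_bd k' _).trans (Real.cosh_le_cosh.2 ?_))
    have h1 : dist (φ (k • ax u)) (φ (k • ax 0)) ≤ t + e * (1 + t) :=
      hφ.ub e0 (by rw [dist_smul, dist_ax, sub_zero, abs_of_nonneg u0]; exact u1.le)
    rw [abs_of_nonneg dist_nonneg]
    refine le_trans ?_ (le_abs_self _)
    linarith only [h1, dist_triangle (φ (k • ax u)) (φ (k • ax 0)) (k' • I)]
  have l0 : 0 < Real.log 2 := Real.log_pos one_lt_two
  have l1 : Real.log 2 ≤ 1 := by linarith only [Real.log_two_lt_d9]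
  have l4 : Real.log 4 = 2 * Real.log 2 := by
    rw [show (4 : ℝ) = 2 ^ 2 by norm_num, Real.log_pow, Nat.cast_ofNat]
  have q : ∀ a b d : ℝ, |a - b| = d → d ≤ 2 →
      |dist (φ (k • ax a)) (φ (k • ax b)) - d| ≤ e * (1 + 2) := fun a b d hd d2 => by
    have h1 : dist (k • ax a) (k • ax b) = d := by rw [dist_smul, dist_ax, hd]
    exact h1 ▸ hφ.le e0 (h1.trans_le d2)
  have le := le_ciSup bd
  have key : ∀ s, |S k' (φ (k • ax s))| ≤
      5 / 12 * (2 * (⨆ s, |S k' (φ (k • ax s))|) + 1 / 3000) := fun s => by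
    have h1 := morse_three k' (η := e * (1 + 2)) (by linarith only [e1])
      (q (s + Real.log 2) s _ (by rw [add_sub_cancel_left, abs_of_pos l0]) (by linarith only [l1]))
      (q (s - Real.log 2) s _ (by rw [sub_sub_cancel_left, abs_neg, abs_of_pos l0])
        (by linarith only [l1]))
      (q (s + Real.log 2) (s - Real.log 2) _
        (by rw [add_sub_sub_cancel, ← two_mul, ← l4, abs_of_pos (by linarith only [l4, l0])])
        (by linarith only [l4, l1]))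
    linarith only [h1, le (s + Real.log 2), le (s - Real.log 2)]
  intro s
  linarith only [le s, ciSup_le key]

theorem len_row : LEN_s := by
  intro e he φ hq g g' k t k' t' ht h h' hφ
  have h1 : ∀ n : ℕ, ∀ z, φ ((g ^ n) z) = (g' ^ n) (φ z) := fun n => by
    induction n with
    | zero => simp
    | succ n ih => intro z; rw [pow_succ', pow_succ', Equiv.Perm.mul_apply, hφ, ih]; rfl
  have h2 : ∀ n : ℕ, n * t' ≤ n * t + e * (1 + n * t) := fun n => by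
    have a1 := (h'.zpow n).le_dist (φ (k • ax 0))
    have a2 := (h.zpow n).ax 0
    rw [zpow_natCast] at a1 a2
    rw [← h1, a2] at a1
    have a3 := hq.ub he (a := k • ax 0) (b := k • ax (0 + ((n : ℤ) : ℝ) * t)) (T := n * t) (by
      rw [dist_smul, dist_ax, zero_add, zero_sub, abs_neg, Int.cast_natCast,
        abs_of_nonneg (by positivity)])
    rw [Int.cast_natCast] at a1 a3
    linarith [le_abs_self (n * t')]
  by_contra hc
  obtain ⟨n, hn⟩ := exists_nat_gt (e / (t' - (1 + e) * t))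
  rw [div_lt_iff₀ (by linarith)] at hn
  nlinarith [h2 n]

theorem angle_pair {z w : ℍ} (z0 : |(xa z + xc z) / 2 - 5 / 4| ≤ 5 / 100000)
    (w0 : |(xa w + xc w) / 2 - 5 / 4| ≤ 5 / 100000) (z2 : |xb z| ≤ 36 / 1000)
    (w2 : |xb w| ≤ 36 / 1000) (h : 0 ≤ (xc z - xa z) * (xc w - xa w)) :
    Real.cosh (dist z w) ≤ 1003 / 1000 := by
  have k : ∀ z : ℍ, |(xa z + xc z) / 2 - 5 / 4| ≤ 5 / 100000 → |xb z| ≤ 36 / 1000 →
      1498 / 1000 ≤ |xc z - xa z| := fun z z0 z2 => by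
    obtain ⟨a1, a2⟩ := abs_le.1 z0
    have a3 := sq_le_sq' (abs_le.1 z2).1 (abs_le.1 z2).2
    refine abs_le_of_sq_le_sq' ?_ (abs_nonneg _) |>.2
    rw [sq_abs]
    nlinarith [x_rel z]
  have a1 := mul_le_mul (k z z0 z2) (k w w0 w2) (by norm_num) (abs_nonneg _)
  rw [← abs_mul, abs_of_nonneg h] at a1
  have a2 := mul_le_mul z2 w2 (abs_nonneg _) (by norm_num)
  rw [← abs_mul] at a2
  have a3 := mul_le_mul (show (xa z + xc z) / 2 ≤ 125005 / 100000 by linarith [abs_le.1 z0])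
    (show (xa w + xc w) / 2 ≤ 125005 / 100000 by linarith [abs_le.1 w0])
    (by linarith [abs_le.1 w0]) (by norm_num)
  rw [cosh_X]
  linarith [neg_abs_le (xb z * xb w)]

theorem angle_b {A B c : ℝ} {z : ℍ} (h : c ^ 2 = 1 + 4 * A * B) (hc : 999 / 1000 < |c|)
    (h0 : |A + B| ≤ 1 / 1000) (z0 : |(xa z + xc z) / 2 - 5 / 4| ≤ 5 / 100000)
    (hz : |A * xc z + c * xb z + B * xa z| ≤ 1 / 1000) : |xb z| ≤ 36 / 1000 := by
  obtain ⟨a1, a2⟩ := abs_le.1 z0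
  have b1 : |A - B| ≤ 4474 / 100000 := by
    refine abs_le_of_sq_le_sq ?_ (by norm_num)
    have := sq_le_sq' (abs_le.1 h0).1 (abs_le.1 h0).2
    nlinarith [sq_abs c]
  have b2 : |(xc z - xa z) / 2| ≤ 7502 / 10000 := by
    refine abs_le_of_sq_le_sq ?_ (by norm_num)
    nlinarith [x_rel z, sq_nonneg (xb z)]
  have b3 := mul_le_mul b1 b2 (abs_nonneg _) (by norm_num)
  have b4 := mul_le_mul h0 (show |(xa z + xc z) / 2| ≤ 125005 / 100000 from
    abs_le.2 ⟨by linarith, by linarith⟩) (abs_nonneg _) (by norm_num)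
  rw [← abs_mul] at b3 b4
  have b5 : |c * xb z| ≤ 3582 / 100000 := by
    obtain ⟨c1, c2⟩ := abs_le.1 b3
    obtain ⟨c3, c4⟩ := abs_le.1 b4
    obtain ⟨c5, c6⟩ := abs_le.1 hz
    rw [abs_le]
    constructor <;> linarith
  rw [abs_mul] at b5
  nlinarith [abs_nonneg (xb z)]

theorem angle_zero {k k' : SL(2, ℝ)} (hc : |cf k' k| ≤ 999 / 1000) (h0 : |S k' (k • ax 0)| ≤ 1 / 1000) :
    ∃ s, |s| ≤ 1 ∧ S k' (k • ax s) = 0 := by
  have l1 : Real.log 2 ≤ 1 := by linarith [Real.log_le_sub_one_of_pos two_pos]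
  have l0 : 0 ≤ Real.log 2 := Real.log_nonneg one_le_two
  have hcont : Continuous fun s => S k' (k • ax s) := by
    simp only [S_ax]
    fun_prop
  have e1 : S k' (k • ax (Real.log 2)) = Af k' k * 2 + Bf k' k * 2⁻¹ := by
    rw [S_ax, Real.exp_neg, Real.exp_log two_pos]
  have e2 : S k' (k • ax (-Real.log 2)) = Af k' k * 2⁻¹ + Bf k' k * 2 := by
    rw [S_ax, neg_neg, Real.exp_neg, Real.exp_log two_pos]
  rw [S_ax, neg_zero, Real.exp_zero, mul_one, mul_one] at h0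
  obtain ⟨a1, a2⟩ := abs_le.1 h0
  have a3 : 4 / 100 ≤ |Af k' k - Bf k' k| := by
    refine abs_le_of_sq_le_sq' ?_ (abs_nonneg _) |>.2
    rw [sq_abs]
    nlinarith [cf_sq k' k, sq_le_sq' (abs_le.1 hc).1 (abs_le.1 hc).2, sq_nonneg (Af k' k + Bf k' k)]
  obtain ⟨s, hs, h⟩ : ∃ s ∈ Icc (-Real.log 2) (Real.log 2), S k' (k • ax s) = 0 := by
    rcases le_abs.1 a3 with h | h
    · exact intermediate_value_Icc (by linarith) hcont.continuousOn
        ⟨by simp only [e2]; linarith, by simp only [e1]; linarith⟩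
    · exact intermediate_value_Icc' (by linarith) hcont.continuousOn
        ⟨by simp only [e1]; linarith, by simp only [e2]; linarith⟩
  exact ⟨s, abs_le.2 ⟨by linarith [hs.1], by linarith [hs.2]⟩, h⟩

theorem angle_src {k₁ k₂ : SL(2, ℝ)} (hx : k₁ • I = k₂ • I) (hc : |cf k₂ k₁| ≤ 99 / 100) :
    10056 / 10000 ≤ Real.cosh (dist (k₁ • ax (Real.log 2)) (k₂ • ax (Real.log 2))) ∧
    10056 / 10000 ≤ Real.cosh (dist (k₁ • ax (-Real.log 2)) (k₂ • ax (Real.log 2))) := by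
  have e : ∀ s, dist (k₁ • ax s) (k₂ • ax (Real.log 2)) =
      dist (ax s) ((k₁⁻¹ * k₂) • ax (Real.log 2)) := fun s => by
    rw [← dist_smul k₁⁻¹, inv_smul_smul, mul_smul]
  have h1 : (k₁⁻¹ * k₂) • I = I := by rw [mul_smul, ← hx, inv_smul_smul]
  rw [cf_comm, cf] at hc
  rw [e, e]
  generalize k₁⁻¹ * k₂ = m at h1 hc
  have hd := det_eq m
  have b3 := xa_smul m I
  have b4 := xc_smul m I
  rw [h1, show xa I = 1 by simp [xa], show xb I = 0 by simp [xb], show xc I = 1 by simp [xc]] at b3 b4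
  have b5 : m 1 1 = m 0 0 := by nlinarith [sq_nonneg (m 1 1 - m 0 0), sq_nonneg (m 0 1 + m 1 0)]
  have b6 : m 1 0 = -m 0 1 := by nlinarith [sq_nonneg (m 1 1 - m 0 0), sq_nonneg (m 0 1 + m 1 0)]
  obtain ⟨c1, c2⟩ := abs_le.1 hc
  simp only [cosh_X, xa_smul, xc_smul, xa_ax, xb_ax, xc_ax, neg_neg, Real.exp_neg,
    Real.exp_log two_pos]
  rw [b5, b6] at c1 c2 ⊢
  constructor <;> nlinarith

theorem angle_row : ANGLE_s := by
  refine ⟨1 / 100000, by norm_num, fun e he h1 φ hq k₁ k₂ k₁' k₂' k hx hc n₁ n₂ hk => ?_⟩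
  have hI₁ : φ (k₁ • ax 0) = k • ax 0 := by rw [ax_zero, hk]
  have hI₂ : φ (k₂ • ax 0) = k • ax 0 := by rw [ax_zero, hk, hx]
  by_cases c₁ : |cf k₁' k| ≤ 999 / 1000
  · exact ⟨k₁', Or.inl rfl, c₁, angle_zero c₁ (hI₁ ▸ n₁ 0)⟩
  by_cases c₂ : |cf k₂' k| ≤ 999 / 1000
  · exact ⟨k₂', Or.inr rfl, c₂, angle_zero c₂ (hI₂ ▸ n₂ 0)⟩
  exfalso
  have l1 : Real.log 2 ≤ 1 := by linarith [Real.log_le_sub_one_of_pos two_pos]
  have l0 : 0 ≤ Real.log 2 := Real.log_nonneg one_le_two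
  have ch : Real.cosh (Real.log 2) = 5 / 4 := by rw [Real.cosh_log two_pos]; norm_num
  have P : ∀ (j j' : SL(2, ℝ)) (s : ℝ), |s| = Real.log 2 → φ (j • ax 0) = k • ax 0 →
      (∀ s, |S j' (φ (j • ax s))| ≤ 1 / 1000) → ¬ |cf j' k| ≤ 999 / 1000 →
      dist (j • ax s) (j • I) ≤ 1 ∧
      |(xa (k⁻¹ • φ (j • ax s)) + xc (k⁻¹ • φ (j • ax s))) / 2 - 5 / 4| ≤ 5 / 100000 ∧
      |xb (k⁻¹ • φ (j • ax s))| ≤ 36 / 1000 := fun j j' s hs hI n c => by
    have d1 : dist (j • ax s) (j • ax 0) = Real.log 2 := by rw [dist_smul, dist_ax, sub_zero, hs]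
    have d2 := cosh_close (hq.le he (d1.le.trans l1)) (by linarith)
    rw [d1, ch, hI, ← dist_smul k⁻¹, inv_smul_smul, ax_zero, c_a] at d2
    have d3 := d2.trans (show _ ≤ 5 / 100000 by linarith)
    refine ⟨by rw [← ax_zero, d1]; exact l1, d3, angle_b (cf_sq j' k) (not_le.1 c) ?_ d3 ?_⟩
    · have := n 0
      rwa [hI, S_ax, neg_zero, Real.exp_zero, mul_one, mul_one] at this
    · rw [← S_smul, smul_inv_smul]
      exact n s
  obtain ⟨u1, u2, u3⟩ := P k₁ k₁' _ (abs_of_nonneg l0) hI₁ n₁ c₁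
  obtain ⟨v1, v2, v3⟩ := P k₁ k₁' (-Real.log 2) (by rw [abs_neg, abs_of_nonneg l0]) hI₁ n₁ c₁
  obtain ⟨w1, w2, w3⟩ := P k₂ k₂' _ (abs_of_nonneg l0) hI₂ n₂ c₂
  rw [← hx] at w1
  obtain ⟨s1, s2⟩ := angle_src hx hc
  have s3 : 10056 / 10000 ≤ Real.cosh (dist (k₁ • ax (Real.log 2)) (k₁ • ax (-Real.log 2))) := by
    rw [dist_smul, dist_ax]
    exact le_trans (by rw [ch]; norm_num) (cosh_mono l0 (by rw [abs_of_nonneg] <;> linarith))
  have Q : ∀ p q : ℍ, dist p (k₁ • I) ≤ 1 → dist q (k₁ • I) ≤ 1 →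
      10056 / 10000 ≤ Real.cosh (dist p q) →
      ¬ Real.cosh (dist (k⁻¹ • φ p) (k⁻¹ • φ q)) ≤ 1003 / 1000 := fun p q a1 a2 a3 a4 => by
    have d2 := cosh_close (hq.le he (T := 2) (a := p) (b := q)
      (by linarith [dist_triangle_right p q (k₁ • I)])) (by linarith)
    rw [dist_smul] at a4
    nlinarith [(abs_le.1 d2).1]
  rcases le_total 0 ((xc (k⁻¹ • φ (k₁ • ax (Real.log 2))) - xa (k⁻¹ • φ (k₁ • ax (Real.log 2)))) *
    (xc (k⁻¹ • φ (k₁ • ax (-Real.log 2))) - xa (k⁻¹ • φ (k₁ • ax (-Real.log 2))))) with h | h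
  · exact Q _ _ u1 v1 s3 (angle_pair u2 v2 u3 v3 h)
  by_cases h' : 0 ≤ (xc (k⁻¹ • φ (k₁ • ax (Real.log 2))) - xa (k⁻¹ • φ (k₁ • ax (Real.log 2)))) *
    (xc (k⁻¹ • φ (k₂ • ax (Real.log 2))) - xa (k⁻¹ • φ (k₂ • ax (Real.log 2))))
  · exact Q _ _ u1 w1 s1 (angle_pair u2 w2 u3 w3 h')
  refine Q _ _ v1 w1 s2 (angle_pair v2 w2 v3 w3 ?_)
  generalize xc (k⁻¹ • φ (k₁ • ax (Real.log 2))) - xa (k⁻¹ • φ (k₁ • ax (Real.log 2))) = a at h h'
  generalize xc (k⁻¹ • φ (k₁ • ax (-Real.log 2))) - xa (k⁻¹ • φ (k₁ • ax (-Real.log 2))) = b at h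
  generalize xc (k⁻¹ • φ (k₂ • ax (Real.log 2))) - xa (k⁻¹ • φ (k₂ • ax (Real.log 2))) = c at h'
  have h1 := not_le.1 h'
  have a0 : a ≠ 0 := fun h0 => by simp [h0] at h1
  refine nonneg_of_mul_nonneg_right ?_ (mul_self_pos.2 a0)
  nlinarith [mul_nonneg_of_nonpos_of_nonpos h h1.le]

theorem core_null {G : Subgroup (Equiv.Perm ℍ)} {φ : Equiv.Perm ℍ}
    (hφ : ∀ g ∈ G, φ * g * φ⁻¹ ∈ G) {γ : G} (h : Null γ) :
    Null (⟨φ * γ * φ⁻¹, hφ _ γ.2⟩ : G) := fun χ =>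
  h (χ.comp
    { toFun := fun g => ⟨φ * g * φ⁻¹, hφ _ g.2⟩
      map_one' := Subtype.ext (by simp)
      map_mul' := fun a b => Subtype.ext (by simp [mul_assoc]) })

theorem core_ne {g : Equiv.Perm ℍ} {k : SL(2, ℝ)} {t : ℝ} (ht : 0 < t) (h : Tr g k t) : g ≠ 1 := by
  rintro rfl
  have := h.le_dist I
  simp only [Equiv.Perm.coe_one, id, dist_self] at this
  linarith [le_abs_self t]

theorem core_img (hA : AXIS_s) (hL : LEN_s) {G : Subgroup (Equiv.Perm ℍ)} {l e : ℝ}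
    (hF : Fuchs G l) (he : 0 ≤ e) {φ : Equiv.Perm ℍ} (hq : QI e φ)
    (hφ : ∀ g ∈ G, φ * g * φ⁻¹ ∈ G) {γ : G} {k : SL(2, ℝ)} {t : ℝ} (ht : 0 < t) (h : Tr γ k t)
    (hn : Null γ) : ∃ γ' : G, ∃ k' t', 0 < t' ∧ t' ≤ (1 + e) * t ∧ Tr γ' k' t' ∧ Null γ' ∧
      ∀ z, φ (γ.1 z) = γ'.1 (φ z) := by
  obtain ⟨k', t', h1, h2⟩ := hA G l hF _ (hφ _ γ.2) (fun h1 => core_ne ht h (by
    rw [mul_inv_eq_one] at h1
    exact mul_left_cancel (h1.trans (mul_one φ).symm)))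
  have h3 : ∀ z, φ (γ.1 z) = (φ * γ * φ⁻¹) (φ z) := fun z => by simp
  exact ⟨⟨_, hφ _ γ.2⟩, k', t', h1, hL e he φ hq _ _ k t k' t' ht h h2 h3, h2, core_null hφ hn, h3⟩

theorem core_zero {A B : ℝ} (h : A * B < 0) : ∃ s, A * Real.exp s + B * Real.exp (-s) = 0 := by
  have hA : A ≠ 0 := fun h0 => by simp [h0] at h
  have h1 : 0 < -B / A := by
    rw [div_pos_iff]
    rcases lt_or_gt_of_ne hA with h2 | h2
    · exact Or.inr ⟨by nlinarith, h2⟩
    · exact Or.inl ⟨by nlinarith, h2⟩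
  refine ⟨Real.log (-B / A) / 2, ?_⟩
  have h2 : Real.exp (Real.log (-B / A) / 2) * Real.exp (Real.log (-B / A) / 2) = -B / A := by
    rw [← Real.exp_add, add_halves, Real.exp_log h1]
  have h3 := Real.exp_pos (Real.log (-B / A) / 2)
  rw [Real.exp_neg]
  generalize Real.exp (Real.log (-B / A) / 2) = u at h2 h3
  field_simp at h2 ⊢
  linarith

theorem core_row (hA : AXIS_s) (hP : PAR_s) (hG : GEO_s) (hN : NOASYM_s) (hF : NOFOL_s) (hM : MORSE_s)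
    (hL : LEN_s) (hW : ANGLE_s) : CORE_s := by
  obtain ⟨e₁, he₁, hM⟩ := hM
  obtain ⟨e₂, he₂, hW⟩ := hW
  refine ⟨min (min e₁ e₂) (1 / 10000), by positivity, fun G l hl h200 hH γ hγ hn z hz => ?_⟩
  have p0 : 0 ≤ min (min e₁ e₂) (1 / 10000) := by positivity
  have p1 : min (min e₁ e₂) (1 / 10000) ≤ e₁ := (min_le_left _ _).trans (min_le_left _ _)
  have p2 : min (min e₁ e₂) (1 / 10000) ≤ e₂ := (min_le_left _ _).trans (min_le_right _ _)
  have p3 : min (min e₁ e₂) (1 / 10000) ≤ 1 / 10000 := min_le_right _ _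
  generalize min (min e₁ e₂) (1 / 10000) = e at hH p0 p1 p2 p3
  obtain ⟨k₀, t₀, ht₀, h₀⟩ := hA G l hl γ γ.2 fun h => hγ (Subtype.ext h)
  have b₀ : t₀ ≤ 107 / 100 * l := ((le_abs_self _).trans (h₀.le_dist z)).trans hz
  obtain ⟨k₁, ⟨α, nα, t₁, ht₁, b₁, h₁⟩, k₂, ⟨β, nβ, t₂, ht₂, b₂, h₂⟩, hc⟩ :=
    hF {k | ∃ δ : G, Null δ ∧ ∃ t, 0 < t ∧ t ≤ 10702 / 10000 * l ∧ Tr δ k t}
    (by
      rintro k ⟨δ, n, t, ht, b, h⟩
      exact ⟨δ⁻¹, fun χ => by rw [map_inv, n χ, inv_one], t, ht, b, h.rev⟩)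
    (by
      rintro k ⟨δ, -, t, ht, -, h⟩
      refine ⟨t, ht, ?_⟩
      rintro k' ⟨δ', n', t', ht', b', h'⟩
      obtain ⟨m, hm⟩ := hl.mob δ δ.2
      have hm' : ∀ z, (δ.1)⁻¹ z = m⁻¹ • z := fun z => by
        rw [Equiv.Perm.inv_eq_iff_eq, hm, smul_inv_smul]
      refine ⟨m⁻¹ * k', ⟨δ⁻¹ * δ' * δ⁻¹⁻¹, fun χ => by simp [n' χ], t', ht', b', h'.conj hm'⟩, ?_⟩
      exact coef_ext fun z => by
        rw [← S_smul, S_mul, inv_inv, ← hm, h, S_smul, xa_D, xb_D, xc_D]; ring)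
    (by
      intro w
      obtain ⟨φ, q, e1, hφ⟩ := hH (k₀ • ax 0) w
      obtain ⟨γ', k', t', a1, a2, a3, a4, a5⟩ := core_img hA hL hl p0 q hφ ht₀ h₀ hn
      refine ⟨k', ⟨γ', a4, t', a1, by nlinarith, a3⟩, ?_⟩
      rw [← e1]
      exact hM e p0 p1 φ q _ _ k₀ t₀ k' t' ht₀ h₀ a3 a5 0)
    (by
      rintro k ⟨δ, -, t, ht, -, h⟩ k' ⟨δ', -, t', ht', -, h'⟩
      exact hN G l hl δ δ' k t k' t' ht h ht' h')
  obtain ⟨s₁, hs₁⟩ := core_zero (A := Af k₂ k₁) (B := Bf k₂ k₁)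
    (by nlinarith [cf_sq k₂ k₁, abs_le.1 hc])
  rw [← S_ax] at hs₁
  obtain ⟨s₂, hs₂⟩ := S_zero hs₁
  have hI : ∀ (k : SL(2, ℝ)) s, (k * D s) • I = k • ax s := fun k s => by
    rw [mul_smul, ← ax_zero, D_ax, zero_add]
  have hx : (k₁ * D s₁) • I = (k₂ * D s₂) • I := by rw [hI, hI, hs₂]
  have hc' : |cf (k₂ * D s₂) (k₁ * D s₁)| ≤ 99 / 100 := by
    rwa [(coef_D_right _ _ _).2.2, cf_comm, (coef_D_right _ _ _).2.2, cf_comm]
  have h₁' := h₁.shift s₁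
  have h₂' := h₂.shift s₂
  generalize k₁ * D s₁ = k₁ at hx hc' h₁'
  generalize k₂ * D s₂ = k₂ at hx hc' h₂'
  obtain ⟨φ, q, e1, hφ⟩ := hH (k₁ • I) (k₁ • ax (15 / 100 * l))
  obtain ⟨α', k₁', t₁', a1, a2, a3, a4, a5⟩ := core_img hA hL hl p0 q hφ ht₁ h₁' nα
  obtain ⟨β', k₂', t₂', c1, c2, c3, c4, c5⟩ := core_img hA hL hl p0 q hφ ht₂ h₂' nβ
  obtain ⟨k₃, hk, d1, s, d2, d3⟩ := hW e p0 p2 φ q k₁ k₂ k₁' k₂' (k₁ * D (15 / 100 * l)) hx hc'
    (hM e p0 p1 φ q _ _ k₁ t₁ k₁' t₁' ht₁ h₁' a3 a5) (hM e p0 p1 φ q _ _ k₂ t₂ k₂' t₂' ht₂ h₂' c3 c5)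
    (by rw [hI, e1])
  rw [(coef_D_right _ _ _).2.2] at d1
  rw [mul_smul, D_ax] at d3
  obtain ⟨d4, d5⟩ := abs_le.1 d2
  obtain ⟨δ, t₃, f1, f2, f3, f4⟩ : ∃ δ : G, ∃ t, 0 < t ∧ t ≤ 1071 / 1000 * l ∧ Tr δ k₃ t ∧ Null δ := by
    rcases hk with rfl | rfl
    · exact ⟨α', t₁', a1, by nlinarith, a3, a4⟩
    · exact ⟨β', t₂', c1, by nlinarith, c3, c4⟩
  exact hG G l hl (by linarith) α β δ k₁ k₂ k₃ t₁ t₂ t₃ _ ht₁ (by linarith) h₁' ht₂ (by linarith) h₂'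
    f1 f2 f3 (hP G l hl β k₂ t₂ ht₂ h₂' nβ) (hP G l hl δ k₃ t₃ f1 f3 f4) hx (by linarith) d1 d3
    (by linarith) (by linarith)

theorem top_lift {Γ : Subgroup SL(2, ℝ)} {R : ℝ} (hR : Sys Γ R) {f : Surface Γ ≃ₜ Surface Γ}
    {φ : ℍ ≃ₜ ℍ} (h2 : ∀ z, f (proj Γ z) = proj Γ (φ z)) {γ : SL(2, ℝ)} (hγ : γ ∈ Γ) :
    ∃ β ∈ Γ, ∀ w, β • φ w = φ (γ • w) := by
  have h4 : ∀ w, proj Γ (φ (γ • w)) = proj Γ (φ w) := fun w => by
    rw [← h2, ← h2, proj_eq.2 ⟨γ, hγ, rfl⟩]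
  obtain ⟨β, hβ, h5⟩ := proj_eq.1 (h4 I)
  have h6 : ∀ w, β • φ w ≠ φ (γ • w) → R ≤ dist (β • φ w) (φ (γ • w)) := fun w hw => by
    obtain ⟨α, hα, h7⟩ := proj_eq.1 ((h4 w).trans (proj_eq.2 ⟨β, hβ, rfl⟩).symm)
    rw [← h7] at hw ⊢
    exact hR.2 α hα _ hw.symm
  refine ⟨β, hβ, fun w => ?_⟩
  by_contra hw
  obtain ⟨v, hv⟩ := intermediate_value_univ I w (f := fun w => dist (β • φ w) (φ (γ • w)))
    (by fun_prop) (show R / 2 ∈ _ from
      ⟨by simp [h5]; linarith [hR.1], by linarith [hR.1, h6 w hw]⟩)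
  have := h6 v fun h8 => by simp [h8] at hv; linarith [hR.1]
  linarith [hR.1]

theorem top_row (hC : CORE_s) : TOP_s := by
  obtain ⟨e₀, he, H⟩ := hC
  obtain ⟨c, hc, hs⟩ := sqrt_bound
  obtain ⟨C, hC0, hq⟩ := qi_of_qc
  have hε : 0 < min e₀ 1 / C := by positivity
  have hCε : C * (min e₀ 1 / C) = min e₀ 1 := by field_simp
  have hp : 0 < c * Real.exp (-(39 * Real.sqrt 214)) := by positivity
  refine ⟨min (1 + min e₀ 1 / C) (1 + c * Real.exp (-(39 * Real.sqrt 214))),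
    lt_min (by linarith) (by linarith), fun Γ hΓ K hK γ z hz hn hl => ?_⟩
  rcases le_or_gt (dist z (γ.1 • z)) 214 with h | h
  · refine (min_le_right _ _).trans (le_trans ?_ (hs Γ hΓ K hK γ γ.2 z hz))
    have := Real.sqrt_le_sqrt h
    gcongr
  refine (min_le_left _ _).trans (not_lt.1 fun hK1 => ?_)
  obtain ⟨R, hR, -⟩ := hΓ.exists_sys
  let π := MulAction.toPermHom SL(2, ℝ) ℍ
  have hπ : ∀ (m : SL(2, ℝ)) (w : ℍ), π m w = m • w := fun _ _ => rfl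
  have hF : Fuchs (Γ.map π) (dist z (γ.1 • z) / (107 / 100)) := by
    refine ⟨by positivity, ?_, ?_⟩
    · rintro _ ⟨m, -, rfl⟩
      exact ⟨m, fun _ => rfl⟩
    · rintro _ ⟨m, hm, rfl⟩ h1 w
      have h2 : m • w ≠ w := fun h2 => h1 (Equiv.ext fun v => hΓ.triv hm h2 v)
      rw [div_le_iff₀ (by norm_num), hπ]
      linarith [hl m hm w h2]
  have hH : Hom (Γ.map π) e₀ := by
    intro a b
    obtain ⟨f, φ, h1, h2, h3⟩ := hK (proj Γ a) (proj Γ b)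
    obtain ⟨δ, hδ, h4⟩ := proj_eq.1 (h3.symm.trans (h2 a))
    have h5 : QI e₀ φ := (hq _ hε (by rw [hCε]; exact min_le_right _ _) φ (h1.mono hK1.le)).mono
      (by rw [hCε]; exact min_le_left _ _)
    refine ⟨π δ * φ.toEquiv, fun u v => ?_, h4, ?_⟩
    · simp only [Equiv.Perm.mul_apply, hπ, dist_smul]
      exact h5 u v
    · rintro _ ⟨m, hm, rfl⟩
      obtain ⟨β, hβ, h6⟩ := top_lift hR h2 hm
      refine ⟨δ * β * δ⁻¹, Γ.mul_mem (Γ.mul_mem hδ hβ) (Γ.inv_mem hδ), ?_⟩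
      rw [eq_mul_inv_iff_mul_eq]
      refine Equiv.ext fun w => ?_
      simp only [Equiv.Perm.mul_apply, hπ, mul_smul, inv_smul_smul]
      exact congrArg _ (h6 w)
  refine H _ _ hF (by rw [le_div_iff₀ (by norm_num)]; linarith) hH (π.subgroupMap Γ γ)
    (fun h1 => hz (congrArg (fun g : Γ.map π => g.1 z) h1)) (fun χ => ?_) z ?_
  · refine hn (χ.comp (π.subgroupMap Γ)) fun g hg => ?_
    rw [MonoidHom.comp_apply, show π.subgroupMap Γ g = 1 from Subtype.ext (Equiv.ext hg), map_one]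
  · exact le_of_eq (by rw [mul_div_cancel₀ _ (by norm_num)]; rfl)

theorem top : TOP_s :=
  top_row (core_row axis_row (par_row axis_row (finc_row fin_row) sym_row) (geo_row sep_row)
    (noasym_row fin_row) nofol_row morse_row len_row angle_row)

end Pool.Agent.MP_7dc785_an.Sep
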