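import Pool.Agent.MP_7dc785_an.Sep.Two

/-!
Maps which preserve the homology class modulo two of a short curve: the assembly.
-/

namespace Pool.Agent.MP_7dc785_an.Sep

open Set Metric UpperHalfPlane
open scoped MatrixGroups

theorem D_I (k : SL(2, ℝ)) (s : ℝ) : (k * D s) • I = k • ax s := by
  rw [mul_smul, ← ax_zero, D_ax, zero_add]

theorem cf_DD (k k' : SL(2, ℝ)) (s s' : ℝ) : cf (k * D s) (k' * D s') = cf k k' := by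
  rw [(coef_D_right _ _ _).2.2, cf_comm, (coef_D_right _ _ _).2.2, cf_comm]

theorem cross_ex {k k' : SL(2, ℝ)} (h : |cf k' k| < 1) : ∃ s s', k • ax s = k' • ax s' := by
  obtain ⟨s, hs⟩ := core_zero (A := Af k' k) (B := Bf k' k)
    (by nlinarith [cf_sq k' k, abs_lt.1 h])
  rw [← S_ax] at hs
  obtain ⟨s', hs'⟩ := S_zero hs
  exact ⟨s, s', hs'⟩

theorem triple_pos (hT : TAN_s) (hQ : QUAD_s) {F : Set SL(2, ℝ)} {k₁ k₂ : SL(2, ℝ)} (m₁ : k₁ ∈ F)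
    (m₂ : k₂ ∈ F) (hx : k₁ • I = k₂ • I) (c0 : 0 ≤ cf k₂ k₁) (c1 : cf k₂ k₁ ≤ 99 / 100)
    (hp : ∀ p, ∃ j₁ ∈ F, ∃ j₂ ∈ F, |S j₁ p| ≤ 1 / 10 ^ 16 ∧ |S j₂ p| ≤ 1 / 10 ^ 16 ∧
      |(|cf j₂ j₁| - cf k₂ k₁)| ≤ 1 / 10 ^ 7) :
    ∃ a ∈ F, ∃ b ∈ F, ∃ c ∈ F, |cf b a| ≤ 1 - 1 / 10 ^ 14 ∧ |cf c a| ≤ 1 - 1 / 10 ^ 14 ∧
      |cf c b| ≤ 1 - 1 / 10 ^ 14 := by
  by_contra H
  push Not at H
  have A : ∀ k ∈ F, ∀ p, S k p = 0 → ∃ n ∈ F, |S n p| ≤ 1 / 10 ^ 16 ∧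
      |(|cf n k| - cf k₂ k₁)| ≤ 3 / 10 ^ 7 := fun k hk p h0 => by
    obtain ⟨j₁, n₁, j₂, n₂, s₁, s₂, hc⟩ := hp p
    obtain ⟨a1, a2⟩ := abs_le.1 hc
    have z : |S k p| ≤ 1 / 10 ^ 16 := by rw [h0, abs_zero]; norm_num
    by_cases b1 : |cf k j₁| ≤ 1 - 1 / 10 ^ 14
    · obtain ⟨a3, a4⟩ := abs_le.1 (hT k j₂ j₁ p z s₂ s₁ (H j₁ n₁ j₂ n₂ k hk (by linarith) b1))
      exact ⟨j₁, n₁, s₁, by rw [cf_comm j₁]; exact abs_le.2 ⟨by linarith, by linarith⟩⟩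
    · obtain ⟨a3, a4⟩ := abs_le.1 (hT k j₁ j₂ p z s₁ s₂ (not_le.1 b1))
      rw [cf_comm j₁] at a3 a4
      exact ⟨j₂, n₂, s₂, by rw [cf_comm j₂ k]; exact abs_le.2 ⟨by linarith, by linarith⟩⟩
  obtain ⟨α, hα⟩ := hQ k₁ k₂ hx c0 c1
  obtain ⟨n₂, o₂, s₂, d₂⟩ := A k₁ m₁ (k₁ • ax α) (by rw [S_self, xb_ax])
  obtain ⟨n₁, o₁, s₁, d₁⟩ := A k₂ m₂ (k₂ • ax α) (by rw [S_self, xb_ax])
  have b0 : |cf k₂ k₁| ≤ 1 - 1 / 10 ^ 14 := by rw [abs_of_nonneg c0]; linarith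
  obtain ⟨q1, q2⟩ := hα n₁ n₂ s₂ s₁ d₂ d₁
    (H k₁ m₁ k₂ m₂ n₂ o₂ b0 (by linarith [abs_le.1 d₂]))
    (H k₂ m₂ k₁ m₁ n₁ o₁ (by rwa [cf_comm]) (by linarith [abs_le.1 d₁]))
  obtain ⟨s, s', e⟩ := cross_ex (k := n₁) (k' := n₂) (by linarith)
  obtain ⟨n, o, s₃, d₃⟩ := A n₁ o₁ (n₁ • ax s) (by rw [S_self, xb_ax])
  obtain ⟨d4, d5⟩ := abs_le.1 d₃
  have b1 := H n₁ o₁ n₂ o₂ n o (by linarith) (by linarith)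
  obtain ⟨d6, d7⟩ := abs_le.1 (hT n n₂ n₁ _ s₃ (by rw [e, S_self, xb_ax, abs_zero]; norm_num)
    (by rw [S_self, xb_ax, abs_zero]; norm_num) b1)
  linarith

theorem far_bd {k₁ k₂ k₃ : SL(2, ℝ)} {a b a' b' : ℝ} (h2 : k₁ • ax a = k₂ • ax a')
    (h3 : k₁ • ax b = k₃ • ax b') (c2 : |cf k₂ k₁| ≤ 1 - 1 / 10 ^ 14)
    (c3 : |cf k₃ k₁| ≤ 1 - 1 / 10 ^ 14) (c : |cf k₃ k₂| ≤ 1 - 1 / 10 ^ 14) : |a - b| ≤ 48 := by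
  by_contra h
  have := far_key (k₂ := k₂) (k₃ := k₃) (a := a) (b := b) (by rw [h2, S_self, xb_ax])
    (by rw [h3, S_self, xb_ax]) c2 c3 (not_le.1 h).le
  nlinarith [abs_le.1 c]

/-- the frames of the short elements in the class of `γ` -/
def Fam2 {G : Subgroup (Equiv.Perm ℍ)} (γ : G) (L : ℝ) : Set SL(2, ℝ) :=
  {k | ∃ δ : G, Same δ γ ∧ ∃ t, 0 < t ∧ t ≤ L ∧ Tr δ k t}

theorem far {G : Subgroup (Equiv.Perm ℍ)} {l : ℝ} (hl : Fuchs G l) (h600 : 600 ≤ l) {γ : G}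
    {χ : G →* Multiplicative (ZMod 2)}
    (hχ : ∀ (δ : G) k t, 0 < t → Tr δ k t → Same δ γ → χ δ = 1 ∧ Col2 χ δ k)
    (hA : ∀ k, ∃ k' ∈ Fam2 γ (1071 / 1000 * l), |cf k' k| ≤ 999 / 1000 ∧
      ∃ s, |s| ≤ 1 ∧ S k' (k • ax s) = 0)
    {a b c : SL(2, ℝ)} (ha : a ∈ Fam2 γ (1071 / 1000 * l)) (hb : b ∈ Fam2 γ (1071 / 1000 * l))
    (hc : c ∈ Fam2 γ (1071 / 1000 * l)) (ab : |cf b a| ≤ 1 - 1 / 10 ^ 14)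
    (ac : |cf c a| ≤ 1 - 1 / 10 ^ 14) (bc : |cf c b| ≤ 1 - 1 / 10 ^ 14) : False := by
  have P : ∀ a ∈ Fam2 γ (1071 / 1000 * l), ∀ b ∈ Fam2 γ (1071 / 1000 * l),
      |cf b a| ≤ 1 - 1 / 10 ^ 14 → ∃ s s', a • ax s = b • ax s' ∧ ∃ g : G, ∃ y u,
        a • ax (y + s) = g.1 (b • ax (u + s')) ∧ 4645 / 10000 * l ≤ y ∧ y ≤ 6065 / 10000 * l ∧
        4645 / 10000 * l ≤ u ∧ u ≤ 6065 / 10000 * l ∧ (χ g).toAdd = 1 := by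
    rintro a ⟨α, nα, t₁, ht₁, b₁, h₁⟩ b ⟨β, nβ, t₂, ht₂, b₂, h₂⟩ ab
    obtain ⟨s, s', e⟩ := cross_ex (k := a) (k' := b) (by linarith)
    have hx : (a * D s) • ax 0 = (b * D s') • ax 0 := by rw [ax_zero, D_I, D_I, e]
    have cc : |cf (b * D s') (a * D s)| ≤ 1 - 1 / 10 ^ 14 := by rwa [cf_DD]
    obtain ⟨g, y, u, hy, y1, y2, u1, u2⟩ := geo2_P1 hl h600 ht₁ b₁ (h₁.shift s) ht₂ b₂ (h₂.shift s')
      (hχ α a t₁ ht₁ h₁ nα).1 (hχ β _ t₂ ht₂ (h₂.shift s') nβ).2 hx (by linarith)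
    obtain ⟨k₃, ⟨δ, nδ, t₃, ht₃, b₃, h₃⟩, d1, v, d2, d3⟩ := hA (a * D s * D (15 / 100 * l))
    rw [(coef_D_right _ _ _).2.2] at d1
    rw [mul_smul, D_ax] at d3
    obtain ⟨d4, d5⟩ := abs_le.1 d2
    have := geo2 hl h600 ht₂ b₂ (h₂.shift s') ht₃ b₃ h₃ (hχ β b t₂ ht₂ h₂ nβ).1
      (hχ δ k₃ t₃ ht₃ h₃ nδ).2 hx cc d1 d3 (by linarith) (by linarith) hy y1 y2
    rw [mul_smul, mul_smul, D_ax, D_ax] at hy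
    exact ⟨s, s', e, g, y, u, hy, y1, y2, u1, u2, this⟩
  obtain ⟨s₁, s₁', e₁, g₁, y₁, u₁, f₁, p1, p2, p3, p4, x₁⟩ := P a ha b hb ab
  obtain ⟨s₂, s₂', e₂, g₂, y₂, u₂, f₂, q1, q2, -, -, x₂⟩ := P b hb c hc bc
  obtain ⟨s₃, s₃', e₃, g₃, y₃, u₃, f₃, r1, r2, -, -, x₃⟩ := P a ha c hc ac
  obtain ⟨w1, w2⟩ := abs_le.1 (far_bd e₁ e₃ ab ac bc)
  obtain ⟨w3, w4⟩ := abs_le.1 (far_bd e₁.symm e₂ (by rwa [cf_comm]) bc ac)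
  obtain ⟨δ, nδ, t₃, ht₃, b₃, h₃⟩ := hc
  have hg : g₃⁻¹ * (g₁ * g₂) ∈ Subgroup.zpowers δ := by
    by_contra hg
    have a1 := sep_row G l hl δ c t₃ ht₃ h₃ _ _ hg (u₃ + s₃') (u₂ + s₂')
    have a2 : (g₁ * g₂ : G).1 (c • ax (u₂ + s₂')) = g₁.1 (b • ax (y₂ + s₂)) := by rw [f₂]; rfl
    rw [a2, ← f₃] at a1
    have a3 := dist_triangle (a • ax (y₃ + s₃)) (a • ax (y₁ + s₁)) (g₁.1 (b • ax (y₂ + s₂)))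
    rw [dist_smul, dist_ax, f₁, hl.dist_eq g₁.2, dist_smul, dist_ax] at a3
    have a4 : |y₃ + s₃ - (y₁ + s₁)| ≤ 142 / 1000 * l + 48 := abs_le.2 ⟨by linarith, by linarith⟩
    have a5 : |u₁ + s₁' - (y₂ + s₂)| ≤ 142 / 1000 * l + 48 := abs_le.2 ⟨by linarith, by linarith⟩
    linarith
  obtain ⟨j, hj⟩ := hg
  have a1 := congrArg (fun g => (χ g).toAdd) (show δ ^ j = g₃⁻¹ * (g₁ * g₂) from hj)
  simp only [map_zpow, (hχ δ c t₃ ht₃ h₃ nδ).1, one_zpow, toAdd_one, map_mul, map_inv, toAdd_mul,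
    toAdd_inv, x₁, x₂, x₃] at a1
  revert a1
  decide

/-- any point is moved to any point by an almost isometry which normalises the group and keeps the
class of `γ` -/
def Hom2 {G : Subgroup (Equiv.Perm ℍ)} (γ : G) (e : ℝ) : Prop :=
  ∀ z w : ℍ, ∃ φ : Equiv.Perm ℍ, QI e φ ∧ φ z = w ∧ ∃ h : ∀ g ∈ G, φ * g * φ⁻¹ ∈ G,
    Same (⟨φ * γ * φ⁻¹, h _ γ.2⟩ : G) γ

theorem core2_img {G : Subgroup (Equiv.Perm ℍ)} {l e : ℝ} (hF : Fuchs G l) (he : 0 ≤ e)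
    (he1 : e ≤ (1 / 10 ^ 17) ^ 2 / 120) {φ : Equiv.Perm ℍ} (hq : QI e φ)
    (hφ : ∀ g ∈ G, φ * g * φ⁻¹ ∈ G) {γ₀ γ : G} (h₀ : Same (⟨φ * γ₀ * φ⁻¹, hφ _ γ₀.2⟩ : G) γ₀)
    {k : SL(2, ℝ)} {t L : ℝ} (ht : 0 < t) (hL : (1 + e) * t ≤ L) (h : Tr γ k t) (hn : Same γ γ₀) :
    ∃ k' ∈ Fam2 γ₀ L, ∀ s, |S k' (φ (k • ax s))| ≤ 1 / 10 ^ 16 := by
  obtain ⟨k', t', h1, h2⟩ := axis_row G l hF _ (hφ _ γ.2) (fun h1 => core_ne ht h (by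
    rw [mul_inv_eq_one] at h1
    exact mul_left_cancel (h1.trans (mul_one φ).symm)))
  have h3 : ∀ z, φ (γ.1 z) = (φ * γ * φ⁻¹) (φ z) := fun z => by simp
  refine ⟨k', ⟨⟨_, hφ _ γ.2⟩, fun χ => ?_, t', h1,
    (len_row e he φ hq _ _ k t k' t' ht h h2 h3).trans hL, h2⟩, fun s =>
    (morse2 (ν := 1 / 10 ^ 17) (by norm_num) (by norm_num) he he1 hq ht h h2 h3 s).trans
      (by norm_num)⟩
  exact (hn (χ.comp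
    { toFun := fun g => ⟨φ * g * φ⁻¹, hφ _ g.2⟩
      map_one' := Subtype.ext (by simp)
      map_mul' := fun a b => Subtype.ext (by simp [mul_assoc]) })).trans (h₀ χ)

theorem core2 (hC : CF_s) (hT : TAN_s) (hQ : QUAD_s) :
    ∃ e₀ > 0, ∀ (G : Subgroup (Equiv.Perm ℍ)) (l : ℝ), Fuchs G l → 600 ≤ l →
      ∀ γ : G, γ ≠ 1 → Hom2 γ e₀ → ∀ z, dist z (γ.1 z) ≤ 107 / 100 * l → False := by
  obtain ⟨e₁, he₁, hC⟩ := hC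
  obtain ⟨e₂, he₂, hW⟩ := angle_row
  refine ⟨min (min e₁ e₂) ((1 / 10 ^ 17) ^ 2 / 120), by positivity,
    fun G l hl h600 γ hγ hH z hz => ?_⟩
  have p0 : 0 ≤ min (min e₁ e₂) ((1 / 10 ^ 17) ^ 2 / 120) := by positivity
  have p1 : min (min e₁ e₂) ((1 / 10 ^ 17) ^ 2 / 120) ≤ e₁ :=
    (min_le_left _ _).trans (min_le_left _ _)
  have p2 : min (min e₁ e₂) ((1 / 10 ^ 17) ^ 2 / 120) ≤ e₂ :=
    (min_le_left _ _).trans (min_le_right _ _)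
  have p4 : min (min e₁ e₂) ((1 / 10 ^ 17) ^ 2 / 120) ≤ (1 / 10 ^ 17) ^ 2 / 120 := min_le_right _ _
  generalize min (min e₁ e₂) ((1 / 10 ^ 17) ^ 2 / 120) = e at hH p0 p1 p2 p4
  have p3 : e ≤ 1 / 10000 := p4.trans (by norm_num)
  obtain ⟨k₀, t₀, ht₀, h₀⟩ := axis_row G l hl γ γ.2 fun h => hγ (Subtype.ext h)
  have b₀ : t₀ ≤ 107 / 100 * l := ((le_abs_self _).trans (h₀.le_dist z)).trans hz
  obtain ⟨χ, hχ⟩ := par2 hl ht₀ h₀ (by linarith)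
  have hJ : ∀ L, ∀ k ∈ Fam2 γ L, k * J ∈ Fam2 γ L := by
    rintro L k ⟨δ, n, t, ht, b, h⟩
    refine ⟨δ⁻¹, fun χ => ?_, t, ht, b, h.rev⟩
    rw [map_inv, n χ]
    generalize χ γ = x
    revert x
    decide
  obtain ⟨k₁, m₁, k₂, m₂, hc⟩ := nofol_row (Fam2 γ (10702 / 10000 * l)) (hJ _)
    (by
      rintro k ⟨δ, -, t, ht, -, h⟩
      refine ⟨t, ht, ?_⟩
      rintro k' ⟨δ', n', t', ht', b', h'⟩
      obtain ⟨m, hm⟩ := hl.mob δ δ.2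
      have hm' : ∀ z, (δ.1)⁻¹ z = m⁻¹ • z := fun z => by
        rw [Equiv.Perm.inv_eq_iff_eq, hm, smul_inv_smul]
      refine ⟨m⁻¹ * k', ⟨δ⁻¹ * δ' * δ⁻¹⁻¹, fun χ => by simp [n' χ], t', ht', b', h'.conj hm'⟩, ?_⟩
      exact coef_ext fun z => by
        rw [← S_smul, S_mul, inv_inv, ← hm, h, S_smul, xa_D, xb_D, xc_D]; ring)
    (by
      intro w
      obtain ⟨φ, q, e1, hφ, sφ⟩ := hH (k₀ • ax 0) w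
      obtain ⟨k', a1, a2⟩ := core2_img hl p0 p4 q hφ sφ ht₀ (L := 10702 / 10000 * l)
        (by nlinarith) h₀ fun _ => rfl
      exact ⟨k', a1, e1 ▸ (a2 0).trans (by norm_num)⟩)
    (by
      rintro k ⟨δ, -, t, ht, -, h⟩ k' ⟨δ', -, t', ht', -, h'⟩
      exact noasym_row fin_row G l hl δ δ' k t k' t' ht h ht' h')
  obtain ⟨k₂, m₂, c0, c1⟩ : ∃ k₂ ∈ Fam2 γ (10702 / 10000 * l), 0 ≤ cf k₂ k₁ ∧ cf k₂ k₁ ≤ 99 / 100 := by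
    obtain ⟨a1, a2⟩ := abs_le.1 hc
    rcases le_total 0 (cf k₂ k₁) with h | h
    · exact ⟨k₂, m₂, h, a2⟩
    · exact ⟨k₂ * J, hJ _ _ m₂, by rw [(coef_J_left _ _).2.2]; linarith,
        by rw [(coef_J_left _ _).2.2]; linarith⟩
  obtain ⟨s₁, s₂, hs⟩ := cross_ex (k := k₁) (k' := k₂) (by rw [abs_of_nonneg c0]; linarith)
  have hx : (k₁ * D s₁) • I = (k₂ * D s₂) • I := by rw [D_I, D_I, hs]
  rw [← cf_DD _ _ s₂ s₁] at c0 c1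
  obtain ⟨α, nα, t₁, ht₁, b₁, h₁⟩ := m₁
  obtain ⟨β, nβ, t₂, ht₂, b₂, h₂⟩ := m₂
  have h₁' := h₁.shift s₁
  have h₂' := h₂.shift s₂
  generalize k₁ * D s₁ = k₁ at hx c0 c1 h₁'
  generalize k₂ * D s₂ = k₂ at hx c0 c1 h₂'
  have R : ∀ p, ∃ φ : ℍ → ℍ, QI e φ ∧ φ (k₁ • I) = p ∧ ∃ j₁ ∈ Fam2 γ (1071 / 1000 * l),
      ∃ j₂ ∈ Fam2 γ (1071 / 1000 * l), (∀ s, |S j₁ (φ (k₁ • ax s))| ≤ 1 / 10 ^ 16) ∧
        ∀ s, |S j₂ (φ (k₂ • ax s))| ≤ 1 / 10 ^ 16 := fun p => by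
    obtain ⟨φ, q, e1, hφ, sφ⟩ := hH (k₁ • I) p
    obtain ⟨j₁, a1, a2⟩ := core2_img hl p0 p4 q hφ sφ ht₁ (L := 1071 / 1000 * l)
      (by nlinarith) h₁' nα
    obtain ⟨j₂, a3, a4⟩ := core2_img hl p0 p4 q hφ sφ ht₂ (L := 1071 / 1000 * l)
      (by nlinarith) h₂' nβ
    exact ⟨φ, q, e1, j₁, a1, j₂, a3, a2, a4⟩
  obtain ⟨a, ha, b, hb, c, hc, ab, ac, bc⟩ := triple_pos hT hQ (F := Fam2 γ (1071 / 1000 * l))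
    ⟨α, nα, t₁, ht₁, by linarith, h₁'⟩ ⟨β, nβ, t₂, ht₂, by linarith, h₂'⟩ hx c0 c1 fun p => by
      obtain ⟨φ, q, e1, j₁, a1, j₂, a2, a3, a4⟩ := R p
      have a5 := hC e p0 p1 φ q k₁ k₂ j₁ j₂ hx a3 a4
      rw [abs_of_nonneg c0] at a5
      have a6 := a3 0
      have a7 := a4 0
      rw [ax_zero, e1] at a6
      rw [ax_zero, ← hx, e1] at a7
      exact ⟨j₁, a1, j₂, a2, a6, a7, a5⟩
  refine far hl h600 hχ (fun k => ?_) ha hb hc ab ac bc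
  obtain ⟨φ, q, e1, j₁, a1, j₂, a2, a3, a4⟩ := R (k • I)
  obtain ⟨k', hk, d⟩ := hW e p0 p2 φ q k₁ k₂ j₁ j₂ k hx (by rwa [abs_of_nonneg c0])
    (fun s => (a3 s).trans (by norm_num)) (fun s => (a4 s).trans (by norm_num)) e1.symm
  exact ⟨k', by rcases hk with rfl | rfl <;> assumption, d⟩

end Pool.Agent.MP_7dc785_an.Sep
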