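import Pool.Agent.MP_7dc785_an.Sep.Base2

/-!
Maps which preserve the homology class modulo two of a short curve: colourings and triples.
-/

namespace Pool.Agent.MP_7dc785_an.Sep

open Set Metric UpperHalfPlane
open scoped MatrixGroups

theorem morse2_alg {A B c a₁ b₁ c₁ a₂ b₂ c₂ η ν : ℝ} (hc : c ^ 2 = 1 + 4 * A * B)
    (r₁ : a₁ * c₁ = 1 + b₁ ^ 2) (r₂ : a₂ * c₂ = 1 + b₂ ^ 2) (hν : 0 ≤ ν) (hν1 : ν ≤ 1 / 3000)
    (h0 : 0 ≤ η) (hη : η ≤ ν ^ 2 / 40)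
    (h₁ : |(a₁ + c₁) / 2 - 5 / 4| ≤ 2 * η * (5 / 4)) (h₂ : |(a₂ + c₂) / 2 - 5 / 4| ≤ 2 * η * (5 / 4))
    (h₃ : |(a₁ * c₂ + c₁ * a₂) / 2 - b₁ * b₂ - 17 / 8| ≤ 2 * η * (17 / 8)) :
    12 / 5 * |A + B| ≤
      |A * c₁ + c * b₁ + B * a₁| + |A * c₂ + c * b₂ + B * a₂| + ν := by
  obtain ⟨p1, p2⟩ := abs_le.1 h₁
  obtain ⟨p3, p4⟩ := abs_le.1 h₂
  obtain ⟨p5, -⟩ := abs_le.1 h₃
  have η1 : η ≤ 1 / 1000 := by nlinarith only [hη, hν, hν1]
  obtain ⟨H, hH⟩ : ∃ H, H = (a₁ + c₁) / 2 + (a₂ + c₂) / 2 := ⟨_, rfl⟩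
  obtain ⟨U, hU⟩ : ∃ U, U = (c₁ - a₁) / 2 + (c₂ - a₂) / 2 := ⟨_, rfl⟩
  obtain ⟨V, hV⟩ : ∃ V, V = b₁ + b₂ := ⟨_, rfl⟩
  have e1 : U ^ 2 + V ^ 2 = H ^ 2 - 2 - 2 * ((a₁ * c₂ + c₁ * a₂) / 2 - b₁ * b₂) := by
    rw [hH, hU, hV]
    linear_combination (-1 : ℝ) * r₁ - r₂
  have H1 : H ≤ 5 / 2 + 5 * η := by linarith only [hH, p2, p4]
  have H2 : 249 / 100 ≤ H := by linarith only [hH, p1, p3, η1]
  have H3 : H ^ 2 ≤ (5 / 2 + 5 * η) ^ 2 := pow_le_pow_left₀ (by linarith only [H2]) H1 2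
  have e2 : U ^ 2 + V ^ 2 ≤ ν ^ 2 := by nlinarith only [e1, H3, p5, hη, η1, h0]
  have a0 := abs_nonneg (A + B)
  have e3 : (A - B) ^ 2 + c ^ 2 ≤ (1 + |A + B|) ^ 2 := by
    linarith only [hc, a0, sq_abs (A + B)]
  have e4 : |(A - B) * U + c * V| ≤ (1 + |A + B|) * ν := by
    refine abs_le_of_sq_le_sq' ?_ (by positivity) |> abs_le.2
    rw [mul_pow]
    refine le_trans ?_ (mul_le_mul e3 e2 (by positivity) (by positivity))
    linarith only [sq_nonneg ((A - B) * V - c * U)]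
  have e5 : (A + B) * H = A * c₁ + c * b₁ + B * a₁ + (A * c₂ + c * b₂ + B * a₂) -
      ((A - B) * U + c * V) := by
    rw [hH, hU, hV]
    ring
  have e6 : |(A + B) * H| ≤ |A * c₁ + c * b₁ + B * a₁| + |A * c₂ + c * b₂ + B * a₂| +
      |(A - B) * U + c * V| := by
    rw [e5]
    exact (abs_sub _ _).trans (add_le_add (abs_add_le _ _) le_rfl)
  rw [abs_mul, abs_of_nonneg (show 0 ≤ H by linarith only [H2])] at e6
  linarith only [e4, e6, a0, mul_le_mul_of_nonneg_left H2 a0, mul_le_mul_of_nonneg_left hν1 a0]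

theorem morse2_three (k : SL(2, ℝ)) {p q r : ℍ} {η ν : ℝ} (hν : 0 ≤ ν) (hν1 : ν ≤ 1 / 3000)
    (hη : η ≤ ν ^ 2 / 40) (h₁ : |dist p q - Real.log 2| ≤ η) (h₂ : |dist r q - Real.log 2| ≤ η)
    (h₃ : |dist p r - Real.log 4| ≤ η) :
    12 / 5 * |S k q| ≤ |S k p| + |S k r| + ν := by
  obtain ⟨m, rfl⟩ := MulAction.exists_smul_eq SL(2, ℝ) I q
  obtain ⟨p, rfl⟩ := MulAction.surjective m p
  obtain ⟨r, rfl⟩ := MulAction.surjective m r
  simp only [dist_smul] at h₁ h₂ h₃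
  have η1 : η ≤ 1 := by nlinarith only [hη, hν, hν1]
  have c2 : Real.cosh (Real.log 2) = 5 / 4 := by rw [Real.cosh_log two_pos]; norm_num
  have c4 : Real.cosh (Real.log 4) = 17 / 8 := by rw [Real.cosh_log four_pos]; norm_num
  have g₁ := cosh_close h₁ η1
  have g₂ := cosh_close h₂ η1
  have g₃ := cosh_close h₃ η1
  rw [c_a, c2] at g₁ g₂
  rw [cosh_X, c4] at g₃
  have e : S k (m • I) = Af k m + Bf k m := by
    rw [← ax_zero, S_ax, neg_zero, Real.exp_zero, mul_one, mul_one]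
  simp only [e, S_smul k m p, S_smul k m r]
  exact morse2_alg (cf_sq k m) (x_rel p) (x_rel r) hν hν1 ((abs_nonneg _).trans h₁) hη g₁ g₂ g₃

theorem morse2 {ν e : ℝ} (hν : 0 ≤ ν) (hν1 : ν ≤ 1 / 3000) (e0 : 0 ≤ e) (e1 : e ≤ ν ^ 2 / 120)
    {φ : ℍ → ℍ} (hφ : QI e φ) {g g' : Equiv.Perm ℍ} {k k' : SL(2, ℝ)} {t t' : ℝ} (t0 : 0 < t)
    (hg : Tr g k t) (hg' : Tr g' k' t') (h : ∀ z, φ (g z) = g' (φ z)) (s : ℝ) :
    |S k' (φ (k • ax s))| ≤ 3 * ν := by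
  have per : Function.Periodic (fun s => |S k' (φ (k • ax s))|) t := fun s => by
    simp only [← hg.ax s, h, hg'.S_eq]
  have bd : BddAbove (range fun s => |S k' (φ (k • ax s))|) := by
    refine ⟨Real.cosh (t + e * (1 + t) + dist (φ (k • ax 0)) (k' • I)), ?_⟩
    rintro _ ⟨s, rfl⟩
    obtain ⟨u, ⟨u0, u1⟩, hu⟩ := per.exists_mem_Ico₀ t0 s
    refine hu.trans_le ((morse_bd k' _).trans (Real.cosh_le_cosh.2 ?_))
    have h1 : dist (φ (k • ax u)) (φ (k • ax 0)) ≤ t + e * (1 + t) :=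
      hφ.ub e0 (by rw [dist_smul, dist_ax, sub_zero, abs_of_nonneg u0]; exact u1.le)
    rw [abs_of_nonneg dist_nonneg]
    refine le_trans ?_ (le_abs_self _)
    linarith only [h1, dist_triangle (φ (k • ax u)) (φ (k • ax 0)) (k' • I)]
  have l0 : 0 < Real.log 2 := Real.log_pos one_lt_two
  have l1 : Real.log 2 ≤ 1 := by linarith only [Real.log_two_lt_d9]
  have l4 : Real.log 4 = 2 * Real.log 2 := by
    rw [show (4 : ℝ) = 2 ^ 2 by norm_num, Real.log_pow, Nat.cast_ofNat]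
  have q : ∀ a b d : ℝ, |a - b| = d → d ≤ 2 →
      |dist (φ (k • ax a)) (φ (k • ax b)) - d| ≤ e * (1 + 2) := fun a b d hd d2 => by
    have h1 : dist (k • ax a) (k • ax b) = d := by rw [dist_smul, dist_ax, hd]
    exact h1 ▸ hφ.le e0 (h1.trans_le d2)
  have le := le_ciSup bd
  have key : ∀ s, |S k' (φ (k • ax s))| ≤
      5 / 12 * (2 * (⨆ s, |S k' (φ (k • ax s))|) + ν) := fun s => by
    have h1 := morse2_three k' (η := e * (1 + 2)) hν hν1 (by linarith only [e1])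
      (q (s + Real.log 2) s _ (by rw [add_sub_cancel_left, abs_of_pos l0]) (by linarith only [l1]))
      (q (s - Real.log 2) s _ (by rw [sub_sub_cancel_left, abs_neg, abs_of_pos l0])
        (by linarith only [l1]))
      (q (s + Real.log 2) (s - Real.log 2) _
        (by rw [add_sub_sub_cancel, ← two_mul, ← l4, abs_of_pos (by linarith only [l4, l0])])
        (by linarith only [l4, l1]))
    linarith only [h1, le (s + Real.log 2), le (s - Real.log 2)]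
  linarith only [le s, ciSup_le key, hν]

/-- the parity of the number of separating lines as a homomorphism -/
noncomputable def par2_hom {G : Subgroup (Equiv.Perm ℍ)} {l : ℝ} (hl : Fuchs G l) {δ : G}
    {k : SL(2, ℝ)} {t : ℝ} (ht : 0 < t) (h : Tr δ k t) (p : ℍ) : G →* Multiplicative (ZMod 2) where
  toFun g := Multiplicative.ofAdd ((Cr δ k p (g.1 p)).ncard : ZMod 2)
  map_one' := by simp [par_self]
  map_mul' a b := by
    rw [← ofAdd_add, ← par_inv h a p (b.1 p), ← par_add (finc_row fin_row) hl ht h]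
    rfl

theorem par2_base {G : Subgroup (Equiv.Perm ℍ)} {l : ℝ} (hl : Fuchs G l) {δ : G}
    {k : SL(2, ℝ)} {t : ℝ} (ht : 0 < t) (h : Tr δ k t) (g : G) (p q : ℍ) :
    ((Cr δ k p (g.1 p)).ncard : ZMod 2) = (Cr δ k q (g.1 q)).ncard := by
  have hC := finc_row fin_row
  have a3 := par_add hC hl ht h p q p
  rw [par_self, Nat.cast_zero] at a3
  rw [par_add hC hl ht h p q, par_add hC hl ht h q (g.1 q), par_inv h]
  linear_combination -a3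

theorem par2 {G : Subgroup (Equiv.Perm ℍ)} {l : ℝ} (hl : Fuchs G l) {γ₀ : G} {k₀ : SL(2, ℝ)}
    {t₀ : ℝ} (ht₀ : 0 < t₀) (h₀ : Tr γ₀ k₀ t₀) (b₀ : t₀ < 2 * l) :
    ∃ χ : G →* Multiplicative (ZMod 2), ∀ (γ : G) k t, 0 < t → Tr γ k t → Same γ γ₀ →
      χ γ = 1 ∧ Col2 χ γ k := by
  have hC := finc_row fin_row
  refine ⟨par2_hom hl ht₀ h₀ I, fun γ k t ht h hs => ⟨?_, ?_⟩⟩
  · rw [hs]
    show Multiplicative.ofAdd ((Cr γ₀ k₀ I (γ₀.1 I)).ncard : ZMod 2) = 1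
    rw [par2_base hl ht₀ h₀ γ₀ I (k₀ • ax 0), h₀.ax,
      show Cr γ₀ k₀ (k₀ • ax 0) (k₀ • ax (0 + t₀)) = ∅ from ?_]
    · simp
    refine eq_empty_of_forall_notMem ?_
    rintro _ ⟨g, rfl, hT⟩
    obtain ⟨s, -, u, e⟩ := geo_zero hl (by linarith) hT
    by_cases hg : 1⁻¹ * g ∈ Subgroup.zpowers γ₀
    · refine hT ?_
      rw [par_T h₀ (QuotientGroup.eq.2 hg), par_T h₀ (QuotientGroup.eq.2 hg)]
      simp [S_self, xb_ax]
    · have := sep_row G l hl γ₀ k₀ t₀ ht₀ h₀ 1 g hg s u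
      rw [← e] at this
      simp only [OneMemClass.coe_one, Equiv.Perm.coe_one, id, dist_self] at this
      linarith
  have h1 : ∀ (g : G) p, ((Cr γ k p (g.1 p)).ncard : ZMod 2) = (par2_hom hl ht₀ h₀ I g).toAdd :=
    fun g p => by
    show _ = ((Cr γ₀ k₀ I (g.1 I)).ncard : ZMod 2)
    by_cases hg : g.1 = 1
    · simp [hg, par_self]
    obtain ⟨k', t', ht', h'⟩ := axis_row G l hl g g.2 hg
    rw [par2_base hl ht h g p (k' • I), par2_base hl ht₀ h₀ g I (k' • I),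
      sym_row G l hl γ g k t k' t' ht h ht' h', sym_row G l hl γ₀ g k₀ t₀ k' t' ht₀ h₀ ht' h',
      par2_base hl ht' h' γ (k • I) I, par2_base hl ht' h' γ₀ (k₀ • I) I]
    exact congrArg Multiplicative.toAdd (hs (par2_hom hl ht' h' I))
  refine ⟨fun p => ((Cr γ k I p).ncard : ZMod 2), fun g p => ?_, fun p q hT => ?_,
    fun p q g₀ h₀ hT => ?_⟩
  · simp only
    rw [par_add hC hl ht h I p, h1]
  · simp only
    rw [par_add hC hl ht h I p q, show Cr γ k p q = ∅ from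
      eq_empty_of_forall_notMem fun c ⟨g, _, h2⟩ => hT g h2, ncard_empty, Nat.cast_zero, add_zero]
  · have e : Cr γ k p q = {(g₀ : G ⧸ Subgroup.zpowers γ)} := by
      refine eq_singleton_iff_unique_mem.2 ⟨⟨g₀, rfl, h₀⟩, ?_⟩
      rintro _ ⟨g, rfl, h2⟩
      exact (QuotientGroup.eq.2 (hT g h2)).symm
    simp only
    rw [par_add hC hl ht h I p q, e, ncard_singleton, Nat.cast_one]

theorem two_exp (n : ℕ) {x : ℝ} (h : n ≤ x) : (2 : ℝ) ^ n ≤ Real.exp x := by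
  have a1 : (2 : ℝ) ≤ Real.exp 1 := by linarith [Real.add_one_le_exp 1]
  have a2 : Real.exp n = Real.exp 1 ^ n := by rw [← Real.exp_nat_mul]; norm_num
  have a3 : (2 : ℝ) ^ n ≤ Real.exp 1 ^ n := by gcongr
  linarith [Real.exp_le_exp.2 h]

theorem far_key {k₁ k₂ k₃ : SL(2, ℝ)} {a b : ℝ} (h2 : S k₂ (k₁ • ax a) = 0)
    (h3 : S k₃ (k₁ • ax b) = 0) (c2 : |cf k₂ k₁| ≤ 1 - 1 / 10 ^ 14)
    (c3 : |cf k₃ k₁| ≤ 1 - 1 / 10 ^ 14) (hab : 48 ≤ |a - b|) : 1 < cf k₃ k₂ ^ 2 := by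
  rw [S_ax] at h2 h3
  have e := cf_three k₁ k₂ k₃
  rw [cf_comm] at e
  have K : ∀ {A B c x : ℝ}, c ^ 2 = 1 + 4 * A * B → A * Real.exp x + B * Real.exp (-x) = 0 →
      |c| ≤ 1 - 1 / 10 ^ 14 → ∃ u, A = u * Real.exp (-x) ∧ B = -u * Real.exp x ∧
        7 / 10 ^ 8 ≤ |u| := fun {A B c x} q h hc => by
    have x1 : Real.exp x * Real.exp (-x) = 1 := by rw [← Real.exp_add]; simp
    have e1 : B = -(A * Real.exp x) * Real.exp x := by linear_combination Real.exp x * h - B * x1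
    have e2 : A = A * Real.exp x * Real.exp (-x) := by linear_combination (-A) * x1
    refine ⟨A * Real.exp x, e2, e1, abs_le_of_sq_le_sq' ?_ (abs_nonneg _) |>.2⟩
    have e3 : c ^ 2 = 1 - 4 * (A * Real.exp x) ^ 2 := by rw [q, e1]; ring
    rw [sq_abs]
    nlinarith [sq_le_sq' (abs_le.1 hc).1 (abs_le.1 hc).2]
  obtain ⟨v, v1, v2, v3⟩ := K (cf_sq k₂ k₁) h2 c2
  obtain ⟨u, u1, u2, u3⟩ := K (cf_sq k₃ k₁) h3 c3
  have e1 : Real.exp (-a) * Real.exp b = Real.exp (-(a - b)) := by rw [← Real.exp_add]; ring_nf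
  have e2 : Real.exp a * Real.exp (-b) = Real.exp (a - b) := by rw [← Real.exp_add]; ring_nf
  have e3 : cf k₃ k₂ = cf k₂ k₁ * cf k₃ k₁ + 2 * (v * u) * (Real.exp (-(a - b)) + Real.exp (a - b)) := by
    rw [e, v1, v2, u1, u2, ← e1, ← e2]; ring
  have x2 : (2 : ℝ) ^ 48 ≤ Real.exp (-(a - b)) + Real.exp (a - b) := by
    rcases le_abs.1 hab with h | h
    · linarith [two_exp 48 (x := a - b) (by exact_mod_cast h), Real.exp_pos (-(a - b))]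
    · linarith [two_exp 48 (x := -(a - b)) (by exact_mod_cast h), Real.exp_pos (a - b)]
  have d4 := mul_le_mul v3 u3 (by norm_num) (abs_nonneg _)
  rw [← abs_mul] at d4
  have d5 : |cf k₂ k₁ * cf k₃ k₁| ≤ 1 := by
    rw [abs_mul]
    exact mul_le_one₀ (by linarith) (abs_nonneg _) (by linarith)
  obtain ⟨d6, d7⟩ := abs_le.1 d5
  rcases le_abs.1 d4 with h | h
  · have := mul_le_mul h x2 (by norm_num) (by linarith)
    have : 1 < cf k₃ k₂ := by linarith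
    nlinarith
  · have := mul_le_mul h x2 (by norm_num) (by linarith)
    have : cf k₃ k₂ < -1 := by linarith
    nlinarith

theorem geo2_ne {k₂ k₃ : SL(2, ℝ)} (d6 : 1 < cf k₃ k₂ ^ 2) (s : ℝ) : S k₃ (k₂ • ax s) ≠ 0 := by
  have q := cf_sq k₃ k₂
  rw [S_ax]
  intro h0
  have y1 := Real.exp_pos s
  have y2 := Real.exp_pos (-s)
  have y3 : 0 < Af k₃ k₂ * Bf k₃ k₂ := by linarith
  have y4 : Af k₃ k₂ * Bf k₃ k₂ * Real.exp (-s) = -(Af k₃ k₂ ^ 2 * Real.exp s) := by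
    linear_combination Af k₃ k₂ * h0
  nlinarith [mul_pos y3 y2, mul_nonneg (sq_nonneg (Af k₃ k₂)) y1.le]

theorem geo2_P1 {G : Subgroup (Equiv.Perm ℍ)} {l : ℝ} (hl : Fuchs G l) (h100 : 600 ≤ l)
    {χ : G →* Multiplicative (ZMod 2)} {α β : G} {k₁ k₂ : SL(2, ℝ)} {t₁ t₂ : ℝ} (ht₁ : 0 < t₁)
    (b₁ : t₁ ≤ 1071 / 1000 * l) (h₁ : Tr α k₁ t₁) (ht₂ : 0 < t₂) (b₂ : t₂ ≤ 1071 / 1000 * l)
    (h₂ : Tr β k₂ t₂) (nα : χ α = 1) (C₂ : Col2 χ β k₂) (hx : k₁ • ax 0 = k₂ • ax 0)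
    (cc : |cf k₂ k₁| < 1) : ∃ g : G, ∃ y u, k₁ • ax y = g.1 (k₂ • ax u) ∧
      4645 / 10000 * l ≤ y ∧ y ≤ 6065 / 10000 * l ∧ 4645 / 10000 * l ≤ u ∧ u ≤ 6065 / 10000 * l := by
  obtain ⟨c₂, i₂, _, o₂⟩ := C₂
  have hS := sep_row
  have s₂ : S k₂ (k₁ • ax 0) = 0 := by rw [hx, S_self, xb_ax]
  have s₁ : S k₁ (k₂ • ax 0) = 0 := by rw [← hx, S_self, xb_ax]
  have T1 : ∀ k p q, T k (1 : G) p q ↔ ¬ (0 < S k p ↔ 0 < S k q) := fun k p q => by simp [T]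
  have l₁ : l ≤ t₁ := by
    have := hl.sys α α.2 (core_ne ht₁ h₁) (k₁ • ax 0)
    rwa [h₁.ax, dist_smul, dist_ax, zero_add, zero_sub, abs_neg, abs_of_pos ht₁] at this
  obtain ⟨g, y, u, hy, y1, y2⟩ : ∃ g : G, ∃ y u, k₁ • ax y = g.1 (k₂ • ax u) ∧
      l - t₂ / 2 ≤ y ∧ y ≤ t₁ - (l - t₂ / 2) := by
    by_contra hc
    have a1 := o₂ (k₁ • ax (-1)) (k₁ • ax (-1 + t₁)) 1
      ((T1 _ _ _).2 (geo_jump cc s₂ (by norm_num) (by linarith))) fun g hT => by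
      by_contra hg
      obtain ⟨y, hy, u, e⟩ := geo_zero hl (by linarith) hT
      have a2 := hS G l hl β k₂ t₂ ht₂ h₂ 1 g hg 0 u
      rw [← e, ← hx] at a2
      simp only [OneMemClass.coe_one, Equiv.Perm.coe_one, id, dist_smul, dist_ax] at a2
      have a3 : l - t₂ / 2 ≤ y := by
        rcases le_abs.1 a2 with h | h <;> linarith [hy.1]
      have a4 : α⁻¹ * g ∉ Subgroup.zpowers β := by
        rintro ⟨j, hj⟩
        have a5 : g = α * β ^ j := by simp [show β ^ j = α⁻¹ * g from hj]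
        have a6 : k₁ • ax (y + -t₁) = k₂ • ax (u + j * t₂) := by
          rw [← h₁.inv.ax, e, a5, ← (h₂.zpow j).ax]
          simp
        have a7 := geo_uniq cc s₂ (a := y + -t₁) (by rw [a6, S_self, xb_ax])
        linarith [hy.2]
      have a5 := hS G l hl β k₂ t₂ ht₂ h₂ α g a4 0 u
      rw [← e, ← hx, h₁.ax, dist_smul, dist_ax, abs_of_nonneg (by linarith [hy.2])] at a5
      exact hc ⟨g, y, u, e, a3, by linarith⟩
    rw [← h₁.ax, i₂, nα] at a1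
    simp at a1
  have a1 := Int.floor_le (u / t₂)
  have a2 := Int.lt_floor_add_one (u / t₂)
  rw [le_div_iff₀ ht₂] at a1
  rw [div_lt_iff₀ ht₂] at a2
  generalize ⌊u / t₂⌋ = j at a1 a2
  have hy' : k₁ • ax y = (g * β ^ j : G).1 (k₂ • ax (u - j * t₂)) := by
    rw [hy, show u = u - j * t₂ + j * t₂ by ring, ← (h₂.zpow j).ax]
    simp
  have W : ∀ (g : G) u, k₁ • ax y = g.1 (k₂ • ax u) → l - t₁ / 2 ≤ |u| := fun g u e => by
    have hg : 1⁻¹ * g⁻¹ ∉ Subgroup.zpowers α := by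
      rintro ⟨i, hi⟩
      have a5 : g⁻¹ = α ^ i := by simpa using (show α ^ i = 1⁻¹ * g⁻¹ from hi).symm
      have a6 : k₁ • ax (y + i * t₁) = k₂ • ax u := by
        rw [← (h₁.zpow i).ax, e, show α.1 ^ i = (α ^ i : G).1 from rfl, ← a5]
        simp
      have a7 := geo_uniq cc s₂ (a := y + i * t₁) (by rw [a6, S_self, xb_ax])
      rcases le_or_gt 0 i with h | h
      · have : (0 : ℝ) ≤ i := by exact_mod_cast h
        nlinarith
      · have : (i : ℝ) + 1 ≤ 0 := by exact_mod_cast h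
        nlinarith
    have a2 := hS G l hl α k₁ t₁ ht₁ h₁ 1 g⁻¹ hg 0 y
    rw [e, hx] at a2
    simpa [dist_smul, dist_ax] using a2
  have w1 := W _ _ hy'
  have w2 := W (g * β ^ j * β) (u - j * t₂ + -t₂) (by rw [hy', ← h₂.inv.ax]; simp)
  rw [abs_of_nonneg (by linarith)] at w1
  rw [abs_of_nonpos (by linarith)] at w2
  exact ⟨_, y, _, hy', by linarith, by linarith, by linarith, by linarith⟩

theorem geo2 {G : Subgroup (Equiv.Perm ℍ)} {l : ℝ} (hl : Fuchs G l) (h100 : 600 ≤ l)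
    {χ : G →* Multiplicative (ZMod 2)} {β γ g : G} {k₁ k₂ k₃ : SL(2, ℝ)} {t₂ t₃ ζ y u : ℝ}
    (ht₂ : 0 < t₂) (b₂ : t₂ ≤ 1071 / 1000 * l) (h₂ : Tr β k₂ t₂) (ht₃ : 0 < t₃)
    (b₃ : t₃ ≤ 1071 / 1000 * l) (h₃ : Tr γ k₃ t₃) (nβ : χ β = 1) (C₃ : Col2 χ γ k₃)
    (hx : k₁ • ax 0 = k₂ • ax 0) (cc₂ : |cf k₂ k₁| ≤ 1 - 1 / 10 ^ 14)
    (cc₃ : |cf k₃ k₁| ≤ 999 / 1000) (hζ : S k₃ (k₁ • ax ζ) = 0) (lo : 145 / 1000 * l ≤ ζ)
    (hi : ζ ≤ 155 / 1000 * l) (hy : k₁ • ax y = g.1 (k₂ • ax u)) (y1 : 4645 / 10000 * l ≤ y)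
    (y2 : y ≤ 6065 / 10000 * l) : (χ g).toAdd = 1 := by
  obtain ⟨c₃, i₃, z₃, o₃⟩ := C₃
  have hS := sep_row
  have s₂ : S k₂ (k₁ • ax 0) = 0 := by rw [hx, S_self, xb_ax]
  have nc := geo2_ne (far_key s₂ hζ cc₂ (by linarith) (by rw [zero_sub, abs_neg, le_abs]; left; linarith))
  obtain ⟨w, hw⟩ := S_zero hζ
  have T1 : ∀ k p q, T k (1 : G) p q ↔ ¬ (0 < S k p ↔ 0 < S k q) := fun k p q => by simp [T]
  have p2 := o₃ (k₁ • ax 0) (k₁ • ax y) 1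
    ((T1 _ _ _).2 (geo_jump (by linarith) hζ (by linarith) (by linarith))) fun g' hT => by
    by_contra hg
    obtain ⟨s, hs, v, e⟩ := geo_zero hl (by linarith) hT
    have a2 := hS G l hl γ k₃ t₃ ht₃ h₃ 1 g' hg w v
    rw [← e, ← hw] at a2
    simp only [OneMemClass.coe_one, Equiv.Perm.coe_one, id, dist_smul, dist_ax] at a2
    rcases le_abs.1 a2 with h | h <;> linarith [hs.1, hs.2]
  have p3 : ∀ (g' : G) s v, k₂ • ax s = g'.1 (k₃ • ax v) → l - t₃ / 2 - ζ ≤ |s| := fun g' s v e => by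
    have hg : 1⁻¹ * g' ∉ Subgroup.zpowers γ := by
      rintro ⟨j, hj⟩
      have a5 : g' = γ ^ j := by simpa using (show γ ^ j = 1⁻¹ * g' from hj).symm
      refine nc s ?_
      rw [e, a5, show (γ ^ j : G).1 = γ.1 ^ j from rfl, (h₃.zpow j).S_eq, S_self, xb_ax]
    have a2 := hS G l hl γ k₃ t₃ ht₃ h₃ 1 g' hg w v
    rw [← e, ← hw] at a2
    simp only [OneMemClass.coe_one, Equiv.Perm.coe_one, id] at a2
    have a3 := dist_triangle (k₁ • ax ζ) (k₁ • ax 0) (k₂ • ax s)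
    rw [dist_smul, dist_ax, sub_zero, abs_of_nonneg (by linarith), hx, dist_smul, dist_ax, zero_sub,
      abs_neg] at a3
    linarith
  have p4 : ∀ g' : G, T k₃ g' (k₂ • ax 0) (k₂ • ax t₂) → ∃ s v, k₂ • ax s = g'.1 (k₃ • ax v) ∧
      l - t₃ / 2 - ζ ≤ s ∧ s ≤ t₂ - (l - t₃ / 2 - ζ) := fun g' hT => by
    obtain ⟨s, hs, v, e⟩ := geo_zero hl ht₂.le hT
    have a1 := p3 g' s v e
    have a2 := p3 (β⁻¹ * g') (s + -t₂) v (by rw [← h₂.inv.ax, e]; simp)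
    rw [abs_of_nonneg hs.1] at a1
    rw [abs_of_nonpos (by linarith [hs.2])] at a2
    exact ⟨s, v, e, a1, by linarith⟩
  have p5 : ∀ g' : G, ¬ T k₃ g' (k₂ • ax 0) (k₂ • ax t₂) := fun g' hT => by
    have a1 := o₃ _ _ g' hT fun g'' hT' => by
      by_contra hg
      obtain ⟨s, v, e, a1, a2⟩ := p4 g' hT
      obtain ⟨s', v', e', a3, a4⟩ := p4 g'' hT'
      have a5 := hS G l hl γ k₃ t₃ ht₃ h₃ g' g'' hg v v'
      rw [← e, ← e', dist_smul, dist_ax] at a5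
      rcases le_abs.1 a5 with h | h <;> linarith
    rw [show k₂ • ax t₂ = β.1 (k₂ • ax 0) by rw [h₂.ax, zero_add], i₃, nβ] at a1
    simp at a1
  have p6 : ∀ s, c₃ (k₂ • ax 0) = c₃ (k₂ • ax s) := fun s => by
    have a1 := Int.floor_le (s / t₂)
    have a2 := Int.lt_floor_add_one (s / t₂)
    rw [le_div_iff₀ ht₂] at a1
    rw [div_lt_iff₀ ht₂] at a2
    generalize ⌊s / t₂⌋ = j at a1 a2
    rw [show s = s - j * t₂ + j * t₂ by ring, ← (h₂.zpow j).ax,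
      show β.1 ^ j = (β ^ j : G).1 from rfl, i₃, map_zpow, nβ, one_zpow, toAdd_one, add_zero]
    refine z₃ _ _ fun g' hT => p5 g' fun h => hT ?_
    obtain ⟨m, hm⟩ := hl.mob g' g'.2
    have hm' : ∀ z, (g'.1)⁻¹ z = m⁻¹ • z := fun z => by
      rw [Equiv.Perm.inv_eq_iff_eq, hm, smul_inv_smul]
    rw [hm', hm', ← S_mul, ← S_mul, S_ax, S_ax] at h ⊢
    exact geo_mono (by linarith) (by linarith) h
  rw [hy, i₃, hx, ← p6 u] at p2
  exact add_left_cancel p2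

end Pool.Agent.MP_7dc785_an.Sep
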